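import Pool.Agent.Lib.MP_688fd0_co.SQ7.H79.BlkA

/-!
SQ7, levels of the visits of a block trajectory: numbers `S t` (the sum of the vertical moves, each `v` or `v + 1`) such that
any two visits of a coset are far from each other; cut levels.
-/

set_option autoImplicit false

namespace Pool.Agent.Lib.MP_688fd0_co.SQ7.H79

open Finset Pool.Agent.Lib.MP_688fd0_co.SQ5.H12

theorem sparse_class {p : ℕ} (a : ZMod p) : Sparse p {y : ℤ | (y : ZMod p) = a} := by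
  classical
  intro y F hF
  by_contra hcon
  -- two elements of `F` in `[y, y + p)`
  set F' := F.filter fun x => x < y + p with hF'
  have h1 : F ⊆ insert (y + p) F' := by
    intro x hx
    obtain ⟨-, h2, h3⟩ := hF x hx
    rcases h3.lt_or_eq with h4 | h4
    · exact Finset.mem_insert_of_mem (Finset.mem_filter.2 ⟨hx, h4⟩)
    · rw [h4]; exact Finset.mem_insert_self _ _
  have h2 := Finset.card_le_card h1
  have h3 := Finset.card_insert_le (y + p) F'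
  have h4 : 1 < F'.card := by omega
  obtain ⟨x, hx, x', hx', hne⟩ := Finset.one_lt_card.1 h4
  rw [hF', Finset.mem_filter] at hx hx'
  obtain ⟨e1, e2, -⟩ := hF x hx.1
  obtain ⟨e1', e2', -⟩ := hF x' hx'.1
  have e3 : ((x - x' : ℤ) : ZMod p) = 0 := by
    have g1 : (x : ZMod p) = a := e1
    have g2 : (x' : ZMod p) = a := e1'
    rw [Int.cast_sub, g1, g2, sub_self]
  have e4 := (ZMod.intCast_zmod_eq_zero_iff_dvd _ _).1 e3
  have e5 := Int.eq_zero_of_abs_lt_dvd e4 (by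
    rw [abs_lt]
    constructor <;> omega)
  exact hne (by omega)

/-- **Levels.** `lv` = level (modulo `p`) of the elements of `T`; `u` = length of a vertical unit. -/
theorem Blk.lev {Q : Type*} [Group Q] {Λ : Type*} {q : Λ → Q} {T N N0 Nv : Subgroup Q} (P : Blk q T N N0 Nv) {p : ℕ}
    (lv : Q → ZMod p) (u E : ℕ) (hu : 1 ≤ u)
    (hL : 1000 * ((2 * P.R + 1) * P.n ^ 2 + 1) * u * (4 ^ (10 * ((2 * P.R + 1) * P.n ^ 2) + 1) * (30 + 5 * E)) ≤ p) :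
    ∃ (v : ℕ) (S : ℕ → ℕ), 30 + 5 * E ≤ v ∧ v ≤ 2 * (4 ^ (10 * ((2 * P.R + 1) * P.n ^ 2)) * (30 + 5 * E)) ∧ S 0 = 0 ∧
      (∀ t, S (t + 1) = S t + v ∨ S (t + 1) = S t + (v + 1)) ∧
      ∀ t t', t < t' → t' < P.τ → (P.w t)⁻¹ * P.w t' ∈ T →
        ∀ y : ℤ, (y : ZMod p) = lv ((P.w t)⁻¹ * P.w t') + u * ((S t' : ZMod p) - S t) → (u * (v + 4) + E : ℤ) < |y| := by
  obtain ⟨θ, h1, h2, h3⟩ := P.theta u E p hu (fun h => {y : ℤ | (y : ZMod p) = - lv h})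
    (fun h _ => sparse_class _) hL
  have hE : (0 : ℝ) ≤ E := Nat.cast_nonneg _
  have hθ : 0 ≤ θ := by linarith
  have hle : (⌊θ⌋₊ : ℝ) ≤ θ := Nat.floor_le hθ
  have hlt : θ < ⌊θ⌋₊ + 1 := Nat.lt_floor_add_one θ
  refine ⟨⌊θ⌋₊, fun t => ⌊θ * t⌋₊, ?_, ?_, by simp, fun t => ?_, ?_⟩
  · refine Nat.le_floor ?_
    push_cast
    exact h1
  · have h4 : (⌊θ⌋₊ : ℝ) ≤ ((2 * (4 ^ (10 * ((2 * P.R + 1) * P.n ^ 2)) * (30 + 5 * E)) : ℕ) : ℝ) := by
      push_cast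
      exact hle.trans h2
    exact_mod_cast h4
  · show ⌊θ * ((t + 1 : ℕ) : ℝ)⌋₊ = ⌊θ * t⌋₊ + ⌊θ⌋₊ ∨ ⌊θ * ((t + 1 : ℕ) : ℝ)⌋₊ = ⌊θ * t⌋₊ + (⌊θ⌋₊ + 1)
    have a1 := Nat.floor_le (a := θ * t) (by positivity)
    have a2 := Nat.lt_floor_add_one (θ * t)
    have b1 := Nat.floor_le (a := θ * ((t + 1 : ℕ) : ℝ)) (by positivity)
    have b2 := Nat.lt_floor_add_one (θ * ((t + 1 : ℕ) : ℝ))
    have e : θ * ((t + 1 : ℕ) : ℝ) = θ * t + θ := by push_cast; ring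
    rw [e] at b1 b2 ⊢
    have c1 : ((⌊θ * t⌋₊ + ⌊θ⌋₊ : ℕ) : ℝ) < ((⌊θ * t + θ⌋₊ + 1 : ℕ) : ℝ) := by push_cast; linarith
    have c2 : ((⌊θ * t + θ⌋₊ : ℕ) : ℝ) < ((⌊θ * t⌋₊ + ⌊θ⌋₊ + 2 : ℕ) : ℝ) := by push_cast; linarith
    have c1' : ⌊θ * t⌋₊ + ⌊θ⌋₊ < ⌊θ * t + θ⌋₊ + 1 := by exact_mod_cast c1
    have c2' : ⌊θ * t + θ⌋₊ < ⌊θ * t⌋₊ + ⌊θ⌋₊ + 2 := by exact_mod_cast c2
    omega
  · intro t t' htt ht' hT y hy
    have h4 := h3 (fun t => ((⌊θ * t⌋₊ : ℕ) : ℤ)) (fun t => Or.inl (by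
      rw [Int.natCast_floor_eq_floor (by positivity)])) t t' htt ht' hT
      (((u : ℤ) * ((⌊θ * t'⌋₊ : ℕ) - (⌊θ * t⌋₊ : ℕ))) - y) (by
        show (((((u : ℤ) * ((⌊θ * t'⌋₊ : ℕ) - (⌊θ * t⌋₊ : ℕ))) - y : ℤ)) : ZMod p) = _
        push_cast
        rw [hy]
        ring)
    have e : (u : ℝ) * (((⌊θ * t'⌋₊ : ℕ) : ℤ) - ((⌊θ * t⌋₊ : ℕ) : ℤ)) -
        ((((u : ℤ) * ((⌊θ * t'⌋₊ : ℕ) - (⌊θ * t⌋₊ : ℕ))) - y : ℤ) : ℝ) = (y : ℝ) := by
      push_cast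
      ring
    have h5 : (u : ℝ) * (θ + 4) + E < |(y : ℝ)| := by
      rw [← e]
      exact_mod_cast h4
    have hu' : (0 : ℝ) ≤ u := Nat.cast_nonneg _
    have h6 : ((u * (⌊θ⌋₊ + 4) + E : ℤ) : ℝ) < ((|y| : ℤ) : ℝ) := by
      push_cast
      have := mul_le_mul_of_nonneg_left hle hu'
      nlinarith
    exact_mod_cast h6

/-- A cut level. -/
theorem exists_cut {ι : Type*} (I : Finset ι) (L W : ℕ) [NeZero L] (lam : ι → ZMod L) (h : 2 * W * I.card < L) :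
    ∃ κ : ZMod L, ∀ i ∈ I, W ≤ (lam i - κ).val ∧ (lam i - κ).val + W ≤ L := by
  classical
  by_contra hcon
  push Not at hcon
  -- the bad levels
  set Bd : Finset (ZMod L) := I.biUnion fun i => (Finset.range (2 * W)).image fun r =>
    lam i - (if r < W then (r : ZMod L) else ((L + W - r : ℕ) : ZMod L)) with hBd
  have h1 : (Finset.univ : Finset (ZMod L)) ⊆ Bd := by
    intro κ _
    obtain ⟨i, hi, h2⟩ := hcon κ
    rw [hBd, Finset.mem_biUnion]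
    refine ⟨i, hi, Finset.mem_image.2 ?_⟩
    have hv := ZMod.natCast_zmod_val (lam i - κ)
    have hlt := ZMod.val_lt (lam i - κ)
    rcases Nat.lt_or_ge (lam i - κ).val W with h3 | h3
    · refine ⟨(lam i - κ).val, Finset.mem_range.2 (by omega), ?_⟩
      rw [if_pos h3, hv, sub_sub_cancel]
    · have h4 := h2 h3
      refine ⟨L + W - (lam i - κ).val, Finset.mem_range.2 (by omega), ?_⟩
      rw [if_neg (by omega), show L + W - (L + W - (lam i - κ).val) = (lam i - κ).val by omega, hv, sub_sub_cancel]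
  have h2 := Finset.card_le_card h1
  rw [Finset.card_univ, ZMod.card] at h2
  have h3 : Bd.card ≤ I.card * (2 * W) := by
    rw [hBd]
    refine Finset.card_biUnion_le_card_mul _ _ _ fun i _ => ?_
    exact Finset.card_image_le.trans (by rw [Finset.card_range])
  rw [mul_comm] at h3
  omega

/-- Distance of the levels from the distance modulo `p`. -/
theorem val_dist {p L : ℕ} [NeZero L] (h : p ∣ L) {a b : ZMod L} {W : ℕ}
    (hW : ∀ y : ℤ, (y : ZMod p) = ZMod.castHom h (ZMod p) (a - b) → (W : ℤ) < |y|) : (W : ℤ) < |(a.val : ℤ) - b.val| := by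
  refine hW _ ?_
  have h1 : ((((a.val : ℤ) - b.val : ℤ)) : ZMod L) = a - b := by
    push_cast
    rw [ZMod.natCast_zmod_val, ZMod.natCast_zmod_val]
  rw [← h1, map_intCast]

end Pool.Agent.Lib.MP_688fd0_co.SQ7.H79
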