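import Pool.Agent.Lib.MP_688fd0_co.SQ7.H79.Blk

/-!
Existence of the data of a block trajectory: a list of labels whose value is central, whose prefixes meet all classes modulo
`N`, and one of whose prefixes has a value which generates `N`.
-/

set_option autoImplicit false

namespace Pool.Agent.Lib.MP_688fd0_co.SQ7.H79

open Finset Pool.Agent.Lib.MP_688fd0_co.SQ5.H12

variable {Q : Type*} [Group Q] {Λ : Type*}

/-- The periodic sequence of a list of labels. -/
def cyc (B : List Λ) (hB : B ≠ []) (t : ℕ) : Λ :=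
  B[t % B.length]'(Nat.mod_lt _ (List.length_pos_iff.2 hB))

theorem cyc_per (B : List Λ) (hB : B ≠ []) (t : ℕ) : cyc B hB (t + B.length) = cyc B hB t := by
  unfold cyc
  simp only [Nat.add_mod_right]

theorem cyc_mem (B : List Λ) (hB : B ≠ []) (t : ℕ) : cyc B hB t ∈ B := List.getElem_mem _

theorem pre_cyc (q : Λ → Q) (B : List Λ) (hB : B ≠ []) (i : ℕ) (hi : i ≤ B.length) :
    pre (fun t => q (cyc B hB t)) i = ((B.take i).map q).prod := by
  induction i with
  | zero => simp
  | succ i ih =>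
    have h : i < B.length := by omega
    have h2 : (B.map q).length = B.length := List.length_map _
    rw [pre_succ, ih (by omega), List.map_take, List.map_take, List.prod_take_succ _ _ (by rw [h2]; exact h)]
    congr 1
    rw [List.getElem_map]
    unfold cyc
    simp only [Nat.mod_eq_of_lt h]

theorem exists_blk [Finite Q] (q : Λ → Q) (T N N0 Nv : Subgroup Q) (hN : N.Normal) (hN0 : N0.Normal)
    (comm : ∀ x ∈ N, ∀ y ∈ N, x * y = y * x) (inf : ∀ x, x ∈ N0 ↔ x ∈ N ∧ x ∈ T) (le : Nv ≤ N0)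
    (B : List Λ) (hB : B ≠ []) (hT : ∀ a ∈ B, q a ∉ T) (lam : (B.map q).prod ∈ N)
    (cen : ∀ x : Q, x * (B.map q).prod = (B.map q).prod * x)
    (all : ∀ x : Q, ∃ i < B.length, (((B.take i).map q).prod)⁻¹ * x ∈ N)
    (R : ℕ) (hR : 2 ≤ R) (n₁ : ℕ) (hn₁ : n₁ ≤ B.length) (gen : Subgroup.zpowers ((B.take n₁).map q).prod = N)
    (hv : ∀ d : ℕ, (B.map q).prod ^ d ∈ N0 → (B.map q).prod ^ d ∈ Nv) :
    ∃ P : Blk q T N N0 Nv, P.n = B.length ∧ P.n₁ = n₁ ∧ P.R = R ∧ P.a = cyc B hB := by
  classical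
  have hp : ∀ i ≤ B.length, pre (fun t => q (cyc B hB t)) i = ((B.take i).map q).prod := pre_cyc q B hB
  have hpn : pre (fun t => q (cyc B hB t)) B.length = (B.map q).prod := by
    rw [hp _ le_rfl, List.take_length]
  set l := (B.map q).prod with hl
  set y := ((B.take n₁).map q).prod with hy
  have hyN : y ∈ N := by rw [← gen]; exact Subgroup.mem_zpowers y
  -- the order of `λ` modulo `N0`
  have ho : ∀ d : ℤ, l ^ d ∈ N0 ↔ ((orderOf (QuotientGroup.mk' N0 l) : ℕ) : ℤ) ∣ d := by
    intro d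
    rw [orderOf_dvd_iff_zpow_eq_one, ← map_zpow]
    exact (QuotientGroup.eq_one_iff _).symm
  -- the order of `y` modulo `λ` and `N0`
  have hZ : (Subgroup.zpowers l).Normal := ⟨fun x hx g => by
    obtain ⟨d, rfl⟩ := Subgroup.mem_zpowers_iff.1 hx
    have : Commute g (l ^ d) := (Commute.zpow_right (show Commute g l from cen g) d)
    rw [this.eq, mul_inv_cancel_right]
    exact Subgroup.zpow_mem_zpowers _ _⟩
  set K : Subgroup Q := N0 ⊔ Subgroup.zpowers l with hK
  have hKn : K.Normal := Subgroup.sup_normal _ _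
  have hKm : ∀ x : Q, x ∈ K ↔ ∃ d : ℤ, x * l ^ d ∈ N0 := by
    intro x
    constructor
    · intro hx
      obtain ⟨u, hu, v, hv, rfl⟩ := Subgroup.mem_sup_of_normal_right.1 hx
      obtain ⟨d, rfl⟩ := Subgroup.mem_zpowers_iff.1 hv
      exact ⟨-d, by rw [mul_assoc, ← zpow_add, add_neg_cancel, zpow_zero, mul_one]; exact hu⟩
    · rintro ⟨d, hd⟩
      have h1 : x * l ^ d ∈ K := Subgroup.mem_sup_left hd
      have h2 : l ^ d ∈ K := Subgroup.mem_sup_right (Subgroup.zpow_mem_zpowers _ _)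
      have := K.mul_mem h1 (K.inv_mem h2)
      rwa [mul_inv_cancel_right] at this
  have hq : ∀ c : ℤ, y ^ c ∈ K ↔ ((orderOf (QuotientGroup.mk' K y) : ℕ) : ℤ) ∣ c := by
    intro d
    rw [orderOf_dvd_iff_zpow_eq_one, ← map_zpow]
    exact (QuotientGroup.eq_one_iff _).symm
  refine ⟨{
    n := B.length
    n₁ := n₁
    R := R
    R_pos := hR
    m := orderOf (QuotientGroup.mk' N0 l)
    q₂ := orderOf (QuotientGroup.mk' K y)
    a := cyc B hB
    n_pos := List.length_pos_iff.2 hB
    m_pos := orderOf_pos _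
    q₂_pos := orderOf_pos _
    n₁_le := hn₁
    per := cyc_per B hB
    notT := fun t => hT _ (cyc_mem B hB t)
    nN := hN
    nN0 := hN0
    comm := comm
    inf := inf
    lam := by rw [hpn]; exact lam
    cen := fun x => by rw [hpn]; exact cen x
    yN := by rw [hp _ hn₁]; exact hyN
    all := fun x => by
      obtain ⟨i, hi, h⟩ := all x
      exact ⟨i, hi, by rw [hp _ hi.le]; exact h⟩
    le := le
    ordy := fun c d h => by
      rw [hp _ hn₁, hpn] at h
      exact (hq c).1 ((hKm _).2 ⟨d, h⟩)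
    ordl := fun d h => by
      rw [hpn] at h
      exact (ho d).1 h
    lamv := by
      rw [hpn]
      refine hv _ ?_
      have := (ho ((orderOf (QuotientGroup.mk' N0 l) : ℕ) : ℤ)).2 (dvd_refl _)
      rwa [zpow_natCast] at this
    yq := by
      rw [hp _ hn₁, hpn]
      have := (hKm _).1 ((hq ((orderOf (QuotientGroup.mk' K y) : ℕ) : ℤ)).2 (dvd_refl _))
      obtain ⟨d, hd⟩ := this
      rw [zpow_natCast] at hd
      exact ⟨d, hd⟩
    gen := fun x hx => by
      rw [hp _ hn₁]
      rw [← gen] at hx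
      obtain ⟨c, rfl⟩ := Subgroup.mem_zpowers_iff.1 hx
      refine ⟨c, 0, ?_⟩
      rw [zpow_zero, mul_one]
      have : (((B.take n₁).map q).prod ^ c)⁻¹ * ((B.take n₁).map q).prod ^ c = 1 := inv_mul_cancel _
      rw [this]
      exact N0.one_mem }, rfl, rfl, rfl, rfl⟩

end Pool.Agent.Lib.MP_688fd0_co.SQ7.H79
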