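import Pool.Agent.Lib.MP_688fd0_co.SQ7.H79.BlkA
import Pool.Agent.Lib.MP_688fd0_co.SQ7.H79.BlkX
import Pool.Agent.Lib.MP_688fd0_co.SQ7.H90.Bal
import Pool.Agent.Lib.MP_688fd0_co.SQ7.H41.Lam2
import Pool.Agent.Lib.MP_688fd0_co.SQ6.H93.Gen

/-!
SQ7, row TRAJ: the block trajectory from group data.

Letters: `D` outside of the tower group `⟨A₀, A₁⟩`, `A₀` (first colour), `A₁` (second colour). Elementary labels
(`Lb D A₀ A₁`): plain `d b⁻¹` (active or passive), twisted `d b⁻¹ (c b'⁻¹)` (passive). The walk is made of composite labels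
`P`, `P (passive plain) P`, `P (twisted) P`, so the passive labels are isolated; it is balanced in the composite labels.
-/

set_option autoImplicit false

namespace Pool.Agent.Lib.MP_688fd0_co.SQ7.H79

open Pool.Agent.Lib.MP_688fd0_co.OSF Pool.Agent.Lib.MP_688fd0_co.SQ2 Pool.Agent.Lib.MP_688fd0_co.SQ2.H41
open Pool.Agent.Lib.MP_688fd0_co.SQ7.H90 Pool.Agent.Lib.MP_688fd0_co.SQ7.H41 Pool.Agent.Lib.MP_688fd0_co.SQ5.H12

/-! ### Lists -/

theorem split_flat {α β : Type*} (e : α → List β) (L : List α) : ∀ i < (L.flatMap e).length,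
    ∃ u s v o, L = u ++ s :: v ∧ o < (e s).length ∧ i = (u.flatMap e).length + o := by
  induction L with
  | nil => intro i hi; simp at hi
  | cons a L ih =>
    intro i hi
    rcases Nat.lt_or_ge i (e a).length with h | h
    · exact ⟨[], a, L, i, rfl, h, by simp⟩
    · rw [List.flatMap_cons, List.length_append] at hi
      obtain ⟨u, s, v, o, h1, h2, h3⟩ := ih (i - (e a).length) (by omega)
      refine ⟨a :: u, s, v, o, by rw [h1]; rfl, h2, ?_⟩
      rw [List.flatMap_cons, List.length_append]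
      omega

theorem flat_get {α β : Type*} (e : α → List β) (u v : List α) (s : α) (w : List β) (o : ℕ) (ho : o < (e s).length) :
    ((u ++ s :: v).flatMap e ++ w)[(u.flatMap e).length + o]? = some (e s)[o] := by
  rw [List.flatMap_append, List.flatMap_cons, List.append_assoc, List.append_assoc,
    List.getElem?_append_right (by omega), Nat.add_sub_cancel_left, List.getElem?_append_left ho,
    List.getElem?_eq_getElem ho]

theorem flat_take {α β : Type*} (e : α → List β) (u v : List α) (s : α) (o : ℕ) (ho : o ≤ (e s).length) :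
    ((u ++ s :: v).flatMap e).take ((u.flatMap e).length + o) = u.flatMap e ++ (e s).take o := by
  rw [List.flatMap_append, List.flatMap_cons, List.take_length_add_append, List.take_append_of_le_length ho]

theorem prod_flatMap {α β H : Type*} [Group H] (e : α → List β) (q : β → H) (L : List α) :
    ((L.flatMap e).map q).prod = (L.map fun s => ((e s).map q).prod).prod := by
  induction L with
  | nil => rfl
  | cons a L ih => rw [List.flatMap_cons, List.map_append, List.prod_append, ih, List.map_cons, List.prod_cons]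

theorem len_flatMap {α β : Type*} (e : α → List β) (c : ℕ) (h : ∀ s, (e s).length ≤ c) (L : List α) :
    (L.flatMap e).length ≤ c * L.length := by
  induction L with
  | nil => simp
  | cons a L ih =>
    rw [List.flatMap_cons, List.length_append, List.length_cons]
    have := h a
    have e1 : c * (L.length + 1) = c * L.length + c := by ring
    omega

/-! ### Labels -/

variable {G : Type}

/-- Elementary labels: plain (with the flag `active`) and twisted. -/
abbrev Lb (D A₀ A₁ : Set G) : Type := (D × A₁ × Bool) ⊕ (D × A₁ × A₀ × A₁)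

/-- The word of an elementary label. -/
def wd [Group G] {D A₀ A₁ : Set G} : Lb D A₀ A₁ → List G
  | Sum.inl (d, b, _) => [(d : G), (b : G)⁻¹]
  | Sum.inr (d, b, c, b') => [(d : G), (b : G)⁻¹, (c : G), (b' : G)⁻¹]

/-- Active labels. -/
def act {D A₀ A₁ : Set G} : Lb D A₀ A₁ → Prop
  | Sum.inl (_, _, f) => f = true
  | Sum.inr _ => False

/-- Composite labels. -/
abbrev Cl (D A₀ A₁ : Set G) : Type := (D × A₁) ⊕ ((D × A₁) × ((D × A₁) ⊕ (D × A₁ × A₀ × A₁)) × (D × A₁))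

/-- The middle of a composite label. -/
def mid {D A₀ A₁ : Set G} : (D × A₁) ⊕ (D × A₁ × A₀ × A₁) → Lb D A₀ A₁
  | Sum.inl (d, b) => Sum.inl (d, b, false)
  | Sum.inr s => Sum.inr s

/-- The elementary labels of a composite label. -/
def ex {D A₀ A₁ : Set G} : Cl D A₀ A₁ → List (Lb D A₀ A₁)
  | Sum.inl (d, b) => [Sum.inl (d, b, true)]
  | Sum.inr ((d, b), m, (d', b')) => [Sum.inl (d, b, true), mid m, Sum.inl (d', b', true)]

theorem ex_len {D A₀ A₁ : Set G} (s : Cl D A₀ A₁) : (ex s).length ≤ 3 := by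
  rcases s with s | s
  · exact (by simp [ex])
  · exact (by simp [ex])

theorem ex_pos {D A₀ A₁ : Set G} (s : Cl D A₀ A₁) : 0 < (ex s).length := by
  rcases s with s | s
  · exact (by simp [ex])
  · exact (by simp [ex])

theorem mid_act {D A₀ A₁ : Set G} (m : (D × A₁) ⊕ (D × A₁ × A₀ × A₁)) : ¬ act (mid m) := by
  rcases m with ⟨d, b⟩ | m
  · exact Bool.false_ne_true
  · exact not_false

/-- A passive label is the middle of a composite label. -/
theorem ex_act {D A₀ A₁ : Set G} (s : Cl D A₀ A₁) (o : ℕ) (ho : o < (ex s).length) (h : ¬ act (ex s)[o]) :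
    o = 1 ∧ ∃ h0 : 0 < (ex s).length, ∃ h2 : 2 < (ex s).length, act (ex s)[0] ∧ act (ex s)[2] := by
  rcases s with ⟨d, b⟩ | ⟨⟨d, b⟩, m, ⟨d', b'⟩⟩
  · have ho' : o < 1 := ho
    obtain rfl : o = 0 := by omega
    exact absurd rfl h
  · have ho' : o < 3 := ho
    obtain rfl | rfl | rfl : o = 0 ∨ o = 1 ∨ o = 2 := by omega
    · exact absurd rfl h
    · exact ⟨rfl, (by norm_num : 0 < 3), (by norm_num : 2 < 3), rfl, rfl⟩
    · exact absurd rfl h

variable [Group G]

/-- Inversion of all letters. -/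
def invS {D : Set G} (h : ∀ x ∈ D, x⁻¹ ∈ D) : Equiv.Perm D where
  toFun x := ⟨(x : G)⁻¹, h _ x.2⟩
  invFun x := ⟨(x : G)⁻¹, h _ x.2⟩
  left_inv _ := Subtype.ext (inv_inv _)
  right_inv _ := Subtype.ext (inv_inv _)

/-- The word of a composite label. -/
def wc {D A₀ A₁ : Set G} (s : Cl D A₀ A₁) : List G := (ex s).flatMap wd

/-- Inversion of all letters of a composite label. -/
def invC {D A₀ A₁ : Set G} (hD : ∀ x ∈ D, x⁻¹ ∈ D) (h0 : ∀ x ∈ A₀, x⁻¹ ∈ A₀) (h1 : ∀ x ∈ A₁, x⁻¹ ∈ A₁) :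
    Equiv.Perm (Cl D A₀ A₁) :=
  Equiv.sumCongr (Equiv.prodCongr (invS hD) (invS h1))
    (Equiv.prodCongr (Equiv.prodCongr (invS hD) (invS h1))
      (Equiv.prodCongr (Equiv.sumCongr (Equiv.prodCongr (invS hD) (invS h1))
        (Equiv.prodCongr (invS hD) (Equiv.prodCongr (invS h1) (Equiv.prodCongr (invS h0) (invS h1)))))
        (Equiv.prodCongr (invS hD) (invS h1))))

theorem wc_inv {D A₀ A₁ : Set G} (hD : ∀ x ∈ D, x⁻¹ ∈ D) (h0 : ∀ x ∈ A₀, x⁻¹ ∈ A₀) (h1 : ∀ x ∈ A₁, x⁻¹ ∈ A₁)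
    (s : Cl D A₀ A₁) : wc (invC hD h0 h1 s) = (wc s).map (·⁻¹) := by
  rcases s with ⟨d, b⟩ | ⟨⟨d, b⟩, ⟨d₂, b₂⟩ | ⟨d₂, b₂, c, b'⟩, ⟨d', b'⟩⟩ <;>
  · simp [wc, invC, invS, ex, wd, mid]

/-! ### The group `ker eps` -/

theorem ker_le {eps : G →* ℤˣ} {B : Set G} (hs : ∀ x ∈ B, x⁻¹ ∈ B) (hn : ∀ x ∈ B, eps x = -1)
    (hB : Subgroup.closure B = ⊤) (S : Subgroup G) (h : ∀ x ∈ B, ∀ y ∈ B, x * y⁻¹ ∈ S) :
    eps.ker ≤ S := by
  have key : ∀ g : G, (eps g = 1 → g ∈ S) ∧ (eps g = -1 → ∀ y ∈ B, g * y⁻¹ ∈ S) := by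
    intro g
    have hg : g ∈ Subgroup.closure B := by rw [hB]; trivial
    have step : ∀ g : G, ((eps g = 1 → g ∈ S) ∧ (eps g = -1 → ∀ y ∈ B, g * y⁻¹ ∈ S)) → ∀ x ∈ B,
        (eps (g * x) = 1 → g * x ∈ S) ∧ (eps (g * x) = -1 → ∀ y ∈ B, g * x * y⁻¹ ∈ S) := by
      intro g ih x hx
      constructor
      · intro h1
        rw [map_mul, hn x hx] at h1
        have h2 : eps g = -1 := by
          rcases Int.units_eq_one_or (eps g) with h3 | h3
          · rw [h3] at h1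
            exact absurd h1 (by decide)
          · exact h3
        have := ih.2 h2 x⁻¹ (hs x hx)
        rwa [inv_inv] at this
      · intro h1 y hy
        rw [map_mul, hn x hx] at h1
        have h2 : eps g = 1 := by
          rcases Int.units_eq_one_or (eps g) with h3 | h3
          · exact h3
          · rw [h3] at h1
            exact absurd h1 (by decide)
        rw [mul_assoc]
        exact S.mul_mem (ih.1 h2) (h x hx y hy)
    induction hg using Subgroup.closure_induction_right with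
    | one => exact ⟨fun _ => S.one_mem, fun h1 => absurd (h1.symm.trans (map_one eps)) (by decide)⟩
    | mul_right x hx y hy ih => exact step x ih y hy
    | mul_inv_cancel x hx y hy ih => exact step x ih y⁻¹ (hs y hy)
  exact fun g hg => (key g).1 hg

section main

variable {eps : G →* ℤˣ} {D A₀ A₁ : Set G}

theorem eps_wd (hn : ∀ x ∈ D ∪ A₀ ∪ A₁, eps x = -1) (s : Lb D A₀ A₁) : (wd s).prod ∈ eps.ker := by
  have hd : ∀ d : D, eps d = -1 := fun d => hn _ (Or.inl (Or.inl d.2))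
  have hc : ∀ d : A₀, eps d = -1 := fun d => hn _ (Or.inl (Or.inr d.2))
  have hb : ∀ d : A₁, eps d = -1 := fun d => hn _ (Or.inr d.2)
  rw [MonoidHom.mem_ker]
  rcases s with ⟨d, b, f⟩ | ⟨d, b, c, b'⟩
  · simp [wd, hd, hb]
  · simp [wd, hd, hb, hc]

/-- The value of an elementary label, in `ker eps`. -/
def vl (hn : ∀ x ∈ D ∪ A₀ ∪ A₁, eps x = -1) (s : Lb D A₀ A₁) : eps.ker := ⟨(wd s).prod, eps_wd hn s⟩

/-- The value of a composite label. -/
def vc (hn : ∀ x ∈ D ∪ A₀ ∪ A₁, eps x = -1) (s : Cl D A₀ A₁) : eps.ker := ((ex s).map (vl hn)).prod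

theorem coe_prod (hn : ∀ x ∈ D ∪ A₀ ∪ A₁, eps x = -1) (l : List (Lb D A₀ A₁)) :
    (((l.map (vl hn)).prod : eps.ker) : G) = (l.flatMap wd).prod := by
  induction l with
  | nil => rfl
  | cons a l ih => rw [List.map_cons, List.prod_cons, Subgroup.coe_mul, ih, List.flatMap_cons, List.prod_append]; rfl

theorem coe_vc (hn : ∀ x ∈ D ∪ A₀ ∪ A₁, eps x = -1) (s : Cl D A₀ A₁) : ((vc hn s : eps.ker) : G) = (wc s).prod :=
  coe_prod hn _

theorem coe_vc_prod (hn : ∀ x ∈ D ∪ A₀ ∪ A₁, eps x = -1) (l : List (Cl D A₀ A₁)) :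
    (((l.map (vc hn)).prod : eps.ker) : G) = (l.map fun s => (wc s).prod).prod := by
  induction l with
  | nil => rfl
  | cons a l ih => rw [List.map_cons, List.prod_cons, Subgroup.coe_mul, ih, coe_vc]; rfl

/-- The composite labels generate `ker eps`. -/
theorem vc_gen (hn : ∀ x ∈ D ∪ A₀ ∪ A₁, eps x = -1) (hD : ∀ x ∈ D, x⁻¹ ∈ D) (h0 : ∀ x ∈ A₀, x⁻¹ ∈ A₀)
    (h1 : ∀ x ∈ A₁, x⁻¹ ∈ A₁) (hB : Subgroup.closure (D ∪ A₀ ∪ A₁) = ⊤) (nD : D.Nonempty) (n0 : A₀.Nonempty)
    (n1 : A₁.Nonempty) : Subgroup.closure (Set.range (vc (A₀ := A₀) hn)) = ⊤ := by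
  set S := (Subgroup.closure (Set.range (vc (A₀ := A₀) hn))).map eps.ker.subtype with hS
  have hmem : ∀ s : Cl D A₀ A₁, (wc s).prod ∈ S := fun s =>
    Subgroup.mem_map.2 ⟨vc hn s, Subgroup.subset_closure ⟨s, rfl⟩, coe_vc hn s⟩
  have e1 : ∀ d ∈ D, ∀ b ∈ A₁, d * b⁻¹ ∈ S := by
    intro d hd b hb
    have := hmem (Sum.inl (⟨d, hd⟩, ⟨b, hb⟩))
    simpa [wc, ex, wd] using this
  obtain ⟨d₀, hd₀⟩ := nD
  obtain ⟨b₀, hb₀⟩ := n1
  have e2 : ∀ c ∈ A₀, ∀ b ∈ A₁, c * b⁻¹ ∈ S := by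
    intro c hc b hb
    have h2 := hmem (Sum.inr ((⟨d₀, hd₀⟩, ⟨b₀, hb₀⟩), Sum.inr (⟨d₀, hd₀⟩, ⟨b₀, hb₀⟩, ⟨c, hc⟩, ⟨b, hb⟩),
      (⟨d₀, hd₀⟩, ⟨b₀, hb₀⟩)))
    have h3 : (wc (Sum.inr ((⟨d₀, hd₀⟩, ⟨b₀, hb₀⟩), Sum.inr (⟨d₀, hd₀⟩, ⟨b₀, hb₀⟩, ⟨c, hc⟩, ⟨b, hb⟩),
      (⟨d₀, hd₀⟩, ⟨b₀, hb₀⟩)) : Cl D A₀ A₁)).prod = (d₀ * b₀⁻¹) * ((d₀ * b₀⁻¹) * (c * b⁻¹)) * (d₀ * b₀⁻¹) := by
      simp [wc, ex, wd, mid, mul_assoc]
    rw [h3] at h2
    have h4 := e1 d₀ hd₀ b₀ hb₀
    have h5 := S.mul_mem (S.inv_mem h4) (S.mul_mem (S.inv_mem h4) (S.mul_mem h2 (S.inv_mem h4)))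
    have h6 : (d₀ * b₀⁻¹)⁻¹ * ((d₀ * b₀⁻¹)⁻¹ * ((d₀ * b₀⁻¹) * ((d₀ * b₀⁻¹) * (c * b⁻¹)) * (d₀ * b₀⁻¹) *
        (d₀ * b₀⁻¹)⁻¹)) = c * b⁻¹ := by group
    rwa [h6] at h5
  have e3 : ∀ x ∈ D ∪ A₀, ∀ b ∈ A₁, x * b⁻¹ ∈ S := by
    rintro x (hx | hx) b hb
    · exact e1 x hx b hb
    · exact e2 x hx b hb
  obtain ⟨c₀, hc₀⟩ := n0
  have key : ∀ x ∈ D ∪ A₀ ∪ A₁, ∀ y ∈ D ∪ A₀ ∪ A₁, x * y⁻¹ ∈ S := by
    rintro x (hx | hx) y (hy | hy)
    · have := S.mul_mem (e3 x hx b₀ hb₀) (S.inv_mem (e3 y hy b₀ hb₀))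
      have e : x * b₀⁻¹ * (y * b₀⁻¹)⁻¹ = x * y⁻¹ := by group
      rwa [e] at this
    · exact e3 x hx y hy
    · have := S.inv_mem (e3 y hy x hx)
      have e : (y * x⁻¹)⁻¹ = x * y⁻¹ := by group
      rwa [e] at this
    · have := S.mul_mem (S.inv_mem (e2 c₀ hc₀ x hx)) (e2 c₀ hc₀ y hy)
      have e : (c₀ * x⁻¹)⁻¹ * (c₀ * y⁻¹) = x * y⁻¹ := by group
      rwa [e] at this
  have hle := ker_le (fun x hx => by
    rcases hx with (hx | hx) | hx
    · exact Or.inl (Or.inl (hD x hx))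
    · exact Or.inl (Or.inr (h0 x hx))
    · exact Or.inr (h1 x hx)) hn hB S key
  refine top_le_iff.1 fun x _ => ?_
  obtain ⟨y, hy, hyx⟩ := Subgroup.mem_map.1 (hle x.2)
  have : y = x := Subtype.ext hyx
  rwa [← this]

/-- Where the elementary labels of a walk are. -/
theorem flat_edge (hn : ∀ x ∈ D ∪ A₀ ∪ A₁, eps x = -1) {N' : Subgroup eps.ker} (hN' : N'.Normal) {M : ℕ} (hM : 0 < M)
    {Bc : List (Cl D A₀ A₁)} (hb : Bal N' (vc hn) M Bc) (σ : Cl D A₀ A₁) (o : ℕ) (ho : o < (ex σ).length) (x : eps.ker) :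
    ∃ i, ∃ hi : i < (Bc.flatMap ex).length, (Bc.flatMap ex)[i] = (ex σ)[o] ∧
      (((Bc.flatMap ex).take (i + 1)).map (vl hn)).prod⁻¹ * x ∈ N' ∧
      (o = 0 → i = 0 ∨ ∃ hi' : i - 1 < (Bc.flatMap ex).length, act (Bc.flatMap ex)[i - 1]) := by
  set w : eps.ker := (((ex σ).take (o + 1)).map (vl hn)).prod with hw
  obtain ⟨I, hI, hIs, hIx⟩ := hb.edge hM (x * w⁻¹) σ
  have hsp : Bc = Bc.take I ++ σ :: Bc.drop (I + 1) := by
    rw [← hIs, List.getElem_cons_drop, List.take_append_drop]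
  have hlen : ((Bc.take I).flatMap ex).length + o < (Bc.flatMap ex).length := by
    conv_rhs => rw [hsp]
    rw [List.flatMap_append, List.flatMap_cons, List.length_append, List.length_append]
    omega
  refine ⟨((Bc.take I).flatMap ex).length + o, hlen, ?_, ?_, ?_⟩
  · have h1 := flat_get ex (Bc.take I) (Bc.drop (I + 1)) σ [] o ho
    rw [List.append_nil, ← hsp, List.getElem?_eq_getElem hlen] at h1
    exact Option.some.inj h1
  · have h2 : (Bc.flatMap ex).take (((Bc.take I).flatMap ex).length + o + 1) =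
        (Bc.take I).flatMap ex ++ (ex σ).take (o + 1) := by
      have h5 := flat_take ex (Bc.take I) (Bc.drop (I + 1)) σ (o + 1) ho
      rw [← hsp] at h5
      rw [add_assoc]
      exact h5
    rw [h2, List.map_append, List.prod_append, ← hw, prod_flatMap]
    set A : eps.ker := ((Bc.take I).map fun s => ((ex s).map (vl hn)).prod).prod with hA
    have h3 : (x * w⁻¹)⁻¹ * A ∈ N' := hIx
    have h4 := hN'.conj_mem _ (N'.inv_mem h3) w⁻¹
    have e : w⁻¹ * ((x * w⁻¹)⁻¹ * A)⁻¹ * w⁻¹⁻¹ = (A * w)⁻¹ * x := by group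
    rwa [e] at h4
  · rintro rfl
    rw [add_zero]
    rcases Nat.eq_zero_or_pos ((Bc.take I).flatMap ex).length with h0 | h0
    · exact Or.inl h0
    · refine Or.inr ⟨by omega, ?_⟩
      obtain ⟨u, s, v, o', hu, ho', h6⟩ := split_flat ex (Bc.take I) (((Bc.take I).flatMap ex).length - 1) (by omega)
      have h7 : (ex s).length ≤ o' + 1 := by
        have h8 := congrArg (fun l => (l.flatMap ex).length) hu
        simp only [List.flatMap_append, List.flatMap_cons, List.length_append] at h8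
        omega
      have h9 : (Bc.flatMap ex)[((Bc.take I).flatMap ex).length - 1]? = some (ex s)[o'] := by
        have h10 : Bc.flatMap ex = (u ++ s :: v).flatMap ex ++ (σ :: Bc.drop (I + 1)).flatMap ex := by
          rw [← hu, ← List.flatMap_append, ← hsp]
        rw [h6, h10]
        exact flat_get ex u v s _ o' ho'
      rw [List.getElem?_eq_getElem (by omega)] at h9
      have h11 := Option.some.inj h9
      by_contra hcon
      rw [h11] at hcon
      obtain ⟨h12, -, h13, -⟩ := ex_act s o' ho' hcon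
      omega

omit [Group G] in
theorem flat_iso {Bc : List (Cl D A₀ A₁)} {w : List (Lb D A₀ A₁)} {B : List (Lb D A₀ A₁)} (hB : B = Bc.flatMap ex ++ w)
    (i : ℕ) (hi : i < (Bc.flatMap ex).length) (hiB : i < B.length) (hp : ¬ act B[i]) :
    0 < i ∧ i + 1 < (Bc.flatMap ex).length ∧ ∃ h1 : i - 1 < B.length, ∃ h2 : i + 1 < B.length,
      act B[i - 1] ∧ act B[i + 1] := by
  obtain ⟨u, s, v, o, hu, ho, rfl⟩ := split_flat ex Bc i hi
  have hg : ∀ o' < (ex s).length, B[(u.flatMap ex).length + o']? = (ex s)[o']? := by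
    intro o' ho'
    rw [hB, hu, flat_get ex u v s w o' ho', List.getElem?_eq_getElem ho']
  have hlen : (u.flatMap ex).length + (ex s).length ≤ (Bc.flatMap ex).length := by
    rw [hu, List.flatMap_append, List.flatMap_cons, List.length_append, List.length_append]
    omega
  have hlB : (Bc.flatMap ex).length ≤ B.length := by
    rw [hB, List.length_append]
    omega
  have h1 : ¬ act (ex s)[o] := by
    have h2 := hg o ho
    rw [List.getElem?_eq_getElem hiB, List.getElem?_eq_getElem ho] at h2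
    rwa [← Option.some.inj h2]
  obtain ⟨rfl, h3, h4, h5, h6⟩ := ex_act s o ho h1
  have g0 := hg 0 h3
  have g2 := hg 2 h4
  refine ⟨by omega, by omega, by omega, by omega, ?_, ?_⟩
  · rw [List.getElem?_eq_getElem (by omega), List.getElem?_eq_getElem h3] at g0
    have := Option.some.inj g0
    rw [← this] at h5
    exact h5
  · rw [List.getElem?_eq_getElem (by omega), List.getElem?_eq_getElem h4] at g2
    have := Option.some.inj g2
    rw [← this] at h6
    exact h6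

omit [Group G] in
theorem flat_far (Bc : List (Cl D A₀ A₁)) (i : ℕ) (hi : i + 2 < (Bc.flatMap ex).length) (hp : ¬ act (Bc.flatMap ex)[i]) :
    act (Bc.flatMap ex)[i + 2] := by
  obtain ⟨u, s, v, o, hu, ho, rfl⟩ := split_flat ex Bc i (by omega)
  have h1 : (Bc.flatMap ex)[(u.flatMap ex).length + o]? = some (ex s)[o] := by
    have := flat_get ex u v s [] o ho
    rwa [List.append_nil, ← hu] at this
  rw [List.getElem?_eq_getElem (by omega)] at h1
  rw [Option.some.inj h1] at hp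
  obtain ⟨rfl, -, h4, -⟩ := ex_act s o ho hp
  have h5 : (ex s).length = 3 := by have := ex_len s; omega
  have hlen : (Bc.flatMap ex).length = (u.flatMap ex).length + (3 + (v.flatMap ex).length) := by
    rw [hu, List.flatMap_append, List.flatMap_cons, List.length_append, List.length_append, h5]
  obtain ⟨s', v', rfl⟩ : ∃ s' v', v = s' :: v' := by
    refine List.exists_cons_of_ne_nil ?_
    rintro rfl
    rw [hlen] at hi
    simp at hi
  have h6 : (Bc.flatMap ex)[((u ++ [s]).flatMap ex).length + 0]? = some ((ex s')[0]'(ex_pos s')) := by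
    have := flat_get ex (u ++ [s]) v' s' [] 0 (ex_pos s')
    rwa [List.append_nil, List.append_assoc, List.singleton_append, ← hu] at this
  have h7 : ((u ++ [s]).flatMap ex).length + 0 = (u.flatMap ex).length + 1 + 2 := by
    rw [List.flatMap_append, List.length_append, List.flatMap_singleton, h5]
  rw [h7, List.getElem?_eq_getElem (by omega)] at h6
  rw [Option.some.inj h6]
  by_contra h8
  have := (ex_act s' 0 (ex_pos s') h8).1
  omega

/-- **TRAJ**: the block trajectory from group data. -/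
theorem exists_tra [Finite G] {N C : Subgroup G} {k P : ℕ} (h : GNE N C eps k P)
    (hp : ∀ p ∈ (Nat.card N).primeFactors, (Nat.card N).primeFactors.card + 1 < p)
    (hn : ∀ x ∈ D ∪ A₀ ∪ A₁, eps x = -1) (hD : ∀ x ∈ D, x⁻¹ ∈ D) (h0 : ∀ x ∈ A₀, x⁻¹ ∈ A₀)
    (h1 : ∀ x ∈ A₁, x⁻¹ ∈ A₁) (hB : Subgroup.closure (D ∪ A₀ ∪ A₁) = ⊤) (nD : D.Nonempty) (n0 : A₀.Nonempty)
    (n1 : A₁.Nonempty) (G₀ : Subgroup G) (hDG : ∀ d ∈ D, d ∉ G₀) (hA0 : A₀ ⊆ G₀) (hA1 : A₁ ⊆ G₀)
    (Nv : Subgroup G) (hv1 : Nv ≤ N ⊓ G₀) (hv2 : ∀ x ∈ N ⊓ G₀, (orderOf x).Coprime (Nat.card C) → x ∈ Nv)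
    (R : ℕ) (hR : 2 ≤ R) :
    ∃ T : Blk (vl (A₀ := A₀) hn) (G₀.subgroupOf eps.ker) (N.subgroupOf eps.ker) ((N ⊓ G₀).subgroupOf eps.ker)
        (Nv.subgroupOf eps.ker),
      T.R = R ∧ T.Iso act ∧
      T.n ≤ 3 * ((((Nat.card N).primeFactors.card + 2) ^ 2 * (3 * k + 3) + 1) * (k * Nat.card (Cl D A₀ A₁))) ∧
      ∀ (s : Lb D A₀ A₁) (x : eps.ker), ∃ i < T.n, T.a i = s ∧ (T.p (i + 1))⁻¹ * x ∈ N.subgroupOf eps.ker ∧
        (act s → i = 0 ∨ act (T.a (i - 1))) := by
  classical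
  have hNn := h.Nn
  have hle : N ≤ eps.ker := fun x hx => h.eN x hx
  set N' : Subgroup eps.ker := N.subgroupOf eps.ker with hN'
  have hN'n : N'.Normal := inferInstance
  have hmem : ∀ x : eps.ker, x ∈ N' ↔ (x : G) ∈ N := fun x => Subgroup.mem_subgroupOf
  have hcard : Nat.card N' = Nat.card N := Nat.card_congr (Subgroup.subgroupOfEquivOfLe hle).toEquiv
  have hNc := h.Nc
  have hcyc : IsCyclic N' :=
    isCyclic_of_surjective (Subgroup.subgroupOfEquivOfLe hle).symm.toMonoidHom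
      (Subgroup.subgroupOfEquivOfLe hle).symm.surjective
  have hcomm : ∀ x ∈ N', ∀ y ∈ N', x * y = y * x := fun x hx y hy =>
    Subtype.ext (comm_of_cyclic N h.Nc x ((hmem x).1 hx) y ((hmem y).1 hy))
  have hidx : N'.index ≤ k := by
    rw [← h.idx]
    exact Nat.le_of_dvd (Nat.pos_of_ne_zero N.index_ne_zero_of_finite)
      (Dvd.intro _ (Subgroup.relIndex_mul_index hle))
  -- the word of a generator
  obtain ⟨l₀, hl1, hl2, hl3⟩ := SQ6.gen eps.ker (Set.range (vc (A₀ := A₀) hn)) N' 1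
    (vc_gen hn hD h0 h1 hB nD n0 n1) hN'n hcyc (by rw [hcard]; exact h.Nsq) (by rw [hcard]; exact hp)
  rw [mul_one] at hl3
  rw [hcard] at hl2
  obtain ⟨l, rfl⟩ : ∃ l : List (Cl D A₀ A₁), l.map (vc hn) = l₀ := by
    have : ∀ l₀ : List eps.ker, (∀ v ∈ l₀, v ∈ Set.range (vc (A₀ := A₀) hn)) →
        ∃ l : List (Cl D A₀ A₁), l.map (vc hn) = l₀ := by
      intro l₀
      induction l₀ with
      | nil => exact fun _ => ⟨[], rfl⟩
      | cons a l₀ ih =>
        intro hl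
        obtain ⟨l, hl'⟩ := ih fun v hv => hl v (List.mem_cons_of_mem _ hv)
        obtain ⟨b, hb⟩ := hl a List.mem_cons_self
        exact ⟨b :: l, by rw [List.map_cons, hb, hl']⟩
    exact this l₀ hl1
  have hlne : l ≠ [] := by
    rintro rfl
    rw [List.map_nil, List.prod_nil, Subgroup.zpowers_one_eq_bot] at hl3
    have h2 : Nat.card N' = 1 := by rw [← hl3]; exact Subgroup.card_bot
    rw [hcard] at h2
    have h3 := h.dvd
    rw [h2] at h3
    exact h.prime.one_lt.ne' (Nat.dvd_one.1 h3)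
  rw [List.length_map] at hl2
  -- the balanced walk
  have : Nonempty (Cl D A₀ A₁) := by
    obtain ⟨d, hd⟩ := nD
    obtain ⟨b, hb⟩ := n1
    exact ⟨Sum.inl (⟨d, hd⟩, ⟨b, hb⟩)⟩
  obtain ⟨l', hbal⟩ := exists_bal N' hN'n (vc (A₀ := A₀) hn) (vc_gen hn hD h0 h1 hB nD n0 n1) (l.length + 1) l
    (Nat.lt_succ_self _)
  set Bc := l ++ l' with hBc
  set B := Bc.flatMap ex with hBdef
  have hval : (B.map (vl hn)).prod = (Bc.map (vc hn)).prod := prod_flatMap ex (vl hn) Bc
  obtain ⟨lam, hlam1, hlam2, hlam3⟩ := exists_lam N' hN'n (vc (A₀ := A₀) hn) (vc_gen hn hD h0 h1 hB nD n0 n1) hcomm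
  have hlB : (Bc.map (vc hn)).prod = lam ^ (l.length + 1) := hlam3 _ _ hbal
  have hcen : ∀ x : eps.ker, x * (B.map (vl hn)).prod = (B.map (vl hn)).prod * x := by
    intro x
    rw [hval, hlB]
    exact ((show Commute x lam from hlam2 x).pow_right _)
  have hmemB : (B.map (vl hn)).prod ∈ N' := by rw [hval]; exact hbal.one
  have hlB0 : l.flatMap ex <+: B := by
    rw [hBdef, hBc, List.flatMap_append]
    exact List.prefix_append _ _
  have hn1pos : 0 < (l.flatMap ex).length := by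
    obtain ⟨a, l2, rfl⟩ := List.exists_cons_of_ne_nil hlne
    rw [List.flatMap_cons, List.length_append]
    have := ex_pos a
    omega
  have hBne : B ≠ [] := by
    intro h2
    have := hlB0.length_le
    rw [h2, List.length_nil] at this
    omega
  have htake : B.take (l.flatMap ex).length = l.flatMap ex := by
    rw [hBdef, hBc, List.flatMap_append, List.take_left']
    rfl
  -- the order of the value
  have hord : (orderOf ((B.map (vl hn)).prod : eps.ker)).Coprime (Nat.card C) := by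
    have := Fintype.ofFinite (Cl D A₀ A₁)
    have h2 := lam_comp' h (wc (D := D) (A₀ := A₀) (A₁ := A₁)) (invC hD h0 h1)
      (fun s => by rw [wc_inv hD h0 h1 s]) Bc ((l.length + 1) * N'.index) (fun s => hbal.count hN'n s)
      (by
        rw [← coe_vc_prod hn, ← hmem]
        exact hbal.one)
      (fun x hx => by
        rw [← coe_vc_prod hn, ← hval]
        exact congrArg (fun y : eps.ker => (y : G)) (hcen ⟨x, hx⟩))
    rwa [← coe_vc_prod hn, ← hval, Subgroup.orderOf_coe] at h2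
  have hT : ∀ a ∈ B, vl hn a ∉ G₀.subgroupOf eps.ker := by
    intro a _ ha
    rw [Subgroup.mem_subgroupOf] at ha
    rcases a with ⟨d, b, f⟩ | ⟨d, b, c, b'⟩
    · have h2 : (d : G) * (b : G)⁻¹ ∈ G₀ := by
        have : ((vl (A₀ := A₀) hn (Sum.inl (d, b, f)) : eps.ker) : G) = (d : G) * (b : G)⁻¹ := by simp [vl, wd]
        rwa [this] at ha
      have h3 := G₀.mul_mem h2 (hA1 b.2)
      rw [inv_mul_cancel_right] at h3
      exact hDG _ d.2 h3
    · have h2 : (d : G) * (b : G)⁻¹ * ((c : G) * (b' : G)⁻¹) ∈ G₀ := by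
        have : ((vl (A₀ := A₀) hn (Sum.inr (d, b, c, b')) : eps.ker) : G) =
            (d : G) * (b : G)⁻¹ * ((c : G) * (b' : G)⁻¹) := by simp [vl, wd, mul_assoc]
        rwa [this] at ha
      have h3 := G₀.mul_mem h2 (G₀.inv_mem (G₀.mul_mem (hA0 c.2) (G₀.inv_mem (hA1 b'.2))))
      rw [mul_inv_cancel_right] at h3
      have h4 := G₀.mul_mem h3 (hA1 b.2)
      rw [inv_mul_cancel_right] at h4
      exact hDG _ d.2 h4
  have hN0n : ((N ⊓ G₀).subgroupOf eps.ker).Normal := by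
    have h2 : (N ⊓ G₀).Normal := by
      refine ⟨fun x hx g => ?_⟩
      have hx1 : x ∈ N := hx.1
      have h3 : g * x * g⁻¹ ∈ Subgroup.zpowers x := by
        refine mem_zpowers_of_pow N h.Nc hx1 (hNn.conj_mem x hx1 g) ?_
        rw [conj_pow, pow_orderOf_eq_one, mul_one, mul_inv_cancel]
      exact (Subgroup.zpowers_le.2 hx) h3
    infer_instance
  have hedge : ∀ (s : Lb D A₀ A₁) (x : eps.ker), ∃ i, ∃ hi : i < B.length, B[i] = s ∧
      ((B.take (i + 1)).map (vl hn)).prod⁻¹ * x ∈ N' ∧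
      (act s → i = 0 ∨ ∃ hi' : i - 1 < B.length, act B[i - 1]) := by
    intro s x
    obtain ⟨d₀, hd₀⟩ := nD
    obtain ⟨b₀, hb₀⟩ := n1
    rcases s with ⟨d, b, f⟩ | m
    · rcases f with _ | _
      · obtain ⟨i, hi, g1, g2, -⟩ := flat_edge hn hN'n (Nat.succ_pos _) hbal
          (Sum.inr ((⟨d₀, hd₀⟩, ⟨b₀, hb₀⟩), Sum.inl (d, b), (⟨d₀, hd₀⟩, ⟨b₀, hb₀⟩))) 1 (by norm_num [ex]) x
        exact ⟨i, hi, g1, g2, fun h => absurd h Bool.false_ne_true⟩
      · obtain ⟨i, hi, g1, g2, g3⟩ := flat_edge hn hN'n (Nat.succ_pos _) hbal (Sum.inl (d, b)) 0 (by norm_num [ex]) x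
        exact ⟨i, hi, g1, g2, fun _ => g3 rfl⟩
    · obtain ⟨i, hi, g1, g2, -⟩ := flat_edge hn hN'n (Nat.succ_pos _) hbal
        (Sum.inr ((⟨d₀, hd₀⟩, ⟨b₀, hb₀⟩), Sum.inr m, (⟨d₀, hd₀⟩, ⟨b₀, hb₀⟩))) 1 (by norm_num [ex]) x
      exact ⟨i, hi, g1, g2, fun h => absurd h not_false⟩
  have hall : ∀ x : eps.ker, ∃ i < B.length, (((B.take i).map (vl hn)).prod)⁻¹ * x ∈ N' := by
    intro x
    obtain ⟨I, hI, hIx⟩ := hbal.all (Nat.succ_pos _) x
    obtain ⟨s, hs⟩ : ∃ s, Bc[I] = s := ⟨_, rfl⟩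
    have hsp : Bc = Bc.take I ++ s :: Bc.drop (I + 1) := by
      rw [← hs, List.getElem_cons_drop, List.take_append_drop]
    have hlen : ((Bc.take I).flatMap ex).length < B.length := by
      rw [hBdef]
      conv_rhs => rw [hsp]
      rw [List.flatMap_append, List.flatMap_cons, List.length_append, List.length_append]
      have := ex_pos s
      omega
    refine ⟨((Bc.take I).flatMap ex).length, hlen, ?_⟩
    have h2 := flat_take ex (Bc.take I) (Bc.drop (I + 1)) s 0 (Nat.zero_le _)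
    rw [← hsp, add_zero, List.take_zero, List.append_nil] at h2
    rw [hBdef, h2, prod_flatMap]
    exact hIx
  obtain ⟨T, hT1, hT2, hT3, hT4⟩ := exists_blk (vl (A₀ := A₀) hn) (G₀.subgroupOf eps.ker) N'
    ((N ⊓ G₀).subgroupOf eps.ker) (Nv.subgroupOf eps.ker) hN'n hN0n hcomm
    (fun x => by
      rw [Subgroup.mem_subgroupOf, Subgroup.mem_inf, hmem, Subgroup.mem_subgroupOf])
    (fun x hx => by
      rw [Subgroup.mem_subgroupOf] at hx ⊢
      exact hv1 hx)
    B hBne hT hmemB hcen hall R hR (l.flatMap ex).length hlB0.length_le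
    (by
      rw [htake, prod_flatMap]
      exact hl3)
    (fun d hd => by
      rw [Subgroup.mem_subgroupOf] at hd ⊢
      refine hv2 _ hd ?_
      refine Nat.Coprime.coprime_dvd_left ?_ hord
      rw [Subgroup.orderOf_coe]
      exact orderOf_pow_dvd d)
  have hai : ∀ i (hi : i < B.length), T.a i = B[i] := by
    intro i hi
    rw [hT4]
    show B[i % B.length]'_ = B[i]
    simp only [Nat.mod_eq_of_lt hi]
  refine ⟨T, hT3, ⟨?_, ?_, ?_, ?_⟩, ?_, ?_⟩
  · rw [hT2]
    exact hn1pos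
  · intro i hi hpa
    rw [hT1] at hi ⊢
    rw [hai i hi] at hpa
    obtain ⟨g1, g2, g3, g4, g5, g6⟩ := flat_iso (Bc := Bc) (w := []) (List.append_nil _).symm i hi hi hpa
    exact ⟨g1, g2, by rw [hai _ g3]; exact g5, by rw [hai _ g4]; exact g6⟩
  · intro i hi hpa
    rw [hT1] at hi
    rw [hai i (by omega)] at hpa
    rw [hai _ hi]
    exact flat_far Bc i hi hpa
  · intro i hi hpa
    rw [hT2] at hi ⊢
    have hiB : i < B.length := lt_of_lt_of_le hi hlB0.length_le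
    rw [hai i hiB] at hpa
    exact (flat_iso (Bc := l) (w := l'.flatMap ex) (B := B) (by rw [hBdef, hBc, List.flatMap_append]) i hi hiB hpa).2.1
  · rw [hT1]
    refine (len_flatMap ex 3 ex_len Bc).trans (Nat.mul_le_mul_left _ ?_)
    rw [hbal.length hN'n]
    refine Nat.mul_le_mul ?_ (Nat.mul_le_mul_right _ hidx)
    have : 3 * N'.index + 3 ≤ 3 * k + 3 := by omega
    exact Nat.succ_le_succ (hl2.trans (Nat.mul_le_mul_left _ this))
  · intro s x
    obtain ⟨i, hi, h2, h3, h5⟩ := hedge s x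
    refine ⟨i, by rw [hT1]; exact hi, by rw [hai i hi]; exact h2, ?_, fun hs => (h5 hs).imp_right fun ⟨h6, h7⟩ => by
      rw [hai _ h6]; exact h7⟩
    have h4 : T.p (i + 1) = ((B.take (i + 1)).map (vl hn)).prod := by
      show pre (fun t => vl hn (T.a t)) (i + 1) = _
      rw [hT4]
      exact pre_cyc (vl hn) B hBne (i + 1) hi
    rw [h4]
    exact h3

end main

end Pool.Agent.Lib.MP_688fd0_co.SQ7.H79
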