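import Pool.Agent.Lib.MP_688fd0_co.SQ7.Iface
import Pool.Agent.Lib.MP_688fd0_co.SQ7.H79.Tra
import Pool.Agent.Lib.MP_688fd0_co.SQ7.H79.Lev

/-!
SQ7, row WALK: from the block trajectory to the visits of a plan (positions, letters, vertical moves, levels, order).
The columns are free: `Wk` = the fields of `Pln` which do not mention the columns, `Wk.pln` = the plan.
-/

set_option autoImplicit false

namespace Pool.Agent.Lib.MP_688fd0_co.SQ7.H79

open Finset Pool.Agent.Lib.MP_688fd0_co.SQ5.H12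

variable {G : Type} [Group G]

/-! ### The fields without the columns -/

/-- The fields of a plan which do not mention the columns. -/
structure Wk (S : Lets G) (Γ T : Subgroup G) (L : ℕ) (lv : G → ℕ) (A : Set G) (u : ℕ) (z : G) (W n : ℕ)
    (v : ℕ → Vst G) (d : ℕ → G) (σ : ℕ → ℕ) : Prop where
  circ : Circ S Γ T L lv
  pos : 0 < n
  dA : ∀ t < n, d t ∈ A
  yΓ : ∀ t ≤ n, (v t).y ∈ Γ
  step : ∀ t < n, (v (t + 1)).y * S.be (v (t + 1)).j = (v t).out S z * d t
  last : (v n).m = 0 ∧ (v n).tw = none ∧ (v n).act = true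
  low : ∀ t ≤ n, W ≤ lv (v t).y
  high : ∀ t ≤ n, lv (v t).y + u * (v t).m + W ≤ L
  sep : ∀ t ≤ n, ∀ t' ≤ n, t ≠ t' → (v t).y⁻¹ * (v t').y ∈ T →
    lv (v t).y + u * (v t).m + W ≤ lv (v t').y ∨ lv (v t').y + u * (v t').m + W ≤ lv (v t).y
  σlt : ∀ k ≤ n, σ k ≤ n
  σinj : ∀ k ≤ n, ∀ k' ≤ n, σ k = σ k' → k = k'
  σmon : ∀ k < n, lv (v (σ k)).y ≤ lv (v (σ (k + 1))).y

/-- Columns. -/
def setA (v : ℕ → Vst G) (a : ℕ → Bool → G) (t : ℕ) : Vst G := { v t with a := a t }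

/-- The plan. -/
theorem Wk.pln {S : Lets G} {Γ T : Subgroup G} {L : ℕ} {lv : G → ℕ} {A : Set G} {Nv : Subgroup G} {l : ℕ} {r : ℕ → Lt}
    {lam : G} {f l₁ B W : ℕ} {g : G} {n : ℕ} {v : ℕ → Vst G} {d : ℕ → G} {σ : ℕ → ℕ}
    (H : Wk S Γ T L lv A (l * f) (lam ^ f) W n v d σ) (run : Run S T l r lam) (fpos : 0 < f) (hf : l.factorial ∣ f)
    (lamN : lam ^ f ∈ Nv) (hl : l₁ ∣ l * f) (al : ∀ i, S.al i ∈ A) (be : ∀ j, S.be j ∈ A) (sym : ∀ x ∈ A, x⁻¹ ∈ A) (a : ℕ → Bool → G)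
    (col : ∀ t ≤ n, ∀ c, (a t c)⁻¹ * (v t).y ∈ T ∧ lv (a t c) = 0)
    (colw : ∀ t ≤ n, ∀ c, lv ((v t).w S * a t c) = 0)
    (word : ∀ t ≤ n, ∀ c, ∃ w : List Lt, w.length ≤ B ∧ w.length ≡ lv (v t).y [MOD l₁] ∧
      ((w.map S.sv).prod)⁻¹ * ((a t c)⁻¹ * (v t).y) ∈ Nv)
    (gT : g ∈ T ∧ ∀ x ∈ Γ, lv x = 0 → lv (x * g) = 0)
    (gword : ∃ w : List Lt, w.length ≤ B ∧ w.length ≡ L [MOD l₁] ∧ ((w.map S.sv).prod)⁻¹ * g ∈ Nv) :
    Pln S Γ T L lv A Nv l r lam f l₁ B W g n (setA v a) d σ where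
  circ := H.circ
  run := run
  fpos := fpos
  hf := hf
  lamN := lamN
  hl := hl
  al := al
  be := be
  sym := sym
  pos := H.pos
  dA := H.dA
  yΓ := H.yΓ
  step := H.step
  last := H.last
  col := col
  colw := colw
  word := word
  gT := gT
  gword := gword
  low := H.low
  high := H.high
  sep := H.sep
  σlt := H.σlt
  σinj := H.σinj
  σmon := H.σmon

/-! ### Level functions -/

/-- Level data: `h` = level in `T` (modulo `L`), `p` a divisor of `L` for which the levels of `Nv` are invariant. -/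
structure LvD (S : Lets G) (Γ T Nv : Subgroup G) (L p : ℕ) (h : G → ZMod L) : Prop where
  mul : ∀ x ∈ T, ∀ y ∈ T, h (x * y) = h x + h y
  sv : ∀ s, h (S.sv s) = 1
  dvd : p ∣ L
  nle : Nv ≤ T
  nrm : ∀ x ∈ Γ, ∀ y ∈ Nv, x⁻¹ * y * x ∈ Nv
  cnj : ∀ x ∈ Γ, ∀ y ∈ Nv, ZMod.castHom dvd (ZMod p) (h (x⁻¹ * y * x)) = ZMod.castHom dvd (ZMod p) (h y)

/-- The level function with the cuts `κ`. -/
noncomputable def lvf {L : ℕ} (T : Subgroup G) (h : G → ZMod L) (κ : G ⧸ T → ZMod L) (x : G) : ℕ :=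
  (h ((QuotientGroup.mk x : G ⧸ T).out⁻¹ * x) - κ (QuotientGroup.mk x)).val

theorem out_mem (T : Subgroup G) (x : G) : (QuotientGroup.mk x : G ⧸ T).out⁻¹ * x ∈ T := by
  rw [← QuotientGroup.eq]
  exact QuotientGroup.out_eq' _

section

variable {S : Lets G} {Γ T Nv : Subgroup G} {L p : ℕ} {h : G → ZMod L}

theorem LvD.one (H : LvD S Γ T Nv L p h) : h 1 = 0 := by
  have := H.mul 1 T.one_mem 1 T.one_mem
  rw [mul_one] at this
  exact left_eq_add.1 this

theorem LvD.inv (H : LvD S Γ T Nv L p h) {x : G} (hx : x ∈ T) : h x⁻¹ = - h x := by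
  have := H.mul x⁻¹ (T.inv_mem hx) x hx
  rw [inv_mul_cancel, H.one] at this
  exact eq_neg_of_add_eq_zero_left this.symm

theorem LvD.pow (H : LvD S Γ T Nv L p h) {x : G} (hx : x ∈ T) (m : ℕ) : h (x ^ m) = m * h x := by
  induction m with
  | zero => rw [pow_zero, H.one, Nat.cast_zero, zero_mul]
  | succ m ih => rw [pow_succ, H.mul _ (T.pow_mem hx m) _ hx, ih]; push_cast; ring

/-- Differences of levels. -/
theorem LvD.lvf_mul [NeZero L] (H : LvD S Γ T Nv L p h) (κ : G ⧸ T → ZMod L) (x : G) {t : G} (ht : t ∈ T) :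
    ((lvf T h κ (x * t) : ℕ) : ZMod L) = (lvf T h κ x : ℕ) + h t := by
  have e : (QuotientGroup.mk (x * t) : G ⧸ T) = QuotientGroup.mk x :=
    QuotientGroup.mk_mul_of_mem x ht
  unfold lvf
  rw [ZMod.natCast_zmod_val, ZMod.natCast_zmod_val, e, ← mul_assoc, H.mul _ (out_mem T x) _ ht]
  ring

theorem LvD.circ [NeZero L] (H : LvD S Γ T Nv L p h) (κ : G ⧸ T → ZMod L) (ne : S.al false ≠ S.al true)
    (mem : ∀ x, S.sv x ∈ T) (le : T ≤ Γ) (odd_al : ∀ i, S.al i ∉ Γ) (odd_be : ∀ j, S.be j ∉ Γ)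
    (two : ∀ x y : G, x ∉ Γ → y ∉ Γ → x⁻¹ * y ∈ Γ) : Circ S Γ T L (lvf T h κ) where
  ne := ne
  mem := mem
  le := le
  odd_al := odd_al
  odd_be := odd_be
  two := two
  pos := Nat.pos_of_ne_zero (NeZero.ne L)
  lt := fun x => ZMod.val_lt _
  step := fun x _ s => by
    have h1 := H.lvf_mul κ x (mem s)
    rw [H.sv s] at h1
    have h2 : ((lvf T h κ (x * S.sv s) : ℕ) : ZMod L) = ((lvf T h κ x + 1 : ℕ) : ZMod L) := by
      rw [h1]; push_cast; rfl
    have h3 := (ZMod.natCast_eq_natCast_iff' _ _ L).1 h2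
    rwa [Nat.mod_eq_of_lt (show lvf T h κ (x * S.sv s) < L from ZMod.val_lt _)] at h3

end

/-! ### The letters of a label -/

section

variable {D A₀ A₁ : Set G}

/-- The letter outside of the tower. -/
def ld : Lb D A₀ A₁ → G
  | Sum.inl (d, _, _) => d
  | Sum.inr (d, _, _, _) => d

/-- The letter of the arrival. -/
def lj (jj : A₁ → Bool) : Lb D A₀ A₁ → Bool
  | Sum.inl (_, b, _) => jj b
  | Sum.inr (_, b, _, _) => jj b

/-- The twist. -/
def ltw (ii : A₀ → Bool) (jj : A₁ → Bool) : Lb D A₀ A₁ → Option Lt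
  | Sum.inl _ => none
  | Sum.inr (_, _, c, b) => some (ii c, jj b)

/-- Active labels. -/
def lact : Lb D A₀ A₁ → Bool
  | Sum.inl (_, _, f) => f
  | Sum.inr _ => false

/-- The element of a twist. -/
def tws (S : Lets G) : Option Lt → G
  | none => 1
  | some s => S.sv s

omit [Group G] in
theorem lact_iff (s : Lb D A₀ A₁) : lact s = true ↔ act s := by
  rcases s with ⟨d, b, f⟩ | ⟨d, b, c, b'⟩
  · exact Iff.rfl
  · exact ⟨fun h => absurd h Bool.false_ne_true, fun h => h.elim⟩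

theorem wd_prod (S : Lets G) (ii : A₀ → Bool) (jj : A₁ → Bool) (hi : ∀ c, S.al (ii c) = c) (hj : ∀ b, S.be (jj b) = b)
    (s : Lb D A₀ A₁) : (wd s).prod = ld s * (S.be (lj jj s))⁻¹ * tws S (ltw ii jj s) := by
  rcases s with ⟨d, b, f⟩ | ⟨d, b, c, b'⟩
  · simp [wd, ld, lj, ltw, tws, hj]
  · simp [wd, ld, lj, ltw, tws, hj, hi, Lets.sv, mul_assoc]

theorem Vst.out_eq (S : Lets G) (z : G) (v : Vst G) : v.out S z = v.y * z ^ v.m * tws S v.tw := by
  rcases v with ⟨y, j, m, tw, a, f⟩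
  rcases tw with _ | s
  · rfl
  · rfl

/-- The twist of the visit `t`. -/
def twt (ii : A₀ → Bool) (jj : A₁ → Bool) (lab : ℕ → Lb D A₀ A₁) : ℕ → Option Lt
  | 0 => none
  | t + 1 => ltw ii jj (lab t)

/-- The position of the visit `t`. -/
def ypos (S : Lets G) (z : G) (ii : A₀ → Bool) (jj : A₁ → Bool) (lab : ℕ → Lb D A₀ A₁) (m : ℕ → ℕ) : ℕ → G
  | 0 => 1
  | t + 1 => ypos S z ii jj lab m t * z ^ m t * tws S (twt ii jj lab t) * ld (lab t) * (S.be (lj jj (lab t)))⁻¹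

/-- The visit `t`; the visit `n` is virtual. -/
def vis (S : Lets G) (z : G) (ii : A₀ → Bool) (jj : A₁ → Bool) (lab : ℕ → Lb D A₀ A₁) (m : ℕ → ℕ) (n : ℕ) (t : ℕ) :
    Vst G where
  y := ypos S z ii jj lab m t
  j := match t with
    | 0 => false
    | t + 1 => lj jj (lab t)
  m := if t = n then 0 else m t
  tw := twt ii jj lab t
  act := match t with
    | 0 => true
    | t + 1 => lact (lab t)
  a := fun _ => 1

end

section

variable {S : Lets G} {Γ T Nv : Subgroup G} {L p : ℕ} {h : G → ZMod L} {D A₀ A₁ : Set G}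

theorem tws_mem (mem : ∀ x, S.sv x ∈ T) (o : Option Lt) : tws S o ∈ T := by
  rcases o with _ | s
  · exact T.one_mem
  · exact mem s

theorem LvD.tws (H : LvD S Γ T Nv L p h) (o : Option Lt) : h (tws S o) = 0 ∨ h (tws S o) = 1 := by
  rcases o with _ | s
  · exact Or.inl H.one
  · exact Or.inr (H.sv s)

/-- The vertical part of the position. -/
theorem LvD.vert (H : LvD S Γ T Nv L p h) (le : T ≤ Γ) (mem : ∀ x, S.sv x ∈ T) (ii : A₀ → Bool) (jj : A₁ → Bool)
    (hi : ∀ c, S.al (ii c) = c) (hj : ∀ b, S.be (jj b) = b) {z : G} (hz : z ∈ Nv) (lab : ℕ → Lb D A₀ A₁)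
    (hlab : ∀ t, (wd (lab t)).prod ∈ Γ) (m : ℕ → ℕ) (t : ℕ) :
    ∃ ν ∈ Nv, ypos S z ii jj lab m t * z ^ m t * SQ7.H79.tws S (twt ii jj lab t) =
        pre (fun t => (wd (lab t)).prod) t * ν ∧
      ZMod.castHom H.dvd (ZMod p) (h ν) = (∑ i ∈ range (t + 1), m i : ℕ) * ZMod.castHom H.dvd (ZMod p) (h z) := by
  have hpw : ∀ k : ℕ, z ^ k ∈ Nv ∧ ZMod.castHom H.dvd (ZMod p) (h (z ^ k)) = k * ZMod.castHom H.dvd (ZMod p) (h z) := by
    intro k
    refine ⟨Nv.pow_mem hz k, ?_⟩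
    rw [H.pow (H.nle hz), map_mul, map_natCast]
  induction t with
  | zero =>
    refine ⟨z ^ m 0, (hpw _).1, ?_, ?_⟩
    · show (1 : G) * z ^ m 0 * 1 = 1 * z ^ m 0
      rw [mul_one]
    · rw [(hpw _).2]
      simp
  | succ t ih =>
    obtain ⟨ν, h1, h2, h3⟩ := ih
    set w := pre (fun t => (wd (lab t)).prod) t with hw
    set q := (wd (lab t)).prod with hq
    have hq' : q = ld (lab t) * (S.be (lj jj (lab t)))⁻¹ * SQ7.H79.tws S (ltw ii jj (lab t)) :=
      wd_prod S ii jj hi hj (lab t)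
    set s := SQ7.H79.tws S (ltw ii jj (lab t)) with hs
    have hsT : s ∈ T := tws_mem mem _
    have g1 := H.nrm q (hlab t) ν h1
    have g2 := H.cnj q (hlab t) ν h1
    have g3 := H.nrm s (le hsT) _ (hpw (m (t + 1))).1
    have g4 := H.cnj s (le hsT) _ (hpw (m (t + 1))).1
    refine ⟨q⁻¹ * ν * q * (s⁻¹ * z ^ m (t + 1) * s), Nv.mul_mem g1 g3, ?_, ?_⟩
    · show ypos S z ii jj lab m t * z ^ m t * SQ7.H79.tws S (twt ii jj lab t) * ld (lab t) *
        (S.be (lj jj (lab t)))⁻¹ * z ^ m (t + 1) * s = w * q * (q⁻¹ * ν * q * (s⁻¹ * z ^ m (t + 1) * s))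
      rw [h2]
      have e : w * q * (q⁻¹ * ν * q * (s⁻¹ * z ^ m (t + 1) * s)) = w * ν * q * s⁻¹ * z ^ m (t + 1) * s := by group
      rw [e, hq']
      group
    · rw [H.mul _ (H.nle g1) _ (H.nle g3), map_add, g2, g4, h3, (hpw _).2, sum_range_succ _ (t + 1)]
      push_cast
      ring

end

/-! ### The order -/

theorem exists_order (n : ℕ) (f : ℕ → ℕ) : ∃ σ : ℕ → ℕ, (∀ k ≤ n, σ k ≤ n) ∧
    (∀ k ≤ n, ∀ k' ≤ n, σ k = σ k' → k = k') ∧ ∀ k < n, f (σ k) ≤ f (σ (k + 1)) := by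
  set g : Fin (n + 1) → ℕ := fun t => f t with hg
  refine ⟨fun k => if hk : k < n + 1 then (Tuple.sort g ⟨k, hk⟩ : Fin (n + 1)) else k, ?_, ?_, ?_⟩
  · intro k hk
    simp only [dif_pos (show k < n + 1 by omega)]
    exact Nat.lt_succ_iff.1 (Fin.is_lt _)
  · intro k hk k' hk' e
    simp only [dif_pos (show k < n + 1 by omega), dif_pos (show k' < n + 1 by omega)] at e
    exact congrArg Fin.val ((Tuple.sort g).injective (Fin.ext e))
  · intro k hk
    simp only [dif_pos (show k < n + 1 by omega), dif_pos (show k + 1 < n + 1 by omega)]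
    exact Tuple.monotone_sort g (show (⟨k, by omega⟩ : Fin (n + 1)) ≤ ⟨k + 1, by omega⟩ from Nat.le_succ k)

/-! ### Main theorem -/

theorem coe_pre {H : Subgroup G} (q : ℕ → H) (t : ℕ) : ((pre q t : H) : G) = pre (fun i => (q i : G)) t := by
  induction t with
  | zero => rfl
  | succ t ih => rw [pre_succ, pre_succ, Subgroup.coe_mul, ih]

section main

variable {eps : G →* ℤˣ} {D A₀ A₁ : Set G} {S : Lets G} {T Nv : Subgroup G} {L p : ℕ} {h : G → ZMod L}

/-- The position without verticals. -/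
theorem coe_w (hn : ∀ x ∈ D ∪ A₀ ∪ A₁, eps x = -1) {T' N' N0' Nv' : Subgroup eps.ker}
    (P : Blk (vl (A₀ := A₀) hn) T' N' N0' Nv') (t : ℕ) :
    ((P.w t : eps.ker) : G) = pre (fun t => (wd (P.lab t)).prod) t := coe_pre _ _

/-- **WALK.** The visits `t ≤ n` of a plan from a block trajectory, for an end index `n` with active label `n - 1`. -/
theorem exists_walk [NeZero L] (hn : ∀ x ∈ D ∪ A₀ ∪ A₁, eps x = -1) {T' N' N0' Nv' : Subgroup eps.ker}
    (P : Blk (vl (A₀ := A₀) hn) T' N' N0' Nv') (hT' : ∀ x : eps.ker, x ∈ T' ↔ (x : G) ∈ T)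
    (H : LvD S eps.ker T Nv L p h) (ii : A₀ → Bool) (jj : A₁ → Bool) (hi : ∀ c, S.al (ii c) = c)
    (hj : ∀ b, S.be (jj b) = b) (ne : S.al false ≠ S.al true) (mem : ∀ x, S.sv x ∈ T) (le : T ≤ eps.ker)
    (odd_al : ∀ i, S.al i ∉ eps.ker) (odd_be : ∀ j, S.be j ∉ eps.ker)
    (two : ∀ x y : G, x ∉ eps.ker → y ∉ eps.ker → x⁻¹ * y ∈ eps.ker)
    {A : Set G} (hDA : D ⊆ A) {z : G} (hz : z ∈ Nv) {u : ℕ} (hu : 1 ≤ u) (hzu : h z = (u : ZMod L)) (W : ℕ)
    {n : ℕ} (hn0 : 0 < n) (hnτ : n < P.τ) (hna : act (P.lab (n - 1)))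
    (hL : 1000 * ((2 * P.R + 1) * P.n ^ 2 + 1) * u * (4 ^ (10 * ((2 * P.R + 1) * P.n ^ 2) + 1) * (30 + 5 * W)) ≤ p) :
    ∃ (κ : G ⧸ T → ZMod L) (m : ℕ → ℕ) (σ : ℕ → ℕ),
      Wk S eps.ker T L (lvf T h κ) A u z W n (vis S z ii jj P.lab m n) (fun t => ld (P.lab t)) σ ∧
      ∀ t, ((P.w t : eps.ker) : G)⁻¹ * (ypos S z ii jj P.lab m t * tws S (twt ii jj P.lab t)) ∈ Nv := by
  classical
  obtain ⟨v, Sf, hv1, hv2, hS0, hS, hsep⟩ := P.lev (fun x : eps.ker => ZMod.castHom H.dvd (ZMod p) (h (x : G))) u W hu hL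
  obtain ⟨n₀, rfl⟩ : ∃ n₀, n = n₀ + 1 := ⟨n - 1, by omega⟩
  rw [Nat.add_sub_cancel] at hna
  set m : ℕ → ℕ := fun t => if t = 0 then v else Sf t - Sf (t - 1) with hm
  have hm0 : m 0 = v := if_pos rfl
  have hms : ∀ t, m (t + 1) = Sf (t + 1) - Sf t := fun t => by rw [hm]; simp
  have hmb : ∀ t, v ≤ m t ∧ m t ≤ v + 1 := by
    intro t
    rcases t with _ | t
    · rw [hm0]; exact ⟨le_rfl, Nat.le_succ _⟩
    · rw [hms]
      rcases hS t with h1 | h1 <;> omega
  have hsum : ∀ t, ∑ i ∈ range (t + 1), m i = v + Sf t := by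
    intro t
    induction t with
    | zero => simp [hm0, hS0]
    | succ t ih =>
      rw [sum_range_succ, ih, hms]
      rcases hS t with h1 | h1 <;> omega
  -- positions
  have hlab : ∀ t, (wd (P.lab t)).prod ∈ eps.ker := fun t => (vl hn (P.lab t)).2
  have hpos := H.vert le mem ii jj hi hj hz P.lab hlab m
  set y : ℕ → G := ypos S z ii jj P.lab m with hy
  set tw : ℕ → Option Lt := twt ii jj P.lab with htw
  choose ν hν1 hν2 hν3 using hpos
  have hwc : ∀ t, pre (fun t => (wd (P.lab t)).prod) t = ((P.w t : eps.ker) : G) := fun t => (coe_w hn P t).symm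
  have haT : ∀ t, z ^ m t * tws S (tw t) ∈ T := fun t => T.mul_mem (T.pow_mem (H.nle hz) _) (tws_mem mem _)
  set c : ℕ → G := fun t => ν t * (z ^ m t * tws S (tw t))⁻¹ with hc
  have hcT : ∀ t, c t ∈ T := fun t => T.mul_mem (H.nle (hν1 t)) (T.inv_mem (haT t))
  have hyc : ∀ t, y t = ((P.w t : eps.ker) : G) * c t := by
    intro t
    have h1 := hν2 t
    rw [hwc] at h1
    rw [hc]
    show y t = ((P.w t : eps.ker) : G) * (ν t * (z ^ m t * tws S (tw t))⁻¹)
    rw [← mul_assoc, ← h1]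
    group
  have hquo : ∀ t t', (y t)⁻¹ * y t' = (c t)⁻¹ * (((P.w t)⁻¹ * P.w t' : eps.ker) : G) * c t' := by
    intro t t'
    rw [hyc, hyc]
    push_cast
    group
  have hTT : ∀ t t', (y t)⁻¹ * y t' ∈ T ↔ (P.w t)⁻¹ * P.w t' ∈ T' := by
    intro t t'
    rw [hT', hquo]
    constructor
    · intro h1
      have h2 := T.mul_mem (T.mul_mem (hcT t) h1) (T.inv_mem (hcT t'))
      have e : c t * ((c t)⁻¹ * (((P.w t)⁻¹ * P.w t' : eps.ker) : G) * c t') * (c t')⁻¹ =
        (((P.w t)⁻¹ * P.w t' : eps.ker) : G) := by group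
      rwa [e] at h2
    · intro h1
      exact T.mul_mem (T.mul_mem (T.inv_mem (hcT t)) h1) (hcT t')
  -- the twist levels
  have hτ : ∀ t, ∃ k : ℤ, 0 ≤ k ∧ k ≤ 1 ∧ h (tws S (tw t)) = k := by
    intro t
    rcases H.tws (tw t) with h1 | h1
    · exact ⟨0, le_rfl, by norm_num, by rw [h1]; simp⟩
    · exact ⟨1, by norm_num, le_rfl, by rw [h1]; simp⟩
  choose k hk0 hk1 hk2 using hτ
  have hlc : ∀ t, ZMod.castHom H.dvd (ZMod p) (h (c t)) =
      (((v + Sf t : ℕ) : ℤ) * u - (m t : ℤ) * u - k t : ℤ) := by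
    intro t
    rw [hc]
    show ZMod.castHom H.dvd (ZMod p) (h (ν t * (z ^ m t * tws S (tw t))⁻¹)) = _
    rw [H.mul _ (H.nle (hν1 t)) _ (T.inv_mem (haT t)), H.inv (haT t), H.mul _ (T.pow_mem (H.nle hz) _) _ (tws_mem mem _),
      H.pow (H.nle hz), map_add, map_neg, map_add, hν3, hsum, hk2, hzu]
    push_cast
    simp only [map_mul, map_natCast, map_intCast]
    ring
  -- separation
  have hdist : ∀ κ : G ⧸ T → ZMod L, ∀ t t', t < t' → t' < P.τ → (y t)⁻¹ * y t' ∈ T →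
      lvf T h κ (y t) + u * (v + 1) + W ≤ lvf T h κ (y t') ∨ lvf T h κ (y t') + u * (v + 1) + W ≤ lvf T h κ (y t) := by
    intro κ t t' htt ht' hyT
    have hwT := (hTT t t').1 hyT
    have h1 := H.lvf_mul κ (y t) hyT
    rw [mul_inv_cancel_left] at h1
    have h2 : (((lvf T h κ (y t') : ℤ) - lvf T h κ (y t) : ℤ) : ZMod L) = h ((y t)⁻¹ * y t') := by
      push_cast
      rw [h1]
      ring
    have h3 : (((lvf T h κ (y t') : ℤ) - lvf T h κ (y t) : ℤ) : ZMod p) =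
        ZMod.castHom H.dvd (ZMod p) (h ((y t)⁻¹ * y t')) := by
      rw [← h2, map_intCast]
    have h4 : ZMod.castHom H.dvd (ZMod p) (h ((y t)⁻¹ * y t')) =
        ZMod.castHom H.dvd (ZMod p) (h (((P.w t)⁻¹ * P.w t' : eps.ker) : G)) +
          ZMod.castHom H.dvd (ZMod p) (h (c t')) - ZMod.castHom H.dvd (ZMod p) (h (c t)) := by
      have hwT' := (hT' _).1 hwT
      rw [hquo, H.mul _ (T.mul_mem (T.inv_mem (hcT t)) hwT') _ (hcT t'), H.mul _ (T.inv_mem (hcT t)) _ hwT',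
        H.inv (hcT t), map_add, map_add, map_neg]
      ring
    have h5 := hsep t t' htt ht' hwT
      ((lvf T h κ (y t') : ℤ) - lvf T h κ (y t) + u * ((m t' : ℤ) - m t) + (k t' - k t)) (by
        rw [hlc, hlc] at h4
        rw [h4] at h3
        push_cast at h3 ⊢
        rw [h3]
        ring)
    have h6 : (m t' : ℤ) - m t = -1 ∨ (m t' : ℤ) - m t = 0 ∨ (m t' : ℤ) - m t = 1 := by
      have := hmb t
      have := hmb t'
      omega
    have h7 := hk0 t
    have h8 := hk1 t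
    have h9 := hk0 t'
    have h10 := hk1 t'
    have e1 : (u : ℤ) * (v + 4) = u * v + 4 * u := by ring
    rw [e1] at h5
    have e2 : u * (v + 1) = u * v + u := by ring
    rw [e2]
    have e3 : ((u * v : ℕ) : ℤ) = (u : ℤ) * v := by push_cast; rfl
    rw [← e3] at h5
    rcases h6 with h6 | h6 | h6
    · rw [h6] at h5
      rcases lt_abs.1 h5 with h11 | h11 <;> omega
    · rw [h6] at h5
      rcases lt_abs.1 h5 with h11 | h11 <;> omega
    · rw [h6] at h5
      rcases lt_abs.1 h5 with h11 | h11 <;> omega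
  -- cut levels
  have hcut : ∀ q : G ⧸ T, ∃ κ : ZMod L, ∀ t ∈ (range (n₀ + 2)).filter (fun t => (QuotientGroup.mk (y t) : G ⧸ T) = q),
      u * (v + 1) + W ≤ (h (q.out⁻¹ * y t) - κ).val ∧ (h (q.out⁻¹ * y t) - κ).val + (u * (v + 1) + W) ≤ L := by
    intro q
    refine exists_cut _ L (u * (v + 1) + W) (fun t => h (q.out⁻¹ * y t)) ?_
    have hcard : ((range (n₀ + 2)).filter (fun t => (QuotientGroup.mk (y t) : G ⧸ T) = q)).card ≤ (P.R + 1) * P.n := by
      rcases ((range (n₀ + 2)).filter (fun t => (QuotientGroup.mk (y t) : G ⧸ T) = q)).eq_empty_or_nonempty with h1 | ⟨t₀, h1⟩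
      · rw [h1, card_empty]; exact Nat.zero_le _
      · refine (card_le_card ?_).trans (P.few (P.w t₀))
        intro t ht
        rw [mem_filter, mem_range] at ht h1 ⊢
        refine ⟨by omega, ?_⟩
        rw [← hTT, ← QuotientGroup.eq, ht.2, h1.2]
    have hpL : p ≤ L := Nat.le_of_dvd (Nat.pos_of_ne_zero (NeZero.ne L)) H.dvd
    set X := (2 * P.R + 1) * P.n ^ 2 with hX
    set F := 4 ^ (10 * X) * (30 + 5 * W) with hF
    have hF4 : 4 ^ (10 * X + 1) * (30 + 5 * W) = 4 * F := by rw [hF, pow_succ]; ring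
    rw [hF4] at hL
    have hFW : 30 + 5 * W ≤ F := Nat.le_mul_of_pos_left _ (by positivity)
    have hX1 : (P.R + 1) * P.n ≤ X := by
      rw [hX, pow_two]
      have h1 : P.n * 1 ≤ P.n * P.n := Nat.mul_le_mul_left _ P.n_pos
      rw [mul_one] at h1
      exact Nat.mul_le_mul (by omega) h1
    have huF : u * 1 ≤ u * F := Nat.mul_le_mul_left _ (by omega)
    have hFu : 1 * F ≤ u * F := Nat.mul_le_mul_right _ hu
    have hW1 : u * (v + 1) + W ≤ 4 * (u * F) := by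
      have h1 : u * (v + 1) ≤ u * (2 * F + 1) := Nat.mul_le_mul_left _ (by omega)
      have e : u * (2 * F + 1) = 2 * (u * F) + u := by ring
      omega
    calc 2 * (u * (v + 1) + W) * ((range (n₀ + 2)).filter (fun t => (QuotientGroup.mk (y t) : G ⧸ T) = q)).card
        ≤ 2 * (4 * (u * F)) * X := Nat.mul_le_mul (Nat.mul_le_mul_left _ hW1) (hcard.trans hX1)
      _ < 1000 * (X + 1) * u * (4 * F) := by
          have e1 : 1000 * (X + 1) * u * (4 * F) = 4000 * ((u * F) * X) + 4000 * (u * F) := by ring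
          have e2 : 2 * (4 * (u * F)) * X = 8 * ((u * F) * X) := by ring
          rw [e1, e2]
          omega
      _ ≤ L := hL.trans hpL
  choose κ hκ using hcut
  obtain ⟨σ, hσ1, hσ2, hσ3⟩ := exists_order (n₀ + 1) fun t => lvf T h κ (y t)
  have hmv : ∀ t, u * (vis S z ii jj P.lab m (n₀ + 1) t).m ≤ u * (v + 1) := by
    intro t
    refine Nat.mul_le_mul_left _ ?_
    show (if t = n₀ + 1 then 0 else m t) ≤ v + 1
    split_ifs
    · exact Nat.zero_le _
    · exact (hmb t).2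
  have hlh : ∀ t ≤ n₀ + 1, u * (v + 1) + W ≤ lvf T h κ (y t) ∧ lvf T h κ (y t) + (u * (v + 1) + W) ≤ L := fun t ht =>
    hκ (QuotientGroup.mk (y t)) t (mem_filter.2 ⟨mem_range.2 (by omega), rfl⟩)
  refine ⟨κ, m, σ, ?_, ?_⟩
  · refine
      { circ := H.circ κ ne mem le odd_al odd_be two
        pos := Nat.succ_pos _
        dA := ?_
        yΓ := ?_
        step := ?_
        last := ?_
        low := ?_
        high := ?_
        sep := ?_
        σlt := hσ1
        σinj := hσ2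
        σmon := hσ3 }
    · intro t _
      rcases P.lab t with ⟨d, b, f⟩ | ⟨d, b, c, b'⟩
      · exact hDA d.2
      · exact hDA d.2
    · intro t _
      show y t ∈ eps.ker
      rw [hyc]
      exact eps.ker.mul_mem (P.w t).2 (le (hcT t))
    · intro t ht
      rw [Vst.out_eq]
      show y (t + 1) * S.be (lj jj (P.lab t)) = y t * z ^ (if t = n₀ + 1 then 0 else m t) * tws S (tw t) * ld (P.lab t)
      rw [if_neg (by omega)]
      show y t * z ^ m t * tws S (tw t) * ld (P.lab t) * (S.be (lj jj (P.lab t)))⁻¹ * S.be (lj jj (P.lab t)) = _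
      rw [inv_mul_cancel_right]
    · refine ⟨if_pos rfl, ?_, ?_⟩
      · show ltw ii jj (P.lab n₀) = none
        generalize P.lab n₀ = s at hna
        rcases s with s | s
        · rfl
        · exact absurd hna not_false
      · exact (lact_iff _).2 hna
    · intro t ht
      show W ≤ lvf T h κ (y t)
      have := (hlh t ht).1
      omega
    · intro t ht
      show lvf T h κ (y t) + u * (vis S z ii jj P.lab m (n₀ + 1) t).m + W ≤ L
      have := (hlh t ht).2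
      have := hmv t
      omega
    · intro t ht t' ht' hne hT
      show lvf T h κ (y t) + u * (vis S z ii jj P.lab m (n₀ + 1) t).m + W ≤ lvf T h κ (y t') ∨
        lvf T h κ (y t') + u * (vis S z ii jj P.lab m (n₀ + 1) t').m + W ≤ lvf T h κ (y t)
      have h1 := hmv t
      have h2 := hmv t'
      rcases lt_or_gt_of_ne hne with h3 | h3
      · have := hdist κ t t' h3 (by omega) hT
        omega
      · have h4 : (y t')⁻¹ * y t ∈ T := by
          have h5 := T.inv_mem hT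
          rw [mul_inv_rev, inv_inv] at h5
          exact h5
        have := hdist κ t' t h3 (by omega) h4
        omega
  · intro t
    have h1 := hν2 t
    rw [hwc] at h1
    have e : y t * tws S (tw t) = ((P.w t : eps.ker) : G) * (ν t * ((tws S (tw t))⁻¹ * z ^ m t * tws S (tw t))⁻¹) := by
      have h2 : y t = ((P.w t : eps.ker) : G) * ν t * (tws S (tw t))⁻¹ * (z ^ m t)⁻¹ := by rw [← h1]; group
      rw [h2]
      group
    show ((P.w t : eps.ker) : G)⁻¹ * (y t * tws S (tw t)) ∈ Nv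
    rw [e, inv_mul_cancel_left]
    exact Nv.mul_mem (hν1 t) (Nv.inv_mem (H.nrm _ (le (tws_mem mem _)) _ (Nv.pow_mem hz _)))

end main

end Pool.Agent.Lib.MP_688fd0_co.SQ7.H79
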