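import Pool.Agent.Lib.MP_688fd0_co.SQ7.H79.Bdd1
import Pool.Agent.Lib.MP_688fd0_co.SQ7.H71.Comb
import Pool.Agent.Lib.MP_688fd0_co.SQ7.H71.Lvd
import Pool.Agent.Lib.MP_688fd0_co.SQ7.H41.ArcsP
import Pool.Agent.Lib.MP_688fd0_co.SQ7.H24.One
import Pool.Agent.Lib.MP_688fd0_co.SQ7.H25.Cst

/-!
SQ7: the case `N ⊓ V = 1` of the assembly (`H71.CaseS true`).
-/

set_option autoImplicit false

namespace Pool.Agent.Lib.MP_688fd0_co.SQ7.H79

open Equiv
open Pool.Agent.Lib.MP_688fd0_co.OSF Pool.Agent.Lib.MP_688fd0_co.SQ5.H12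

variable {G : Type} [Group G]

section dat

variable {N C : Subgroup G} {eps : G →* ℤˣ} {k P : ℕ} {A : Set G} {S : Lets G} {D : Set G} {T V Nv : Subgroup G}
    {L δ : ℕ} {lev : G → ZMod L}

theorem dat_neg (h : Dat N C eps k P A S D T V Nv L δ lev) :
    ∀ x ∈ D ∪ Set.range S.al ∪ Set.range S.be, eps x = -1 := by
  rintro x ((hx | ⟨i, rfl⟩) | ⟨i, rfl⟩)
  · exact h.neg _ (h.DA hx)
  · exact h.neg _ (h.al i)
  · exact h.neg _ (h.be i)

theorem dat_gen (h : Dat N C eps k P A S D T V Nv L δ lev) :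
    Subgroup.closure (D ∪ Set.range S.al ∪ Set.range S.be) = ⊤ := by
  rw [Set.union_assoc]
  exact h.gen

theorem dat_al (h : Dat N C eps k P A S D T V Nv L δ lev) : ∀ x ∈ Set.range S.al, x⁻¹ ∈ Set.range S.al := by
  rintro x ⟨i, rfl⟩
  obtain ⟨i', hi'⟩ := h.al_inv i
  exact ⟨i', hi'.symm⟩

theorem dat_be (h : Dat N C eps k P A S D T V Nv L δ lev) : ∀ x ∈ Set.range S.be, x⁻¹ ∈ Set.range S.be := by
  rintro x ⟨i, rfl⟩
  rcases i with _ | _
  · exact ⟨true, h.be_inv⟩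
  · exact ⟨false, by rw [h.be_inv, inv_inv]⟩

/-- The block trajectory of the group data. -/
theorem dat_tra [Finite G] (h : Dat N C eps k P A S D T V Nv L δ lev) (R : ℕ) (hR : 2 ≤ R) :
    ∃ (T' N' N0' Nv' : Subgroup eps.ker) (Q : Blk (vl (A₀ := Set.range S.al) (dat_neg h)) T' N' N0' Nv'),
      Q.R = R ∧ Q.Iso act ∧ (∀ x : eps.ker, x ∈ T' ↔ (x : G) ∈ T) ∧
      Q.n ≤ 3 * ((((Nat.card N).primeFactors.card + 2) ^ 2 * (3 * k + 3) + 1) *
        (k * Nat.card (Cl D (Set.range S.al) (Set.range S.be)))) ∧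
      ∀ (s : Lb D (Set.range S.al) (Set.range S.be)) (x : eps.ker), ∃ i < Q.n, Q.a i = s ∧
        (Q.p (i + 1))⁻¹ * x ∈ N' ∧ (act s → i = 0 ∨ act (Q.a (i - 1))) := by
  set G₀ := Subgroup.closure (Set.range S.al ∪ Set.range S.be) with hG₀
  have hp : ∀ p ∈ (Nat.card N).primeFactors, (Nat.card N).primeFactors.card + 1 < p := by
    intro p hp
    have h1 := h.gn.marg p hp
    have h2 : (Nat.card N).primeFactors.card ≤ (Nat.card G).primeFactorsList.length := by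
      have h3 : (Nat.card N).primeFactors ⊆ (Nat.card G).primeFactors :=
        Nat.primeFactors_mono (Subgroup.card_subgroup_dvd_card N) Nat.card_pos.ne'
      refine (Finset.card_le_card h3).trans ?_
      rw [Nat.primeFactors]
      exact List.toFinset_card_le _
    have h3 : (Nat.card G).primeFactorsList.length + 2 ≤ ((Nat.card G).primeFactorsList.length + 2) ^ 10 :=
      Nat.le_self_pow (by norm_num) _
    omega
  obtain ⟨Q, h1, h2, h3, h4⟩ := exists_tra (D := D) (A₀ := Set.range S.al) (A₁ := Set.range S.be) h.gn.toGNE hp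
    (dat_neg h) h.Dinv (dat_al h) (dat_be h) (dat_gen h) h.Dn ⟨_, ⟨false, rfl⟩⟩ ⟨_, ⟨false, rfl⟩⟩ G₀ h.DG
    (fun x hx => Subgroup.subset_closure (Or.inl hx)) (fun x hx => Subgroup.subset_closure (Or.inr hx)) Nv
    (fun x hx => ⟨h.NvN hx, ((h.hT x).1 (h.NvT hx)).1⟩)
    (fun x hx hc => h.Nv_C x hx.1 ((h.hT x).2 ⟨hx.2, h.gn.eN x hx.1⟩) hc) R hR
  refine ⟨_, _, _, _, Q, h1, h2, fun x => ?_, h3, h4⟩
  rw [Subgroup.mem_subgroupOf, h.hT]
  exact ⟨fun hx => ⟨hx, MonoidHom.mem_ker.1 x.2⟩, fun hx => hx.1⟩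

end dat

/-- The statement of the numbers. -/
def NumS (e c0 : ℕ) : Prop :=
  ∀ k Om P n R l1 B D l f nF Bc : ℕ, 2 ≤ k + Om → 2 ^ ((k + Om) ^ c0) ≤ P →
    n ≤ 3 * (((Om + 2) ^ 2 * (3 * k + 3) + 1) * (k * (2 * (2 * Om + 10) + 5 * (2 * (2 * Om + 10)) ^ 3))) →
    R ≤ k + 20 → nF ≤ (2 * R + 2) * n + 2 → l1 ≤ (k + Om) ^ e → B + D + l * f ≤ 2 ^ ((k + Om) ^ e) → 0 < f →
    Bc ≤ (1 + 4 * l1 ^ 2) * B * (1 + 2 * l1 * D + 4 * l1 ^ 2 * nF * D) + l1 + B →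
    (∀ p, (k + Om + 2) ^ c0 < p → Om + 1 < p ∧ 1 + 4 * l1 ^ 2 * (nF + 1) + 2 * l1 < p ∧ k < p) ∧
    1000 * ((2 * R + 1) * n ^ 2 + 1) * (l * f) *
      (4 ^ (10 * ((2 * R + 1) * n ^ 2) + 1) * (30 + 5 * (l1 + Bc + D + l + 10) ^ 20)) ≤ P

theorem two_pow_num {S e : ℕ} (hS : 2 ≤ S) : 2 ^ (S ^ e) + (S * (S + 1) + S) ≤ 2 ^ (S ^ (e + 3)) := by
  have h1 : S * (S + 1) + S ≤ 2 ^ (S ^ 2) := by
    have h2 : S ^ 2 + 2 * S ≤ 2 * S ^ 2 := by nlinarith
    have h3 : 2 * S ^ 2 ≤ 2 ^ (S ^ 2) := by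
      have h4 : 4 ≤ S ^ 2 := by nlinarith
      have key : ∀ m, 4 ≤ m → 2 * m ≤ 2 ^ m := by
        intro m hm
        induction m, hm using Nat.le_induction with
        | base => norm_num
        | succ m hm ih => rw [pow_succ]; omega
      exact key _ h4
    have e : S * (S + 1) + S = S ^ 2 + 2 * S := by ring
    omega
  have hS0 : 0 < S := by omega
  have h2 : S ^ e ≤ S ^ (e + 2) := Nat.pow_le_pow_right hS0 (by omega)
  have h3 : S ^ 2 ≤ S ^ (e + 2) := Nat.pow_le_pow_right hS0 (by omega)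
  have h4 : S ^ (e + 2) + 1 ≤ S ^ (e + 3) := by
    have h5 : S ^ (e + 3) = S ^ (e + 2) * S := by ring
    have h6 : 1 ≤ S ^ (e + 2) := Nat.one_le_pow _ _ hS0
    rw [h5]
    nlinarith
  have h5 : 2 ^ (S ^ e) ≤ 2 ^ (S ^ (e + 2)) := Nat.pow_le_pow_right (by norm_num) h2
  have h6 : 2 ^ (S ^ 2) ≤ 2 ^ (S ^ (e + 2)) := Nat.pow_le_pow_right (by norm_num) h3
  have h7 : 2 ^ (S ^ (e + 2) + 1) ≤ 2 ^ (S ^ (e + 3)) := Nat.pow_le_pow_right (by norm_num) h4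
  rw [pow_succ] at h7
  omega

/-- **`CaseS true`** from the numbers. -/
theorem case1_of (num : ∀ e : ℕ, ∃ c0 : ℕ, NumS e c0)
    (card_Cl : ∀ {G : Type} [Group G] [Finite G] {D A : Set G} {S : Lets G} {Om : ℕ}, D ⊆ A → A.ncard ≤ 2 * Om + 10 →
      Nat.card (Cl D (Set.range S.al) (Set.range S.be)) ≤ 2 * (2 * Om + 10) + 5 * (2 * (2 * Om + 10)) ^ 3) :
    H71.CaseS true := by
  intro e
  obtain ⟨c0, hnum⟩ := num (e + 3)
  refine ⟨c0, ?_⟩
  intro G _ _ N C eps k P A S D T V Nv L δ lev l₁ B D₁ l r lam g₀ f hD hO hM hA hP hV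
  classical
  have hV1 : Nat.card (N ⊓ V : Subgroup G) = 1 := hV.2 rfl
  obtain rfl : l₁ = δ := hO.one hV1
  have hL0 : NeZero L := ⟨hD.Lpos.ne'⟩
  set Om := (Nat.card G).primeFactorsList.length with hOm
  have hk : 0 < k := lt_of_lt_of_le hD.δk.1 hD.δk.2
  have hk2 : 2 ≤ k + Om := by
    have h1 : P ∣ Nat.card G := hD.gn.dvd.trans (Subgroup.card_subgroup_dvd_card N)
    have h2 : P ∈ (Nat.card G).primeFactorsList := (Nat.mem_primeFactorsList Nat.card_pos.ne').2 ⟨hD.gn.prime, h1⟩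
    have h3 : 0 < Om := List.length_pos_of_mem h2
    omega
  -- the trajectory
  obtain ⟨T', N', N0', Nv', Q, hQR, hI, hT', hQn, hall⟩ := dat_tra hD (k + 6) (by omega)
  have hQn' : Q.n ≤ 3 * (((Om + 2) ^ 2 * (3 * k + 3) + 1) * (k * (2 * (2 * Om + 10) + 5 * (2 * (2 * Om + 10)) ^ 3))) := by
    refine hQn.trans (Nat.mul_le_mul_left _ (Nat.mul_le_mul ?_ (Nat.mul_le_mul_left _ (card_Cl hD.DA hA))))
    have h2 : (Nat.card N).primeFactors.card ≤ Om := by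
      have h3 : (Nat.card N).primeFactors ⊆ (Nat.card G).primeFactors :=
        Nat.primeFactors_mono (Subgroup.card_subgroup_dvd_card N) Nat.card_pos.ne'
      refine (Finset.card_le_card h3).trans ?_
      rw [Nat.primeFactors]
      exact List.toFinset_card_le _
    exact Nat.succ_le_succ (Nat.mul_le_mul_right _ (Nat.pow_le_pow_left (by omega) 2))
  -- the words
  set kap := (N.subgroupOf T).index with hkap
  have hkapk : kap ≤ k := by
    have := hD.gn.Nn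
    rw [← hD.gn.idx]
    exact Nat.le_of_dvd (Nat.pos_of_ne_zero N.index_ne_zero_of_finite) (Subgroup.relIndex_dvd_index_of_normal N T)
  set B' := B + (kap * (kap + 1) + l₁) with hB'
  have hBle : B' + D₁ + l * f ≤ 2 ^ ((k + Om) ^ (e + 3)) := by
    have h1 := hO.le
    rw [← hOm] at h1
    have h2 := two_pow_num (S := k + Om) (e := e) hk2
    have h3 : kap * (kap + 1) + l₁ ≤ (k + Om) * (k + Om + 1) + (k + Om) := by
      have h4 := hD.δk.2
      have h5 : kap * (kap + 1) ≤ (k + Om) * (k + Om + 1) := Nat.mul_le_mul (by omega) (by omega)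
      omega
    omega
  have hl1le : l₁ ≤ (k + Om) ^ (e + 3) := hO.l₁le.trans (Nat.pow_le_pow_right (by omega) (by omega))
  obtain ⟨-, hnum2⟩ := hnum k Om P Q.n (k + 6) l₁ B' D₁ l f 0 B' hk2 hP hQn' (by omega) (Nat.zero_le _) hl1le hBle
    hO.fpos (Nat.le_add_left _ _)
  rw [← hQR] at hnum2
  -- the letters
  have hii : ∀ c : Set.range S.al, ∃ i, S.al i = c := fun c => c.2
  have hjj : ∀ c : Set.range S.be, ∃ i, S.be i = c := fun c => c.2
  choose ii hi using hii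
  choose jj hj using hjj
  have hMV : {τ | τ ∈ T ∧ lev τ = 0}.ncard ≤ k + 3 + 2 := by
    have h1 : {τ | τ ∈ T ∧ lev τ = 0} = (V : Set G) := by
      ext τ
      constructor
      · rintro ⟨h2, h3⟩
        exact (hD.lev_V τ h2).1 h3
      · intro h2
        exact ⟨hD.VT h2, (hD.lev_V τ (hD.VT h2)).2 h2⟩
    rw [h1]
    have h2 := hD.Vk
    rw [hV1, mul_one] at h2
    have h3 : (V : Set G).ncard = Nat.card V := rfl
    rw [h3]
    omega
  have hg0 : g₀ ∈ V := by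
    have h1 : g₀ ∈ N ⊓ V := by
      rw [← hO.gen]
      exact Subgroup.mem_zpowers g₀
    exact h1.2
  obtain ⟨κ, n, hn0, v, d, σ, hPln, hTwo⟩ := bdd1 (dat_neg hD) Q hI hall (M := k + 3) (by omega) (by omega) hT' hD.lvd hD.Tcl
    ii jj hi hj hD.ne hD.Tle hD.odd_al hD.odd_be (fun x y hx hy => Dat.two hx hy) hD.DA hD.al hD.be hD.symA hD.Dinv
    (dat_al hD) (dat_be hD) (dat_gen hD) hD.Dn ⟨_, ⟨false, rfl⟩⟩ ⟨_, ⟨false, rfl⟩⟩ hO.run hO.fpos hO.hf hO.lamN hO.hl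
    ((l₁ + B' + D₁ + l + 10) ^ 20) B' hnum2 hMV g₀ (hD.VT hg0) ((hD.lev_V _ (hD.VT hg0)).2 hg0)
    (by
      obtain ⟨w, h1, h2, h3⟩ := hO.gword
      exact ⟨w, h1.trans (Nat.le_add_right _ _), h2, h3⟩)
    (by
      intro κ a ha y hy h0 hay
      obtain ⟨w, h1, h2, h3⟩ := H24.one_word hD hV1 hay
      refine ⟨w, h1.trans (Nat.le_add_left _ _), h2.trans ?_, h3⟩
      have h4 := hD.lvd.lvf_mul κ a hay
      rw [mul_inv_cancel_left, h0, Nat.cast_zero, zero_add] at h4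
      have h5 : ((lvf T lev κ y : ℕ) : ZMod L) = (((lev (a⁻¹ * y)).val : ℕ) : ZMod L) := by
        rw [h4, ZMod.natCast_zmod_val]
      have h6 := (ZMod.natCast_eq_natCast_iff _ _ L).1 h5
      exact (h6.of_dvd (Dvd.intro _ hD.hL.symm)).symm)
  have hWrd : Wrd S eps.ker T L (lvf T lev κ) Nv l₁ D₁ :=
    H41.wrd_lvf hD.lvd κ hPln.circ hD.Nv_cen (fun y hy h0 => hD.NvV y hy ((hD.lev_V y (hD.NvT hy)).1 h0)) hO.cl hO.inv
  obtain ⟨W₀, hW0, hC⟩ := H25.cosetS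
  refine H41.lst_of_two hPln ⟨fun _ => false, fun O K E a b c d => hTwo (fun _ => false) O K E a b c d⟩ ?_
  intro c O K E a1 a2 a3 a4
  exact hC G S eps.ker T L (lvf T lev κ) A Nv l r lam f l₁ B' D₁ ((l₁ + B' + D₁ + l + 10) ^ 20) g₀ n v d σ hWrd hPln
    (hW0 l₁ B' D₁ l) c O K E a1 a2 a3 a4

end Pool.Agent.Lib.MP_688fd0_co.SQ7.H79
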