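import Pool.Agent.Lib.MP_688fd0_co.SQ7.H79.BddW

/-!
SQ7: the whole case `N_V = 1`: from the block trajectory, level data, a run and short words to a plan with at most two cycles.
-/

set_option autoImplicit false

namespace Pool.Agent.Lib.MP_688fd0_co.SQ7.H79

open Equiv
open Pool.Agent.Lib.MP_688fd0_co.SQ5.H12

variable {G : Type} [Group G]

section lv

variable {S : Lets G} {Γ T Nv : Subgroup G} {L p : ℕ} {h : G → ZMod L}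

/-- The level of a word. -/
theorem LvD.pw (H : LvD S Γ T Nv L p h) (mem : ∀ x, S.sv x ∈ T) (r : ℕ → Lt) (n : ℕ) :
    H25.pw (fun n => S.sv (r n)) n ∈ T ∧ h (H25.pw (fun n => S.sv (r n)) n) = n := by
  induction n with
  | zero => exact ⟨T.one_mem, by show h 1 = _; rw [H.one, Nat.cast_zero]⟩
  | succ n ih =>
    refine ⟨T.mul_mem ih.1 (mem _), ?_⟩
    show h (H25.pw (fun n => S.sv (r n)) n * S.sv (r n)) = _
    rw [H.mul _ ih.1 _ (mem _), ih.2, H.sv]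
    push_cast
    rfl

theorem LvD.run (H : LvD S Γ T Nv L p h) (mem : ∀ x, S.sv x ∈ T) {l : ℕ} {r : ℕ → Lt} {lam : G}
    (R : Run S T l r lam) (f : ℕ) : h (lam ^ f) = ((l * f : ℕ) : ZMod L) := by
  have h1 := H.pw mem r l
  rw [R.sea] at h1
  rw [H.pow h1.1, h1.2]
  push_cast
  ring

theorem LvD.lvf_eq [NeZero L] (H : LvD S Γ T Nv L p h) (κ : G ⧸ T → ZMod L) (x : G) {t : G} (ht : t ∈ T) :
    lvf T h κ (x * t) = lvf T h κ x ↔ h t = 0 := by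
  have h1 := H.lvf_mul κ x ht
  constructor
  · intro h2
    rw [h2] at h1
    exact left_eq_add.1 h1
  · intro h2
    rw [h2, add_zero] at h1
    have h3 := (ZMod.natCast_eq_natCast_iff' _ _ L).1 h1
    rwa [Nat.mod_eq_of_lt (show lvf T h κ (x * t) < L from ZMod.val_lt _),
      Nat.mod_eq_of_lt (show lvf T h κ x < L from ZMod.val_lt _)] at h3

end lv

section

variable {eps : G →* ℤˣ} {D A₀ A₁ : Set G} {S : Lets G} {T Nv : Subgroup G} {L p : ℕ} {h : G → ZMod L}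

/-- **The case `N_V = 1`.** -/
theorem bdd1 [Finite G] [DecidableEq G] [NeZero L] (hn : ∀ x ∈ D ∪ A₀ ∪ A₁, eps x = -1)
    {T' N' N0' Nv' : Subgroup eps.ker} (P : Blk (vl (A₀ := A₀) hn) T' N' N0' Nv') (I : P.Iso act)
    (hall : ∀ (s : Lb D A₀ A₁) (x : eps.ker), ∃ i < P.n, P.a i = s ∧ (P.p (i + 1))⁻¹ * x ∈ N' ∧
      (act s → i = 0 ∨ act (P.a (i - 1))))
    {M : ℕ} (hR : M + 3 ≤ P.R) (hR6 : 6 ≤ P.R) (hT' : ∀ x : eps.ker, x ∈ T' ↔ (x : G) ∈ T)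
    (H : LvD S eps.ker T Nv L p h) (gen : T = Subgroup.closure (Set.range S.sv)) (ii : A₀ → Bool) (jj : A₁ → Bool)
    (hi : ∀ c, S.al (ii c) = c) (hj : ∀ b, S.be (jj b) = b) (ne : S.al false ≠ S.al true) (le : T ≤ eps.ker)
    (odd_al : ∀ i, S.al i ∉ eps.ker) (odd_be : ∀ j, S.be j ∉ eps.ker)
    (two : ∀ x y : G, x ∉ eps.ker → y ∉ eps.ker → x⁻¹ * y ∈ eps.ker)
    {A : Set G} (hDA : D ⊆ A) (al : ∀ i, S.al i ∈ A) (be : ∀ j, S.be j ∈ A) (sym : ∀ x ∈ A, x⁻¹ ∈ A)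
    (hD : ∀ x ∈ D, x⁻¹ ∈ D) (h0 : ∀ x ∈ A₀, x⁻¹ ∈ A₀) (h1 : ∀ x ∈ A₁, x⁻¹ ∈ A₁)
    (hB : Subgroup.closure (D ∪ A₀ ∪ A₁) = ⊤) (nD : D.Nonempty) (n0 : A₀.Nonempty) (n1 : A₁.Nonempty)
    {l : ℕ} {r : ℕ → Lt} {lam : G} (run : Run S T l r lam) {f l₁ : ℕ} (fpos : 0 < f) (hf : l.factorial ∣ f)
    (lamN : lam ^ f ∈ Nv) (hl : l₁ ∣ l * f) (W B : ℕ)
    (hL : 1000 * ((2 * P.R + 1) * P.n ^ 2 + 1) * (l * f) *
      (4 ^ (10 * ((2 * P.R + 1) * P.n ^ 2) + 1) * (30 + 5 * W)) ≤ p)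
    (hM : {τ | τ ∈ T ∧ h τ = 0}.ncard ≤ M + 2)
    (g : G) (gT : g ∈ T) (g0 : h g = 0)
    (gword : ∃ w : List Lt, w.length ≤ B ∧ w.length ≡ L [MOD l₁] ∧ ((w.map S.sv).prod)⁻¹ * g ∈ Nv)
    (word : ∀ κ : G ⧸ T → ZMod L, ∀ a ∈ eps.ker, ∀ y ∈ eps.ker, lvf T h κ a = 0 → a⁻¹ * y ∈ T →
      ∃ w : List Lt, w.length ≤ B ∧ w.length ≡ lvf T h κ y [MOD l₁] ∧ ((w.map S.sv).prod)⁻¹ * (a⁻¹ * y) ∈ Nv) :
    ∃ (κ : G ⧸ T → ZMod L) (n : ℕ) (hn0 : 0 < n) (v : ℕ → Vst G) (d : ℕ → G) (σ : ℕ → ℕ),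
      Pln S eps.ker T L (lvf T h κ) A Nv l r lam f l₁ B W g n v d σ ∧
      ∀ (c : ℕ → Bool) (O K : Perm (Tok eps.ker (lvf T h κ) n)) (E : ℕ → Perm (Tok eps.ker (lvf T h κ) n)),
        (∀ x y : Col eps.ker (lvf T h κ), y.1 = x.1 * g → O (Sum.inl x) = Sum.inl y) →
        (∀ t, O (Sum.inr t) = Sum.inr (thr n t)) →
        (∀ k ≤ n, ∀ (t : Fin (n + 1)) (a w : Col eps.ker (lvf T h κ)), t.1 = σ k → a.1 = (v t.1).col (c t.1) →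
          w.1 = (v t.1).w S * a.1 → E k = evis eps.ker (lvf T h κ) n t (v t.1).tw.isSome a w) →
        K = kpr E (n + 1) →
        ∀ x, (O * K).SameCycle x (Sum.inr ⟨n - 1, by omega⟩) ∨ (O * K).SameCycle x (Sum.inr (Fin.last n)) := by
  classical
  have mem : ∀ x, S.sv x ∈ T := fun x => by rw [gen]; exact Subgroup.subset_closure ⟨x, rfl⟩
  have hTA : ∀ c ∈ A₀, ∀ b ∈ A₁, c * b⁻¹ ∈ T := by
    intro c hc b hb
    have h2 := mem (ii ⟨c, hc⟩, jj ⟨b, hb⟩)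
    have e : S.sv (ii ⟨c, hc⟩, jj ⟨b, hb⟩) = c * b⁻¹ := by
      show S.al (ii ⟨c, hc⟩) * (S.be (jj ⟨b, hb⟩))⁻¹ = _
      rw [hi, hj]
    rwa [e] at h2
  obtain ⟨n, hn1, hn2, hn3, hBW⟩ := bddW P I hall hR hR6 hT' le hTA hD h0 h1 hB nD n0 n1
  have hu : 1 ≤ l * f := Nat.mul_pos run.pos fpos
  obtain ⟨κ, m, σ, hW, hy⟩ := exists_walk hn P hT' H ii jj hi hj ne mem le odd_al odd_be two hDA lamN hu
    (H.run mem run f) W (by omega) hn2 hn3 hL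
  have hn0 : 0 < n := by omega
  have hyT : ∀ t, ((P.w t : eps.ker) : G)⁻¹ * ypos S (lam ^ f) ii jj P.lab m t ∈ T := by
    intro t
    have h2 := T.mul_mem (H.nle (hy t)) (T.inv_mem (tws_mem mem (twt ii jj P.lab t)))
    have e : ((P.w t : eps.ker) : G)⁻¹ * (ypos S (lam ^ f) ii jj P.lab m t * tws S (twt ii jj P.lab t)) *
        (tws S (twt ii jj P.lab t))⁻¹ = ((P.w t : eps.ker) : G)⁻¹ * ypos S (lam ^ f) ii jj P.lab m t := by group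
    rwa [e] at h2
  have hb := hBW S (lam ^ f) ii jj m hyT
  set v := vis S (lam ^ f) ii jj P.lab m n with hv
  have hc : Circ S eps.ker T L (lvf T h κ) := hW.circ
  have hg0 : ∀ x ∈ eps.ker, lvf T h κ x = 0 → lvf T h κ (x * g) = 0 := fun x _ hx => by
    rw [(H.lvf_eq κ x gT).2 g0, hx]
  have hM' : {τ | τ ∈ T ∧ ∀ x ∈ eps.ker, lvf T h κ (x * τ) = lvf T h κ x}.ncard ≤ M + 2 := by
    refine le_trans (Set.ncard_le_ncard ?_ (Set.toFinite _)) hM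
    rintro τ ⟨h2, h3⟩
    exact ⟨h2, (H.lvf_eq κ 1 h2).1 (h3 1 eps.ker.one_mem)⟩
  obtain ⟨a, ha1, ha2⟩ := H58.bddI S eps.ker T L (lvf T h κ) hc gen g gT hg0 n hn0 v hW.yΓ σ hW.σlt hW.σinj
    (fun t => (v t).act = true) hb.hA hb.hAn hb.hAn' hb.hpas hb.hX M hM' hb.hQ 1 eps.ker.one_mem hb.hconn
  refine ⟨κ, n, hn0, setA v fun t _ => a t, fun t => ld (P.lab t), σ, ?_, ?_⟩
  · refine hW.pln run fpos hf lamN hl al be sym (fun t _ => a t) (fun t ht _ => ?_) (fun t ht _ => ?_) (fun t ht _ => ?_)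
      ⟨gT, hg0⟩ gword
    · obtain ⟨-, k2, k3, -⟩ := ha1 t ht
      exact ⟨k3, k2⟩
    · exact (ha1 t ht).2.2.2
    · obtain ⟨k1, k2, k3, -⟩ := ha1 t ht
      exact word κ (a t) k1 (v t).y (hW.yΓ t ht) k2 k3
  · intro c O K E hO hO' hE hK
    exact ha2 (setA v fun t _ => a t) (fun t _ => ⟨rfl, rfl, fun _ => rfl⟩) c O K E hO hO' hE hK

end

end Pool.Agent.Lib.MP_688fd0_co.SQ7.H79
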