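import Pool.Agent.Lib.MP_688fd0_co.SQ7.H79.Walk
import Pool.Agent.Lib.MP_688fd0_co.SQ7.H58.BddI

/-!
SQ7, row BddW: the hypotheses of `H58.bddI` (case `N_V = 1`) for the walk of a block trajectory.
-/

set_option autoImplicit false

namespace Pool.Agent.Lib.MP_688fd0_co.SQ7.H79

open Relation
open Function (Injective)
open Pool.Agent.Lib.MP_688fd0_co.SQ5.H12

variable {G : Type} [Group G]

/-- The hypotheses of `H58.bddI`, for `A t := (v t).act = true`. -/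
structure BW (Γ T : Subgroup G) (n M : ℕ) (v : ℕ → Vst G) : Prop where
  hA : ∀ t ≤ n, (v t).act = true → (v t).tw = none
  hAn : (v n).act = true
  hAn' : (v (n - 1)).act = true
  hpas : ∀ t < n, ¬ (v t).act = true → 0 < t ∧ (v (t - 1)).act = true
  hX : ∀ x ∈ Γ, ∃ t ≤ n, (v t).act = true ∧ x⁻¹ * (v t).y ∈ T
  hQ : ∀ x ∈ Γ, ∃ f : Fin M → ℕ, Injective f ∧
    ∀ i, f i ≤ n ∧ ¬ (v (f i)).act = true ∧ x⁻¹ * (v (f i)).y ∈ T ∧ (v (f i)).tw = none
  hconn : ∀ x ∈ Γ, ∃ x', x⁻¹ * x' ∈ T ∧ ReflTransGen (fun a b => H58.Thr T v n (fun t => (v t).act = true) a b ∨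
    H58.Thr T v n (fun t => (v t).act = true) b a) 1 x'

section

variable {eps : G →* ℤˣ} {D A₀ A₁ : Set G} {T : Subgroup G}

theorem vis_act (S : Lets G) (z : G) (ii : A₀ → Bool) (jj : A₁ → Bool) (lab : ℕ → Lb D A₀ A₁) (m : ℕ → ℕ) (n t : ℕ) :
    (vis S z ii jj lab m n t).act = true ↔ t = 0 ∨ act (lab (t - 1)) := by
  rcases t with _ | t
  · exact ⟨fun _ => Or.inl rfl, fun _ => rfl⟩
  · show lact (lab t) = true ↔ _
    rw [lact_iff, Nat.add_sub_cancel]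
    exact ⟨fun h => Or.inr h, fun h => h.resolve_left (Nat.succ_ne_zero t)⟩

theorem vis_tw (S : Lets G) (z : G) (ii : A₀ → Bool) (jj : A₁ → Bool) (lab : ℕ → Lb D A₀ A₁) (m : ℕ → ℕ) (n t : ℕ)
    (h : (vis S z ii jj lab m n t).act = true) : (vis S z ii jj lab m n t).tw = none := by
  rcases t with _ | t
  · rfl
  · have h1 : lact (lab t) = true := h
    show ltw ii jj (lab t) = none
    generalize lab t = s at h1
    rcases s with s | s
    · rfl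
    · exact absurd h1 Bool.false_ne_true

variable {hn : ∀ x ∈ D ∪ A₀ ∪ A₁, eps x = -1} {T' N' N0' Nv' : Subgroup eps.ker}

/-- Copies of a label in a given class. -/
theorem hitc (P : Blk (vl (A₀ := A₀) hn) T' N' N0' Nv') (I : P.Iso act)
    (hall : ∀ (s : Lb D A₀ A₁) (x : eps.ker), ∃ i < P.n, P.a i = s ∧ (P.p (i + 1))⁻¹ * x ∈ N' ∧
      (act s → i = 0 ∨ act (P.a (i - 1)))) {n e : ℕ} (hn0 : 0 < n) (hτ : P.τ ≤ n + e) (s : Lb D A₀ A₁) (x : eps.ker) :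
    ∃ f : Fin (P.R - e) → ℕ, Injective f ∧ ∀ k, f k + 1 < n ∧ P.lab (f k) = s ∧ (P.w (f k + 1))⁻¹ * x ∈ N0' ∧
      (act s → f k = 0 ∨ act (P.lab (f k - 1))) := by
  obtain ⟨i, hi, h1, h2, h3⟩ := hall s x
  obtain ⟨t, g1, g2, g3, g4⟩ := P.hit_lab hi h2
  obtain ⟨f, hf, hk⟩ := Blk.Iso.rounds_end' P I (m := n - 1) (e := e) (by omega) g1
  refine ⟨f, hf, fun k => ?_⟩
  obtain ⟨k1, -, k3, k4, -, k6⟩ := hk k
  refine ⟨by omega, by rw [k3, g2, h1], ?_, fun hs => ?_⟩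
  · have h4 : (P.w (t + 1))⁻¹ * P.w (f k + 1) ∈ N0' := by
      rw [P.w_succ, P.w_succ, k3]
      have e : (P.w t * vl hn (P.lab t))⁻¹ * (P.w (f k) * vl hn (P.lab t)) =
          (vl hn (P.lab t))⁻¹ * ((P.w t)⁻¹ * P.w (f k)) * ((vl hn (P.lab t))⁻¹)⁻¹ := by group
      rw [e]
      exact P.nN0.conj_mem _ (P.le k4) _
    have h5 := N0'.mul_mem (N0'.inv_mem h4) g3
    have e : ((P.w (t + 1))⁻¹ * P.w (f k + 1))⁻¹ * ((P.w (t + 1))⁻¹ * x) = (P.w (f k + 1))⁻¹ * x := by group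
    rwa [e] at h5
  · rcases Nat.eq_zero_or_pos (f k) with h4 | h4
    · exact Or.inl h4
    · exact Or.inr (k6 h4 (g4 act I (h3 hs)))

/-- **BddW.** -/
theorem bddW (P : Blk (vl (A₀ := A₀) hn) T' N' N0' Nv') (I : P.Iso act)
    (hall : ∀ (s : Lb D A₀ A₁) (x : eps.ker), ∃ i < P.n, P.a i = s ∧ (P.p (i + 1))⁻¹ * x ∈ N' ∧
      (act s → i = 0 ∨ act (P.a (i - 1))))
    {M : ℕ} (hR : M + 3 ≤ P.R) (hR6 : 6 ≤ P.R) (hT' : ∀ x : eps.ker, x ∈ T' ↔ (x : G) ∈ T)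
    (le : T ≤ eps.ker) (hTA : ∀ c ∈ A₀, ∀ b ∈ A₁, c * b⁻¹ ∈ T) (hD : ∀ x ∈ D, x⁻¹ ∈ D) (h0 : ∀ x ∈ A₀, x⁻¹ ∈ A₀)
    (h1 : ∀ x ∈ A₁, x⁻¹ ∈ A₁) (hB : Subgroup.closure (D ∪ A₀ ∪ A₁) = ⊤) (nD : D.Nonempty) (n0 : A₀.Nonempty)
    (n1 : A₁.Nonempty) :
    ∃ n, 1 < n ∧ n < P.τ ∧ act (P.lab (n - 1)) ∧ ∀ (S : Lets G) (z : G) (ii : A₀ → Bool) (jj : A₁ → Bool) (m : ℕ → ℕ),
      (∀ t, ((P.w t : eps.ker) : G)⁻¹ * ypos S z ii jj P.lab m t ∈ T) →
        BW eps.ker T n M (vis S z ii jj P.lab m n) := by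
  obtain ⟨m₀, e1, e2, e3, e4, e5⟩ := I.end_visit2 (by omega)
  refine ⟨m₀ + 1, by omega, e2, e4, ?_⟩
  intro S z ii jj m hy
  have hit := fun s x => hitc P I hall (n := m₀ + 1) (e := 3) (by omega) (by omega) s x
  obtain ⟨d₀, hd₀⟩ := nD
  obtain ⟨b₀, hb₀⟩ := n1
  obtain ⟨c₀, hc₀⟩ := n0
  set v := vis S z ii jj P.lab m (m₀ + 1) with hv
  have hvy : ∀ t, (v t).y = ypos S z ii jj P.lab m t := fun _ => rfl
  -- a visit in the coset of `x`
  have hcos : ∀ (x : eps.ker) (t : ℕ), (P.w t)⁻¹ * x ∈ N0' → (x : G)⁻¹ * (v t).y ∈ T := by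
    intro x t h
    have h2 := (hT' _).1 (P.N0_T h)
    have h3 := T.mul_mem (T.inv_mem h2) (hy t)
    have e : (((P.w t)⁻¹ * x : eps.ker) : G)⁻¹ * (((P.w t : eps.ker) : G)⁻¹ * ypos S z ii jj P.lab m t) =
        (x : G)⁻¹ * ypos S z ii jj P.lab m t := by
      push_cast
      group
    rwa [e] at h3
  have hthr : ∀ x ∈ eps.ker, ∀ d : D, ∀ b : A₁, H58.Thr T v (m₀ + 1) (fun t => (v t).act = true) x
      (x * ((d : G) * (b : G)⁻¹)⁻¹) := by
    intro x hx d b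
    obtain ⟨f, hf, hk⟩ := hit (Sum.inl (d, b, true)) ⟨x, hx⟩
    have hle : 3 ≤ P.R - 3 := by omega
    refine ⟨fun i => f (Fin.castLE hle i) + 1, ?_, fun i => ?_⟩
    · intro i j hij
      exact Fin.castLE_injective hle (hf (Nat.succ_injective hij))
    · obtain ⟨k1, k2, k3, k4⟩ := hk (Fin.castLE hle i)
      refine ⟨Nat.succ_pos _, k1, ?_, ?_, ?_, ?_⟩
      · show (v (f (Fin.castLE hle i) + 1)).act = true
        rw [hv, vis_act]
        refine Or.inr ?_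
        rw [Nat.add_sub_cancel, k2]
        exact rfl
      · show (v (f (Fin.castLE hle i) + 1 - 1)).act = true
        rw [Nat.add_sub_cancel, hv, vis_act]
        exact k4 rfl
      · exact hcos ⟨x, hx⟩ _ k3
      · show (x * ((d : G) * (b : G)⁻¹)⁻¹)⁻¹ * (v (f (Fin.castLE hle i) + 1 - 1)).y ∈ T
        rw [Nat.add_sub_cancel]
        have hq : ((vl (A₀ := A₀) hn (Sum.inl (d, b, true)) : eps.ker) : G) = (d : G) * (b : G)⁻¹ := by simp [vl, wd]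
        have h2 := hcos (⟨x, hx⟩ * (vl (A₀ := A₀) hn (Sum.inl (d, b, true)))⁻¹) (f (Fin.castLE hle i)) (by
          rw [P.w_succ, k2] at k3
          have h3 := P.nN0.conj_mem _ k3 (vl (A₀ := A₀) hn (Sum.inl (d, b, true)))
          have e : vl (A₀ := A₀) hn (Sum.inl (d, b, true)) * ((P.w (f (Fin.castLE hle i)) *
              vl (A₀ := A₀) hn (Sum.inl (d, b, true)))⁻¹ * ⟨x, hx⟩) * (vl (A₀ := A₀) hn (Sum.inl (d, b, true)))⁻¹ =
              (P.w (f (Fin.castLE hle i)))⁻¹ * (⟨x, hx⟩ * (vl (A₀ := A₀) hn (Sum.inl (d, b, true)))⁻¹) := by group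
          rwa [e] at h3)
        rw [Subgroup.coe_mul, Subgroup.coe_inv, hq] at h2
        exact h2
  refine ⟨fun t _ h => ?_, ?_, ?_, ?_, ?_, ?_, ?_⟩
  · exact vis_tw S z ii jj P.lab m (m₀ + 1) t h
  · rw [hv, vis_act]
    exact Or.inr e4
  · rw [hv, vis_act]
    exact Or.inr (by rw [Nat.add_sub_cancel]; exact e5)
  · intro t ht h
    rw [hv, vis_act] at h
    push Not at h
    obtain ⟨h2, h3⟩ := h
    obtain ⟨-, -, h4, -⟩ := I.passive (t := t - 1) (by omega) h3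
    refine ⟨by omega, ?_⟩
    rw [hv, vis_act]
    exact Or.inr h4
  · intro x hx
    obtain ⟨f, hf, hk⟩ := hit (Sum.inl (⟨d₀, hd₀⟩, ⟨b₀, hb₀⟩, true)) ⟨x, hx⟩
    obtain ⟨k1, k2, k3, k4⟩ := hk ⟨0, by omega⟩
    refine ⟨f ⟨0, by omega⟩ + 1, by omega, ?_, hcos ⟨x, hx⟩ _ k3⟩
    rw [hv, vis_act, Nat.add_sub_cancel, k2]
    exact Or.inr rfl
  · intro x hx
    obtain ⟨f, hf, hk⟩ := hit (Sum.inl (⟨d₀, hd₀⟩, ⟨b₀, hb₀⟩, false)) ⟨x, hx⟩
    have hle : M ≤ P.R - 3 := by omega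
    refine ⟨fun i => f (Fin.castLE hle i) + 1, ?_, fun i => ?_⟩
    · intro i j hij
      exact Fin.castLE_injective hle (hf (Nat.succ_injective hij))
    · obtain ⟨k1, k2, k3, k4⟩ := hk (Fin.castLE hle i)
      refine ⟨?_, ?_, hcos ⟨x, hx⟩ _ k3, ?_⟩
      · show f (Fin.castLE hle i) + 1 ≤ m₀ + 1
        omega
      · show ¬ (v (f (Fin.castLE hle i) + 1)).act = true
        rw [hv, vis_act, Nat.add_sub_cancel, k2]
        rintro (h2 | h2)
        · exact Nat.succ_ne_zero _ h2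
        · exact Bool.false_ne_true h2
      · show ltw ii jj (P.lab (f (Fin.castLE hle i))) = none
        rw [k2]
        rfl
  · -- connectivity
    set Rl : G → G → Prop := fun a b => H58.Thr T v (m₀ + 1) (fun t => (v t).act = true) a b ∨
      H58.Thr T v (m₀ + 1) (fun t => (v t).act = true) b a with hRl
    have hinv : ∀ a a' b b', a⁻¹ * a' ∈ T → b⁻¹ * b' ∈ T → H58.Thr T v (m₀ + 1) (fun t => (v t).act = true) a b →
        H58.Thr T v (m₀ + 1) (fun t => (v t).act = true) a' b' := by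
      rintro a a' b b' ha hb ⟨t, h2, h3⟩
      refine ⟨t, h2, fun i => ?_⟩
      obtain ⟨k1, k2, k3, k4, k5, k6⟩ := h3 i
      refine ⟨k1, k2, k3, k4, ?_, ?_⟩
      · have h4 := T.mul_mem (T.inv_mem ha) k5
        have e : (a⁻¹ * a')⁻¹ * (a⁻¹ * (v (t i)).y) = a'⁻¹ * (v (t i)).y := by group
        rwa [e] at h4
      · have h4 := T.mul_mem (T.inv_mem hb) k6
        have e : (b⁻¹ * b')⁻¹ * (b⁻¹ * (v (t i - 1)).y) = b'⁻¹ * (v (t i - 1)).y := by group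
        rwa [e] at h4
    have hsym : ∀ a b, Rl a b → Rl b a := fun a b h => h.symm
    set U : Set G := (T : Set G) ∪ {g | ∃ d ∈ D, ∃ b ∈ A₁, g = d * b⁻¹} with hU
    have hDU : ∀ d ∈ D, ∀ b ∈ A₁, d * b⁻¹ ∈ Subgroup.closure U := fun d hd b hb =>
      Subgroup.subset_closure (Or.inr ⟨d, hd, b, hb, rfl⟩)
    have hAU : ∀ c ∈ A₀, ∀ b ∈ A₁, c * b⁻¹ ∈ Subgroup.closure U := fun c hc b hb =>
      Subgroup.subset_closure (Or.inl (hTA c hc b hb))
    have hDAU : ∀ x ∈ D ∪ A₀, ∀ b ∈ A₁, x * b⁻¹ ∈ Subgroup.closure U := by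
      rintro x (hx | hx) b hb
      · exact hDU x hx b hb
      · exact hAU x hx b hb
    have hker : eps.ker ≤ Subgroup.closure U := by
      refine ker_le (B := D ∪ A₀ ∪ A₁) ?_ hn hB _ ?_
      · rintro x ((hx | hx) | hx)
        · exact Or.inl (Or.inl (hD x hx))
        · exact Or.inl (Or.inr (h0 x hx))
        · exact Or.inr (h1 x hx)
      · rintro x (hx | hx) y (hy' | hy')
        · have h2 := Subgroup.mul_mem _ (hDAU x hx b₀ hb₀) (Subgroup.inv_mem _ (hDAU y hy' b₀ hb₀))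
          have e : x * b₀⁻¹ * (y * b₀⁻¹)⁻¹ = x * y⁻¹ := by group
          rwa [e] at h2
        · exact hDAU x hx y hy'
        · have h2 := Subgroup.inv_mem _ (hDAU y hy' x hx)
          have e : (y * x⁻¹)⁻¹ = x * y⁻¹ := by group
          rwa [e] at h2
        · have h2 := Subgroup.mul_mem _ (Subgroup.inv_mem _ (hAU c₀ hc₀ x hx)) (hAU c₀ hc₀ y hy')
          have e : (c₀ * x⁻¹)⁻¹ * (c₀ * y⁻¹) = x * y⁻¹ := by group
          rwa [e] at h2
    have hdb : ∀ d ∈ D, ∀ b ∈ A₁, d * b⁻¹ ∈ eps.ker := by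
      intro d hd b hb
      rw [MonoidHom.mem_ker, map_mul, map_inv, hn d (Or.inl (Or.inl hd)), hn b (Or.inr hb)]
      rfl
    have hind : ∀ x ∈ Subgroup.closure U, x ∈ eps.ker ∧ ∃ x', x⁻¹ * x' ∈ T ∧ ReflTransGen Rl 1 x' := by
      intro x hx
      induction hx using Subgroup.closure_induction_right with
      | one => exact ⟨eps.ker.one_mem, 1, by rw [inv_one, mul_one]; exact T.one_mem, ReflTransGen.refl⟩
      | mul_right x _ y hy' ih =>
        obtain ⟨i1, x', i2, i3⟩ := ih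
        rcases hy' with hy' | ⟨d, hd, b, hb, rfl⟩
        · refine ⟨eps.ker.mul_mem i1 (le hy'), x', ?_, i3⟩
          have h2 := T.mul_mem (T.inv_mem hy') i2
          have e : y⁻¹ * (x⁻¹ * x') = (x * y)⁻¹ * x' := by group
          rwa [e] at h2
        · refine ⟨eps.ker.mul_mem i1 (hdb d hd b hb), x * (d * b⁻¹), by rw [inv_mul_cancel]; exact T.one_mem,
            i3.tail (Or.inr ?_)⟩
          have h2 := hthr (x * (d * b⁻¹)) (eps.ker.mul_mem i1 (hdb d hd b hb)) ⟨d, hd⟩ ⟨b, hb⟩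
          rw [mul_inv_cancel_right] at h2
          exact hinv _ _ _ _ (by rw [inv_mul_cancel]; exact T.one_mem) i2 h2
      | mul_inv_cancel x _ y hy' ih =>
        obtain ⟨i1, x', i2, i3⟩ := ih
        rcases hy' with hy' | ⟨d, hd, b, hb, rfl⟩
        · refine ⟨eps.ker.mul_mem i1 (eps.ker.inv_mem (le hy')), x', ?_, i3⟩
          have h2 := T.mul_mem hy' i2
          have e : y * (x⁻¹ * x') = (x * y⁻¹)⁻¹ * x' := by group
          rwa [e] at h2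
        · refine ⟨eps.ker.mul_mem i1 (eps.ker.inv_mem (hdb d hd b hb)), x * (d * b⁻¹)⁻¹,
            by rw [inv_mul_cancel]; exact T.one_mem, i3.tail (Or.inl ?_)⟩
          exact hinv _ _ _ _ i2 (by rw [inv_mul_cancel]; exact T.one_mem) (hthr x i1 ⟨d, hd⟩ ⟨b, hb⟩)
    intro x hx
    exact (hind x (hker hx)).2

end

end Pool.Agent.Lib.MP_688fd0_co.SQ7.H79
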