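import Pool.Agent.Lib.MP_688fd0_co.SQ5.H12.Traj

/-!
The block trajectory of SQ7 (B1FULL), group part.

`a` is a sequence of labels of period `n` (a balanced walk: its value `λ` is central, its prefixes meet all classes modulo
`N`), whose prefix of length `n₁` has a value `y ∈ N`; `N` is generated by `y`, `λ` and `N0 = N ⊓ T`; the vertical part is
`Nv ≤ N0`. A block is `a` repeated `R m` times (`m` the order of `λ` modulo `N0`), followed by the first `n₁` labels; there are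
`q₂` blocks (`q₂` the order of `y` modulo `λ` and `N0`). Every coset of `T` (every class modulo `N0`) is met; every step of the
trajectory occurs `R` times at the same place modulo `Nv`; few visits, few types of pairs of visits.
-/

set_option autoImplicit false

namespace Pool.Agent.Lib.MP_688fd0_co.SQ7.H79

open Finset Pool.Agent.Lib.MP_688fd0_co.SQ5.H12

variable {Q : Type*} [Group Q] {Λ : Type*}

/-- The data of a block trajectory. -/
structure Blk (q : Λ → Q) (T N N0 Nv : Subgroup Q) where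
  n : ℕ
  n₁ : ℕ
  R : ℕ
  m : ℕ
  q₂ : ℕ
  a : ℕ → Λ
  n_pos : 0 < n
  R_pos : 2 ≤ R
  m_pos : 0 < m
  q₂_pos : 0 < q₂
  n₁_le : n₁ ≤ n
  per : ∀ t, a (t + n) = a t
  notT : ∀ t, q (a t) ∉ T
  nN : N.Normal
  nN0 : N0.Normal
  comm : ∀ x ∈ N, ∀ y ∈ N, x * y = y * x
  inf : ∀ x, x ∈ N0 ↔ x ∈ N ∧ x ∈ T
  lam : pre (fun t => q (a t)) n ∈ N
  cen : ∀ x : Q, x * pre (fun t => q (a t)) n = pre (fun t => q (a t)) n * x
  yN : pre (fun t => q (a t)) n₁ ∈ N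
  all : ∀ x : Q, ∃ i < n, (pre (fun t => q (a t)) i)⁻¹ * x ∈ N
  le : Nv ≤ N0
  ordy : ∀ c d : ℤ, pre (fun t => q (a t)) n₁ ^ c * pre (fun t => q (a t)) n ^ d ∈ N0 → (q₂ : ℤ) ∣ c
  ordl : ∀ d : ℤ, pre (fun t => q (a t)) n ^ d ∈ N0 → (m : ℤ) ∣ d
  lamv : pre (fun t => q (a t)) n ^ m ∈ Nv
  yq : ∃ d : ℤ, pre (fun t => q (a t)) n₁ ^ q₂ * pre (fun t => q (a t)) n ^ d ∈ N0
  gen : ∀ x ∈ N, ∃ c d : ℤ, x⁻¹ * (pre (fun t => q (a t)) n₁ ^ c * pre (fun t => q (a t)) n ^ d) ∈ N0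

namespace Blk

variable {q : Λ → Q} {T N N0 Nv : Subgroup Q} (P : Blk q T N N0 Nv)

/-- The prefixes of the periodic walk. -/
def p (i : ℕ) : Q := pre (fun t => q (P.a t)) i

/-- The value of the balanced walk. -/
def lm : Q := P.p P.n

/-- The value of the prefix. -/
def y : Q := P.p P.n₁

/-- The length of a block. -/
def len : ℕ := P.R * P.m * P.n + P.n₁

/-- The length of the trajectory. -/
def τ : ℕ := P.q₂ * P.len

/-- The labels of the trajectory. -/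
def lab (t : ℕ) : Λ := P.a (t % P.len)

/-- The positions. -/
def w (t : ℕ) : Q := pre (fun t => q (P.lab t)) t

theorem len_pos : 0 < P.len := by
  have h : 0 < P.R * P.m * P.n := Nat.mul_pos (Nat.mul_pos (by have := P.R_pos; omega) P.m_pos) P.n_pos
  unfold len
  omega

theorem p_zero : P.p 0 = 1 := rfl

theorem p_per (j i : ℕ) : P.p (j * P.n + i) = P.lm ^ j * P.p i :=
  pre_per (s := fun t => q (P.a t)) (fun t => congrArg q (P.per t)) j i

theorem a_mod (i : ℕ) : P.a (i % P.n) = P.a i := by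
  conv_rhs => rw [← Nat.div_add_mod i P.n, mul_comm]
  exact (per_mul P.per _ _).symm

theorem lab_per (t : ℕ) : P.lab (t + P.len) = P.lab t := by
  unfold lab
  rw [Nat.add_mod_right]

theorem lab_block (j : ℕ) {o : ℕ} (ho : o < P.len) : P.lab (j * P.len + o) = P.a o := by
  unfold lab
  rw [mul_comm, Nat.mul_add_mod, Nat.mod_eq_of_lt ho]

theorem w_zero : P.w 0 = 1 := rfl

theorem w_succ (t : ℕ) : P.w (t + 1) = P.w t * q (P.lab t) := rfl

theorem w_small {o : ℕ} (ho : o ≤ P.len) : P.w o = P.p o := by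
  refine pre_congr fun i hi => ?_
  show q (P.lab i) = q (P.a i)
  have := P.lab_block 0 (lt_of_lt_of_le hi ho)
  rw [zero_mul, zero_add] at this
  rw [this]

theorem lm_cen (x : Q) : x * P.lm = P.lm * x := P.cen x

theorem lm_pow_cen (x : Q) (d : ℤ) : x * P.lm ^ d = P.lm ^ d * x :=
  (Commute.zpow_right (show Commute x P.lm from P.lm_cen x) d)

theorem lm_mem : P.lm ∈ N := P.lam

theorem y_mem : P.y ∈ N := P.yN

theorem y_lm : Commute P.y P.lm := P.lm_cen _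

/-- The value of a block. -/
theorem w_len : P.w P.len = P.lm ^ (P.R * P.m) * P.y := by
  rw [P.w_small le_rfl]
  exact P.p_per _ _

theorem w_block (j o : ℕ) (ho : o ≤ P.len) : P.w (j * P.len + o) = (P.lm ^ (P.R * P.m) * P.y) ^ j * P.p o := by
  have h : P.w (j * P.len + o) = P.w P.len ^ j * P.w o :=
    pre_per (s := fun t => q (P.lab t)) (fun t => congrArg q (P.lab_per t)) j o
  rw [h, P.w_len, P.w_small ho]

/-- The position at the place `i` of the round `r` of the block `j`. -/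
theorem w_form (j r i : ℕ) (h : r * P.n + i ≤ P.len) :
    P.w (j * P.len + (r * P.n + i)) = P.y ^ j * P.lm ^ (P.R * P.m * j + r) * P.p i := by
  rw [P.w_block _ _ h, P.p_per, (P.y_lm.symm.pow_left (P.R * P.m)).mul_pow, ← pow_mul, pow_add]
  have h1 : Commute (P.lm ^ (P.R * P.m * j)) (P.y ^ j) := P.y_lm.symm.pow_pow _ _
  rw [h1.eq]
  simp only [mul_assoc]

/-- Every time has a block, a round and a place. -/
theorem coords (t : ℕ) : ∃ j r i, t = j * P.len + (r * P.n + i) ∧ i < P.n ∧ r ≤ P.R * P.m ∧ r * P.n + i < P.len ∧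
    j = t / P.len := by
  have hl := P.len_pos
  refine ⟨t / P.len, (t % P.len) / P.n, (t % P.len) % P.n, ?_, Nat.mod_lt _ P.n_pos, ?_, ?_, rfl⟩
  · rw [Nat.div_add_mod' (t % P.len) P.n, Nat.div_add_mod' t P.len]
  · have h1 : t % P.len < P.len := Nat.mod_lt _ hl
    have h2 : t % P.len < (P.R * P.m + 1) * P.n := by
      refine lt_of_lt_of_le h1 ?_
      have := P.n₁_le
      unfold len
      rw [add_mul, one_mul]
      omega
    exact Nat.lt_succ_iff.1 ((Nat.div_lt_iff_lt_mul P.n_pos).2 h2)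
  · rw [Nat.div_add_mod']
    exact Nat.mod_lt _ hl

include P in
theorem Nv_T {x : Q} (h : x ∈ Nv) : x ∈ T := ((P.inf x).1 (P.le h)).2

include P in
theorem N0_T {x : Q} (h : x ∈ N0) : x ∈ T := ((P.inf x).1 h).2

theorem lmv (c : ℕ) : P.lm ^ (P.m * c) ∈ Nv := by
  rw [pow_mul]
  exact Nv.pow_mem P.lamv _

/-- Reduced coordinates of the elements of `N`. -/
theorem red {x : Q} (hx : x ∈ N) : ∃ j < P.q₂, ∃ r < P.m, x⁻¹ * (P.y ^ j * P.lm ^ r) ∈ N0 := by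
  obtain ⟨c, d, h⟩ := P.gen x hx
  obtain ⟨e, he⟩ := P.yq
  have hq : (0 : ℤ) < P.q₂ := by exact_mod_cast P.q₂_pos
  have hm : (0 : ℤ) < P.m := by exact_mod_cast P.m_pos
  set f : ℤ := d - e * (c / P.q₂) with hf
  refine ⟨(c % P.q₂).toNat, ?_, (f % P.m).toNat, ?_, ?_⟩
  · have := Int.emod_lt_of_pos c hq
    have := Int.emod_nonneg c hq.ne'
    omega
  · have := Int.emod_lt_of_pos f hm
    have := Int.emod_nonneg f hm.ne'
    omega
  · have e1 : (P.y ^ (c % P.q₂).toNat : Q) = P.y ^ (c % (P.q₂ : ℤ)) := by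
      conv_rhs => rw [← Int.toNat_of_nonneg (Int.emod_nonneg c hq.ne')]
      rw [zpow_natCast]
    have e2 : (P.lm ^ (f % P.m).toNat : Q) = P.lm ^ (f % (P.m : ℤ)) := by
      conv_rhs => rw [← Int.toNat_of_nonneg (Int.emod_nonneg f hm.ne')]
      rw [zpow_natCast]
    rw [e1, e2]
    have c1 : Commute P.y P.lm := P.y_lm
    -- `y ^ c λ ^ d = (y ^ (c % q) λ ^ (f % m)) * (y ^ q λ ^ e) ^ (c / q) * (λ ^ m) ^ (f / m)`
    have h1 : P.y ^ c * P.lm ^ d = P.y ^ (c % (P.q₂ : ℤ)) * P.lm ^ (f % (P.m : ℤ)) *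
        ((P.y ^ P.q₂ * P.lm ^ e) ^ (c / P.q₂) * (P.lm ^ P.m) ^ (f / P.m)) := by
      have h2 : (P.y ^ P.q₂ * P.lm ^ e) ^ (c / P.q₂) = P.y ^ ((P.q₂ : ℤ) * (c / P.q₂)) * P.lm ^ (e * (c / P.q₂)) := by
        have hc : Commute (P.y ^ P.q₂) (P.lm ^ e) := (c1.pow_left _).zpow_right _
        rw [hc.mul_zpow, ← zpow_natCast, ← zpow_mul, ← zpow_mul]
      have h3 : (P.lm ^ P.m) ^ (f / P.m) = P.lm ^ ((P.m : ℤ) * (f / P.m)) := by
        rw [← zpow_natCast, ← zpow_mul]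
      have h4 : P.lm ^ (f % (P.m : ℤ)) * (P.y ^ ((P.q₂ : ℤ) * (c / P.q₂)) * P.lm ^ (e * (c / P.q₂))) =
          P.y ^ ((P.q₂ : ℤ) * (c / P.q₂)) * (P.lm ^ (f % (P.m : ℤ)) * P.lm ^ (e * (c / P.q₂))) := by
        rw [← mul_assoc, ((c1.symm.zpow_left (f % (P.m : ℤ))).zpow_right ((P.q₂ : ℤ) * (c / P.q₂))).eq, mul_assoc]
      rw [h2, h3]
      have h5 : P.y ^ (c % (P.q₂ : ℤ)) * P.lm ^ (f % (P.m : ℤ)) *
          (P.y ^ ((P.q₂ : ℤ) * (c / P.q₂)) * P.lm ^ (e * (c / P.q₂)) * P.lm ^ ((P.m : ℤ) * (f / P.m))) =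
          P.y ^ (c % (P.q₂ : ℤ)) * (P.lm ^ (f % (P.m : ℤ)) *
            (P.y ^ ((P.q₂ : ℤ) * (c / P.q₂)) * P.lm ^ (e * (c / P.q₂)))) * P.lm ^ ((P.m : ℤ) * (f / P.m)) := by
        simp only [mul_assoc]
      rw [h5, h4]
      have h6 : P.y ^ (c % (P.q₂ : ℤ)) * (P.y ^ ((P.q₂ : ℤ) * (c / P.q₂)) *
          (P.lm ^ (f % (P.m : ℤ)) * P.lm ^ (e * (c / P.q₂)))) * P.lm ^ ((P.m : ℤ) * (f / P.m)) =
          (P.y ^ (c % (P.q₂ : ℤ)) * P.y ^ ((P.q₂ : ℤ) * (c / P.q₂))) *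
            (P.lm ^ (f % (P.m : ℤ)) * P.lm ^ (e * (c / P.q₂)) * P.lm ^ ((P.m : ℤ) * (f / P.m))) := by
        simp only [mul_assoc]
      rw [h6, ← zpow_add, ← zpow_add, ← zpow_add]
      congr 2
      · rw [Int.emod_add_mul_ediv]
      · have h7 := Int.emod_add_mul_ediv f P.m
        have h8 : f % (P.m : ℤ) + e * (c / P.q₂) + P.m * (f / P.m) = f + e * (c / P.q₂) := by linarith
        rw [h8, hf]
        ring
    have h7 : P.y ^ (c % (P.q₂ : ℤ)) * P.lm ^ (f % (P.m : ℤ)) = P.y ^ c * P.lm ^ d *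
        ((P.y ^ P.q₂ * P.lm ^ e) ^ (c / P.q₂) * (P.lm ^ P.m) ^ (f / P.m))⁻¹ := by
      rw [h1]; group
    rw [h7, ← mul_assoc]
    refine N0.mul_mem h (N0.inv_mem (N0.mul_mem (N0.zpow_mem he _) (N0.zpow_mem (P.le P.lamv) _)))

theorem mn_le : P.m * P.n < P.len := by
  have h1 : 2 * (P.m * P.n) ≤ P.R * (P.m * P.n) := Nat.mul_le_mul_right _ P.R_pos
  have h2 : 0 < P.m * P.n := Nat.mul_pos P.m_pos P.n_pos
  unfold len
  rw [mul_assoc]
  omega

/-- (a) Every class modulo `N0` is visited, at any place of the walk with the right class modulo `N`. -/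
theorem hit {i : ℕ} (hi : i ≤ P.n) {x : Q} (h : (P.p i)⁻¹ * x ∈ N) :
    ∃ j < P.q₂, ∃ r < P.m, (P.w (j * P.len + (r * P.n + i)))⁻¹ * x ∈ N0 := by
  have h1 : x * (P.p i)⁻¹ ∈ N := by
    have := P.nN.conj_mem _ h (P.p i)
    have e : P.p i * ((P.p i)⁻¹ * x) * (P.p i)⁻¹ = x * (P.p i)⁻¹ := by group
    rwa [e] at this
  obtain ⟨j, hj, r, hr, h2⟩ := P.red h1
  have h0 : r * P.n + i ≤ P.len := by
    have h3 : (r + 1) * P.n ≤ P.m * P.n := Nat.mul_le_mul_right _ hr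
    have h4 := P.mn_le
    rw [add_mul, one_mul] at h3
    omega
  refine ⟨j, hj, r, hr, ?_⟩
  · rw [P.w_form _ _ _ h0]
    have h3 : (x * (P.p i)⁻¹)⁻¹ * (P.y ^ j * P.lm ^ (P.R * P.m * j + r)) ∈ N0 := by
      have e : (x * (P.p i)⁻¹)⁻¹ * (P.y ^ j * P.lm ^ (P.R * P.m * j + r)) =
          (x * (P.p i)⁻¹)⁻¹ * (P.y ^ j * P.lm ^ r) * P.lm ^ (P.m * (P.R * j)) := by
        have e1 : P.R * P.m * j + r = r + P.m * (P.R * j) := by ring
        rw [e1, pow_add]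
        simp only [mul_assoc]
      rw [e]
      exact N0.mul_mem h2 (P.le (P.lmv _))
    have h5 := P.nN0.conj_mem _ (N0.inv_mem h3) (P.p i)⁻¹
    have e : (P.p i)⁻¹ * ((x * (P.p i)⁻¹)⁻¹ * (P.y ^ j * P.lm ^ (P.R * P.m * j + r)))⁻¹ * ((P.p i)⁻¹)⁻¹ =
        (P.y ^ j * P.lm ^ (P.R * P.m * j + r) * P.p i)⁻¹ * x := by group
    rw [e] at h5
    exact h5

theorem lt_τ {j o : ℕ} (hj : j < P.q₂) (ho : o < P.len) : j * P.len + o < P.τ := by
  unfold τ
  calc j * P.len + o < j * P.len + P.len := by omega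
    _ = (j + 1) * P.len := by ring
    _ ≤ P.q₂ * P.len := Nat.mul_le_mul_right _ hj

/-- Every coset of `T` is visited. -/
theorem visit (x : Q) : ∃ t < P.τ, (P.w t)⁻¹ * x ∈ T := by
  obtain ⟨i, hi, h⟩ := P.all x
  obtain ⟨j, hj, r, hr, h1⟩ := P.hit hi.le h
  refine ⟨_, P.lt_τ hj ?_, P.N0_T h1⟩
  have h3 : (r + 1) * P.n ≤ P.m * P.n := Nat.mul_le_mul_right _ hr
  have h4 := P.mn_le
  rw [add_mul, one_mul] at h3
  omega

/-- (b) Every step occurs `R` times at the same place modulo the vertical part. -/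
theorem triple {t : ℕ} (ht : t < P.τ) : ∃ f : Fin P.R → ℕ, Function.Injective f ∧
    ∀ k, f k < P.τ ∧ P.lab (f k) = P.lab t ∧ (P.w t)⁻¹ * P.w (f k) ∈ Nv := by
  obtain ⟨j, r, i, rfl, hi, hr, hlt, -⟩ := P.coords t
  have hn := P.n_pos
  have hm := P.m_pos
  have hoff : ∀ k : Fin P.R, (r % P.m + P.m * k) * P.n + i < P.len := by
    intro k
    have h1 : r % P.m < P.m := Nat.mod_lt _ hm
    have h2 : r % P.m + P.m * k + 1 ≤ P.R * P.m := by
      have h3 : P.m * ((k : ℕ) + 1) ≤ P.m * P.R := Nat.mul_le_mul_left _ k.2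
      rw [mul_add, mul_one, mul_comm P.m P.R] at h3
      omega
    have h3 : (r % P.m + P.m * k + 1) * P.n ≤ P.R * P.m * P.n := Nat.mul_le_mul_right _ h2
    rw [add_mul, one_mul] at h3
    unfold len
    omega
  refine ⟨fun k => j * P.len + ((r % P.m + P.m * k) * P.n + i), ?_, fun k => ⟨?_, ?_, ?_⟩⟩
  · intro k k' h
    have h1 : (r % P.m + P.m * (k : ℕ)) * P.n = (r % P.m + P.m * (k' : ℕ)) * P.n := by
      have : j * P.len + ((r % P.m + P.m * (k : ℕ)) * P.n + i) = j * P.len + ((r % P.m + P.m * (k' : ℕ)) * P.n + i) := h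
      omega
    have h2 := Nat.eq_of_mul_eq_mul_right hn h1
    have h3 : P.m * (k : ℕ) = P.m * (k' : ℕ) := by omega
    exact Fin.ext (Nat.eq_of_mul_eq_mul_left hm h3)
  · have h1 : j < P.q₂ := by
      by_contra hcon
      have : P.q₂ * P.len ≤ j * P.len := Nat.mul_le_mul_right _ (by omega)
      unfold τ at ht
      omega
    unfold τ
    have h2 := hoff k
    calc j * P.len + ((r % P.m + P.m * k) * P.n + i) < j * P.len + P.len := by omega
      _ = (j + 1) * P.len := by ring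
      _ ≤ P.q₂ * P.len := Nat.mul_le_mul_right _ h1
  · show P.lab (j * P.len + ((r % P.m + P.m * k) * P.n + i)) = _
    rw [P.lab_block j (hoff k), P.lab_block j hlt, per_mul P.per, per_mul P.per]
  · show _⁻¹ * P.w (j * P.len + ((r % P.m + P.m * k) * P.n + i)) ∈ Nv
    rw [P.w_form _ _ _ (hoff k).le, P.w_form _ _ _ hlt.le]
    have e1 : (P.lm ^ (P.R * P.m * j + r) : Q) = P.lm ^ (P.R * P.m * j + r % P.m) * P.lm ^ (P.m * (r / P.m)) := by
      rw [← pow_add]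
      congr 1
      have := Nat.mod_add_div r P.m
      omega
    have e2 : (P.lm ^ (P.R * P.m * j + (r % P.m + P.m * k)) : Q) =
        P.lm ^ (P.R * P.m * j + r % P.m) * P.lm ^ (P.m * (k : ℕ)) := by
      rw [← pow_add]
      congr 1
      omega
    have c1 : Commute (P.lm ^ (P.m * (r / P.m)))⁻¹ (P.p i) :=
      ((Commute.pow_right (show Commute (P.p i) P.lm from P.lm_cen _) _).symm).inv_left
    have c2 : Commute (P.lm ^ (P.m * (k : ℕ))) (P.p i) :=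
      (Commute.pow_right (show Commute (P.p i) P.lm from P.lm_cen _) _).symm
    have e3 : (P.y ^ j * P.lm ^ (P.R * P.m * j + r) * P.p i)⁻¹ *
        (P.y ^ j * P.lm ^ (P.R * P.m * j + (r % P.m + P.m * k)) * P.p i) =
        (P.lm ^ (P.m * (r / P.m)))⁻¹ * P.lm ^ (P.m * (k : ℕ)) := by
      rw [e1, e2]
      have : (P.y ^ j * (P.lm ^ (P.R * P.m * j + r % P.m) * P.lm ^ (P.m * (r / P.m))) * P.p i)⁻¹ *
          (P.y ^ j * (P.lm ^ (P.R * P.m * j + r % P.m) * P.lm ^ (P.m * (k : ℕ))) * P.p i) =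
          (P.p i)⁻¹ * ((P.lm ^ (P.m * (r / P.m)))⁻¹ * (P.lm ^ (P.m * (k : ℕ)) * P.p i)) := by group
      rw [this, c2.eq, ← mul_assoc ((P.lm ^ (P.m * (r / P.m)))⁻¹), c1.eq]
      group
    rw [e3]
    exact Nv.mul_mem (Nv.inv_mem (P.lmv _)) (P.lmv _)

/-- Two positions of one coset. -/
theorem key {i i' : ℕ} {c d c' d' : ℤ} (h : (P.p i)⁻¹ * (P.y ^ c * P.lm ^ d) * P.p i' ∈ T)
    (h' : (P.p i)⁻¹ * (P.y ^ c' * P.lm ^ d') * P.p i' ∈ T) :
    (P.q₂ : ℤ) ∣ c' - c ∧ (c' = c → (P.m : ℤ) ∣ d' - d) := by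
  have c1 : Commute P.y P.lm := P.y_lm
  have hx : (P.p i)⁻¹ * (P.y ^ (c' - c) * P.lm ^ (d' - d)) * P.p i ∈ T := by
    have := T.mul_mem h' (T.inv_mem h)
    have e : (P.p i)⁻¹ * (P.y ^ c' * P.lm ^ d') * P.p i' * ((P.p i)⁻¹ * (P.y ^ c * P.lm ^ d) * P.p i')⁻¹ =
        (P.p i)⁻¹ * (P.y ^ c' * (P.lm ^ d' * (P.lm ^ d)⁻¹) * (P.y ^ c)⁻¹) * P.p i := by group
    have e2 : P.y ^ c' * (P.lm ^ d' * (P.lm ^ d)⁻¹) * (P.y ^ c)⁻¹ = P.y ^ (c' - c) * P.lm ^ (d' - d) := by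
      rw [← zpow_neg, ← zpow_neg, ← zpow_add, mul_assoc (P.y ^ c'),
        ((c1.symm.zpow_left (d' + -d)).zpow_right (-c)).eq, ← mul_assoc, ← zpow_add, ← sub_eq_add_neg,
        ← sub_eq_add_neg]
    rwa [e, e2] at this
  have hN : P.y ^ (c' - c) * P.lm ^ (d' - d) ∈ N := N.mul_mem (N.zpow_mem P.y_mem _) (N.zpow_mem P.lm_mem _)
  have h3 : (P.p i)⁻¹ * (P.y ^ (c' - c) * P.lm ^ (d' - d)) * P.p i ∈ N := by
    have := P.nN.conj_mem _ hN (P.p i)⁻¹
    rwa [inv_inv] at this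
  have h4 := (P.inf _).2 ⟨h3, hx⟩
  have h5 := P.nN0.conj_mem _ h4 (P.p i)
  have e : P.p i * ((P.p i)⁻¹ * (P.y ^ (c' - c) * P.lm ^ (d' - d)) * P.p i) * (P.p i)⁻¹ =
      P.y ^ (c' - c) * P.lm ^ (d' - d) := by group
  rw [e] at h5
  refine ⟨P.ordy _ _ h5, fun hc => P.ordl _ ?_⟩
  rw [hc, sub_self, zpow_zero, one_mul] at h5
  exact h5

/-- The position of a time, as `y ^ c λ ^ d p i`. -/
theorem w_form' (j r i : ℕ) (h : r * P.n + i ≤ P.len) :
    P.w (j * P.len + (r * P.n + i)) = P.y ^ (j : ℤ) * P.lm ^ ((P.R * P.m * j + r : ℕ) : ℤ) * P.p i := by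
  rw [P.w_form _ _ _ h, zpow_natCast, zpow_natCast]

/-- The quotient of two positions. -/
theorem quot (j r i j' r' i' : ℕ) (h : r * P.n + i ≤ P.len) (h' : r' * P.n + i' ≤ P.len) :
    (P.w (j * P.len + (r * P.n + i)))⁻¹ * P.w (j' * P.len + (r' * P.n + i')) =
      (P.p i)⁻¹ * (P.y ^ ((j' : ℤ) - j) * P.lm ^ (P.R * (P.m : ℤ) * ((j' : ℤ) - j) + ((r' : ℤ) - r))) * P.p i' := by
  have c1 : Commute P.y P.lm := P.y_lm
  rw [P.w_form' _ _ _ h, P.w_form' _ _ _ h']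
  have e : (P.y ^ (j : ℤ) * P.lm ^ ((P.R * P.m * j + r : ℕ) : ℤ) * P.p i)⁻¹ *
      (P.y ^ (j' : ℤ) * P.lm ^ ((P.R * P.m * j' + r' : ℕ) : ℤ) * P.p i') =
      (P.p i)⁻¹ * ((P.lm ^ ((P.R * P.m * j + r : ℕ) : ℤ))⁻¹ * ((P.y ^ (j : ℤ))⁻¹ * P.y ^ (j' : ℤ)) *
        P.lm ^ ((P.R * P.m * j' + r' : ℕ) : ℤ)) * P.p i' := by group
  rw [e]
  congr 2
  rw [← zpow_neg, ← zpow_neg, ← zpow_add, ((c1.symm.zpow_left _).zpow_right _).eq, mul_assoc, ← zpow_add]
  congr 2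
  · ring
  · push_cast
    ring

theorem lt_q₂ {j o t : ℕ} (h : j * P.len + o < P.τ) : j < P.q₂ := by
  by_contra hcon
  have : P.q₂ * P.len ≤ j * P.len := Nat.mul_le_mul_right _ (by omega)
  unfold τ at h
  omega

/-- (c) At most `(R + 1) n` visits of a coset. -/
theorem few (x : Q) [DecidablePred fun t => (P.w t)⁻¹ * x ∈ T] :
    ((Finset.range P.τ).filter fun t => (P.w t)⁻¹ * x ∈ T).card ≤ (P.R + 1) * P.n := by
  classical
  have hn := P.n_pos
  have hm := P.m_pos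
  have hin : Set.InjOn (fun t : ℕ => ((t % P.len) % P.n, (t % P.len) / P.n / P.m))
      ((Finset.range P.τ).filter fun t => (P.w t)⁻¹ * x ∈ T : Finset _) := by
    intro t ht t' ht' heq
    rw [Finset.mem_coe, Finset.mem_filter, Finset.mem_range] at ht ht'
    obtain ⟨j, r, i, e, hi, hr, hlt, -⟩ := P.coords t
    obtain ⟨j', r', i', e', hi', hr', hlt', -⟩ := P.coords t'
    have hmod : ∀ j r i : ℕ, i < P.n → r * P.n + i < P.len → ((j * P.len + (r * P.n + i)) % P.len) % P.n = i ∧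
        ((j * P.len + (r * P.n + i)) % P.len) / P.n = r := by
      intro j r i hi hlt
      rw [mul_comm j, Nat.mul_add_mod, Nat.mod_eq_of_lt hlt, mul_comm r, Nat.mul_add_mod, Nat.mod_eq_of_lt hi,
        Nat.mul_add_div hn, Nat.div_eq_of_lt hi, add_zero]
      exact ⟨rfl, rfl⟩
    have hx : (P.w t)⁻¹ * P.w t' ∈ T := by
      have := T.mul_mem ht.2 (T.inv_mem ht'.2)
      have e : (P.w t)⁻¹ * x * ((P.w t')⁻¹ * x)⁻¹ = (P.w t)⁻¹ * P.w t' := by group
      rwa [e] at this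
    simp only [Prod.mk.injEq] at heq
    rw [e, e', (hmod _ _ _ hi hlt).1, (hmod _ _ _ hi hlt).2, (hmod _ _ _ hi' hlt').1, (hmod _ _ _ hi' hlt').2] at heq
    obtain ⟨rfl, hq⟩ := heq
    rw [e, e', P.quot _ _ _ _ _ _ hlt.le hlt'.le] at hx
    have h0 : (P.p i)⁻¹ * (P.y ^ (0 : ℤ) * P.lm ^ (0 : ℤ)) * P.p i ∈ T := by
      have : (P.p i)⁻¹ * (P.y ^ (0 : ℤ) * P.lm ^ (0 : ℤ)) * P.p i = 1 := by group
      rw [this]
      exact T.one_mem
    have h1 := P.key h0 hx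
    rw [sub_zero, sub_zero] at h1
    have hj : j < P.q₂ := P.lt_q₂ (t := 0) (e ▸ ht.1)
    have hj' : j' < P.q₂ := P.lt_q₂ (t := 0) (e' ▸ ht'.1)
    have h2 : (j' : ℤ) - j = 0 := by
      refine Int.eq_zero_of_abs_lt_dvd h1.1 ?_
      rw [abs_lt]
      constructor <;> omega
    have h3 := h1.2 h2
    rw [h2, mul_zero, zero_add] at h3
    have h4 : r % P.m = r' % P.m := (Nat.modEq_iff_dvd (n := P.m)).2 h3
    have h5 : r = r' := by
      rw [← Nat.div_add_mod r P.m, ← Nat.div_add_mod r' P.m, h4, hq]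
    have h6 : j = j' := by omega
    rw [e, e', h5, h6]
  have hmap : ∀ t ∈ ((Finset.range P.τ).filter fun t => (P.w t)⁻¹ * x ∈ T),
      ((t % P.len) % P.n, (t % P.len) / P.n / P.m) ∈ Finset.range P.n ×ˢ Finset.range (P.R + 1) := by
    intro t _
    rw [Finset.mem_product, Finset.mem_range, Finset.mem_range]
    refine ⟨Nat.mod_lt _ hn, ?_⟩
    obtain ⟨j, r, i, e, hi, hr, hlt, -⟩ := P.coords t
    show (t % P.len) / P.n / P.m < P.R + 1
    have : (t % P.len) / P.n ≤ P.R * P.m := by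
      rw [e, mul_comm j, Nat.mul_add_mod, Nat.mod_eq_of_lt hlt, mul_comm r, Nat.mul_add_div hn, Nat.div_eq_of_lt hi,
        add_zero]
      exact hr
    rw [Nat.div_lt_iff_lt_mul hm, add_mul, one_mul]
    omega
  have := Finset.card_le_card_of_injOn _ hmap hin
  rwa [Finset.card_product, Finset.card_range, Finset.card_range, mul_comm] at this

/-- The pairs of visits of one coset. -/
noncomputable def pairs : Finset (ℕ × ℕ) := by
  classical
  exact (Finset.range P.τ ×ˢ Finset.range P.τ).filter fun a => a.1 < a.2 ∧ (P.w a.1)⁻¹ * P.w a.2 ∈ T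

/-- The types of pairs of visits: (element of `T`, difference of the times). -/
noncomputable def types : Finset (Q × ℕ) := by
  classical
  exact P.pairs.image fun a => ((P.w a.1)⁻¹ * P.w a.2, a.2 - a.1)

theorem mem_pairs {t t' : ℕ} : (t, t') ∈ P.pairs ↔ t < t' ∧ t' < P.τ ∧ (P.w t)⁻¹ * P.w t' ∈ T := by
  classical
  unfold pairs
  rw [Finset.mem_filter, Finset.mem_product, Finset.mem_range, Finset.mem_range]
  constructor
  · rintro ⟨⟨h1, h2⟩, h3, h4⟩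
    exact ⟨h3, h2, h4⟩
  · rintro ⟨h1, h2, h3⟩
    exact ⟨⟨h1.trans h2, h2⟩, h1, h3⟩

/-- The key of a pair. -/
def kf (a : ℕ × ℕ) : (ℕ × ℕ) × ℤ :=
  (((a.1 % P.len) % P.n, (a.2 % P.len) % P.n),
    (((a.2 % P.len) / P.n : ℕ) - ((a.1 % P.len) / P.n : ℕ) + P.R * (P.m : ℤ)) / (P.m : ℤ))

theorem kf_eq (j r i j' r' i' : ℕ) (hi : i < P.n) (h : r * P.n + i < P.len) (hi' : i' < P.n)
    (h' : r' * P.n + i' < P.len) : P.kf (j * P.len + (r * P.n + i), j' * P.len + (r' * P.n + i')) =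
      ((i, i'), ((r' : ℤ) - r + P.R * (P.m : ℤ)) / (P.m : ℤ)) := by
  have hmod : ∀ j r i : ℕ, i < P.n → r * P.n + i < P.len → ((j * P.len + (r * P.n + i)) % P.len) % P.n = i ∧
      ((j * P.len + (r * P.n + i)) % P.len) / P.n = r := by
    intro j r i hi hlt
    rw [mul_comm j, Nat.mul_add_mod, Nat.mod_eq_of_lt hlt, mul_comm r, Nat.mul_add_mod, Nat.mod_eq_of_lt hi,
      Nat.mul_add_div P.n_pos, Nat.div_eq_of_lt hi, add_zero]
    exact ⟨rfl, rfl⟩
  unfold kf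
  simp only
  rw [(hmod _ _ _ hi h).1, (hmod _ _ _ hi h).2, (hmod _ _ _ hi' h').1, (hmod _ _ _ hi' h').2]

theorem kf_inj {a b : ℕ × ℕ} (ha : a ∈ P.pairs) (hb : b ∈ P.pairs) (h : P.kf a = P.kf b) :
    ((P.w a.1)⁻¹ * P.w a.2, a.2 - a.1) = ((P.w b.1)⁻¹ * P.w b.2, b.2 - b.1) := by
  obtain ⟨t, t'⟩ := a
  obtain ⟨s, s'⟩ := b
  rw [P.mem_pairs] at ha hb
  obtain ⟨j, r, i, rfl, hi, hr, hlt, -⟩ := P.coords t
  obtain ⟨j', r', i', rfl, hi', hr', hlt', -⟩ := P.coords t'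
  obtain ⟨l, v, e, rfl, he, hv, hlv, -⟩ := P.coords s
  obtain ⟨l', v', e', rfl, he', hv', hlv', -⟩ := P.coords s'
  rw [P.kf_eq _ _ _ _ _ _ hi hlt hi' hlt', P.kf_eq _ _ _ _ _ _ he hlv he' hlv'] at h
  simp only [Prod.mk.injEq] at h
  obtain ⟨⟨rfl, rfl⟩, hq⟩ := h
  have hm : (0 : ℤ) < P.m := by exact_mod_cast P.m_pos
  obtain ⟨ha1, ha2, ha3⟩ := ha
  obtain ⟨hb1, hb2, hb3⟩ := hb
  rw [P.quot _ _ _ _ _ _ hlt.le hlt'.le] at ha3
  rw [P.quot _ _ _ _ _ _ hlv.le hlv'.le] at hb3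
  have hk := P.key ha3 hb3
  have lt1 : ∀ {j r i : ℕ}, j * P.len + (r * P.n + i) < P.τ → (j : ℤ) < P.q₂ := fun h => by
    exact_mod_cast P.lt_q₂ (t := 0) h
  have jj : j ≤ j' := by
    by_contra hcon
    have : (j' + 1) * P.len ≤ j * P.len := Nat.mul_le_mul_right _ (by omega)
    rw [add_mul, one_mul] at this
    omega
  have ll : l ≤ l' := by
    by_contra hcon
    have : (l' + 1) * P.len ≤ l * P.len := Nat.mul_le_mul_right _ (by omega)
    rw [add_mul, one_mul] at this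
    omega
  have h1 := lt1 ha2
  have h2 := lt1 hb2
  have hc : ((l' : ℤ) - l) = (j' : ℤ) - j := by
    have : ((l' : ℤ) - l) - ((j' : ℤ) - j) = 0 := by
      refine Int.eq_zero_of_abs_lt_dvd hk.1 ?_
      rw [abs_lt]
      constructor <;> omega
    linarith
  have hd := hk.2 hc
  rw [hc] at hd
  have hd' : (P.m : ℤ) ∣ ((v' : ℤ) - v + P.R * P.m) - ((r' : ℤ) - r + P.R * P.m) := by
    have e1 : ((v' : ℤ) - v + P.R * P.m) - ((r' : ℤ) - r + P.R * P.m) =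
        P.R * (P.m : ℤ) * ((j' : ℤ) - j) + ((v' : ℤ) - v) - (P.R * (P.m : ℤ) * ((j' : ℤ) - j) + ((r' : ℤ) - r)) := by ring
    rw [e1]
    exact hd
  have hr3 : (v' : ℤ) - v = (r' : ℤ) - r := by
    have e1 : ((v' : ℤ) - v + P.R * P.m) % P.m = ((r' : ℤ) - r + P.R * P.m) % P.m :=
      (Int.emod_emod_of_dvd _ (dvd_refl _)).symm.trans (by
        rw [Int.emod_emod_of_dvd _ (dvd_refl _)]
        exact Int.emod_eq_emod_iff_emod_sub_eq_zero.2 (Int.emod_eq_zero_of_dvd hd'))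
    have e2 := Int.emod_add_mul_ediv ((v' : ℤ) - v + P.R * P.m) P.m
    have e3 := Int.emod_add_mul_ediv ((r' : ℤ) - r + P.R * P.m) P.m
    rw [e1, ← hq] at e2
    linarith
  refine Prod.ext ?_ ?_
  · show (P.w (j * P.len + (r * P.n + i)))⁻¹ * P.w (j' * P.len + (r' * P.n + i')) =
      (P.w (l * P.len + (v * P.n + i)))⁻¹ * P.w (l' * P.len + (v' * P.n + i'))
    rw [P.quot _ _ _ _ _ _ hlt.le hlt'.le, P.quot _ _ _ _ _ _ hlv.le hlv'.le, hc, hr3]
  · show j' * P.len + (r' * P.n + i') - (j * P.len + (r * P.n + i)) =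
      l' * P.len + (v' * P.n + i') - (l * P.len + (v * P.n + i))
    have e1 : ((j' * P.len + (r' * P.n + i') - (j * P.len + (r * P.n + i)) : ℕ) : ℤ) =
        ((j' : ℤ) - j) * P.len + (((r' : ℤ) - r) * P.n + (i' - i)) := by
      rw [Nat.cast_sub ha1.le]
      push_cast
      ring
    have e2 : ((l' * P.len + (v' * P.n + i') - (l * P.len + (v * P.n + i)) : ℕ) : ℤ) =
        ((l' : ℤ) - l) * P.len + (((v' : ℤ) - v) * P.n + (i' - i)) := by
      rw [Nat.cast_sub hb1.le]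
      push_cast
      ring
    have : ((j' * P.len + (r' * P.n + i') - (j * P.len + (r * P.n + i)) : ℕ) : ℤ) =
        ((l' * P.len + (v' * P.n + i') - (l * P.len + (v * P.n + i)) : ℕ) : ℤ) := by
      rw [e1, e2, hc, hr3]
    exact_mod_cast this

/-- (d) Few types. -/
theorem card_types : P.types.card ≤ (2 * P.R + 1) * P.n ^ 2 := by
  classical
  have h1 : P.types.card ≤ (P.pairs.image P.kf).card := by
    have hex : ∀ b ∈ P.pairs.image P.kf, ∃ a, a ∈ P.pairs ∧ P.kf a = b := fun b hb => Finset.mem_image.1 hb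
    choose! g hg1 hg2 using hex
    refine Finset.card_le_card_of_surjOn (fun b => ((P.w (g b).1)⁻¹ * P.w (g b).2, (g b).2 - (g b).1)) ?_
    intro v hv
    unfold types at hv
    obtain ⟨a, ha, rfl⟩ := Finset.mem_image.1 (Finset.mem_coe.1 hv)
    have hb : P.kf a ∈ P.pairs.image P.kf := Finset.mem_image_of_mem _ ha
    exact ⟨P.kf a, Finset.mem_coe.2 hb, P.kf_inj (hg1 _ hb) ha (hg2 _ hb)⟩
  have h2 : P.pairs.image P.kf ⊆ (Finset.range P.n ×ˢ Finset.range P.n) ×ˢ Finset.Ico (0 : ℤ) (2 * P.R + 1) := by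
    intro b hb
    obtain ⟨⟨t, t'⟩, ha, rfl⟩ := Finset.mem_image.1 hb
    obtain ⟨j, r, i, rfl, hi, hr, hlt, -⟩ := P.coords t
    obtain ⟨j', r', i', rfl, hi', hr', hlt', -⟩ := P.coords t'
    rw [P.kf_eq _ _ _ _ _ _ hi hlt hi' hlt', Finset.mem_product, Finset.mem_product, Finset.mem_range,
      Finset.mem_range, Finset.mem_Ico]
    have hm : (0 : ℤ) < P.m := by exact_mod_cast P.m_pos
    have hr1 : (r : ℤ) ≤ P.R * P.m := by exact_mod_cast hr
    have hr2 : (r' : ℤ) ≤ P.R * P.m := by exact_mod_cast hr'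
    refine ⟨⟨hi, hi'⟩, Int.ediv_nonneg (by omega) hm.le, ?_⟩
    rw [Int.ediv_lt_iff_lt_mul hm, add_mul, one_mul, mul_assoc]
    omega
  have h3 := Finset.card_le_card h2
  rw [Finset.card_product, Finset.card_product, Finset.card_range, Int.card_Ico] at h3
  refine h1.trans (h3.trans (le_of_eq ?_))
  have : ((2 * P.R + 1 : ℤ) - 0).toNat = 2 * P.R + 1 := by omega
  rw [this]
  ring

theorem mem_types {t t' : ℕ} (htt : t < t') (ht' : t' < P.τ) (h : (P.w t)⁻¹ * P.w t' ∈ T) :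
    ((P.w t)⁻¹ * P.w t', t' - t) ∈ P.types := by
  classical
  unfold types
  exact Finset.mem_image.2 ⟨(t, t'), P.mem_pairs.2 ⟨htt, ht', h⟩, rfl⟩

theorem types_H {a : Q × ℕ} (h : a ∈ P.types) : a.1 ∈ T ∧ 2 ≤ a.2 := by
  classical
  unfold types at h
  obtain ⟨⟨t, t'⟩, hb, rfl⟩ := Finset.mem_image.1 h
  obtain ⟨h1, h2, h3⟩ := P.mem_pairs.1 hb
  refine ⟨h3, ?_⟩
  show 2 ≤ t' - t
  by_contra hcon
  obtain rfl : t' = t + 1 := by
    have h1 : t < t' := h1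
    omega
  have h3 : (P.w t)⁻¹ * P.w (t + 1) ∈ T := h3
  rw [P.w_succ, inv_mul_cancel_left] at h3
  exact P.notT _ h3

/-- (e) The real number `θ`. `Y h` = the bad levels of a pair of visits which differ by `h ∈ T` (vertical moves not counted). -/
theorem theta (u E L : ℕ) (hu : 1 ≤ u) (Y : Q → Set ℤ) (hY : ∀ h ∈ T, Sparse L (Y h))
    (hL : 1000 * ((2 * P.R + 1) * P.n ^ 2 + 1) * u * (4 ^ (10 * ((2 * P.R + 1) * P.n ^ 2) + 1) * (30 + 5 * E)) ≤ L) :
    ∃ θ : ℝ, 30 + 5 * (E : ℝ) ≤ θ ∧ θ ≤ 2 * (4 ^ (10 * ((2 * P.R + 1) * P.n ^ 2)) * (30 + 5 * E)) ∧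
      ∀ S : ℕ → ℤ, (∀ t, S t = ⌊θ * t⌋ ∨ S t = ⌊θ * t⌋ + 1) →
        ∀ t t', t < t' → t' < P.τ → (P.w t)⁻¹ * P.w t' ∈ T →
          ∀ y ∈ Y ((P.w t)⁻¹ * P.w t'), u * (θ + 4) + E < |(u : ℝ) * (S t' - S t) - y| := by
  have hc := P.card_types
  obtain ⟨θ, h1, h2, h3⟩ := sel P.types (fun a => a.2) (fun a => Y a.1) u E L hu (fun a ha => (P.types_H ha).2)
    (fun a ha => hY _ (P.types_H ha).1) (by
      refine le_trans ?_ hL
      have e1 : 1000 * (P.types.card + 1) ≤ 1000 * ((2 * P.R + 1) * P.n ^ 2 + 1) := by omega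
      have e2 : 4 ^ (10 * P.types.card + 1) ≤ 4 ^ (10 * ((2 * P.R + 1) * P.n ^ 2) + 1) := Nat.pow_le_pow_right (by norm_num) (by omega)
      exact Nat.mul_le_mul (Nat.mul_le_mul_right _ e1) (Nat.mul_le_mul_right _ e2))
  refine ⟨θ, h1, h2.trans ?_, ?_⟩
  · have e2 : (4 : ℝ) ^ (10 * P.types.card) ≤ 4 ^ (10 * ((2 * P.R + 1) * P.n ^ 2)) := pow_le_pow_right₀ (by norm_num) (by omega)
    have e3 : (0 : ℝ) ≤ 30 + 5 * E := by positivity
    nlinarith [mul_le_mul_of_nonneg_right e2 e3]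
  · intro S hS t t' htt ht' hH y hy
    have h4 := h3 _ (P.mem_types htt ht' hH) (S t' - S t) (by
      have hb : ∀ r : ℕ, θ * r - 1 < S r ∧ (S r : ℝ) ≤ θ * r + 1 := by
        intro r
        have e1 := Int.floor_le (θ * r)
        have e2 := Int.lt_floor_add_one (θ * r)
        rcases hS r with h | h
        · rw [h]; constructor <;> linarith
        · rw [h]; push_cast; constructor <;> linarith
      have b1 := hb t
      have b2 := hb t'
      show |((S t' - S t : ℤ) : ℝ) - ((t' - t : ℕ) : ℝ) * θ| ≤ 3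
      rw [Nat.cast_sub htt.le]
      push_cast
      rw [abs_le]
      constructor <;> nlinarith [b1.1, b1.2, b2.1, b2.2]) y hy
    push_cast at h4
    exact h4

end Blk

end Pool.Agent.Lib.MP_688fd0_co.SQ7.H79
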