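import Pool.Agent.Lib.MP_688fd0_co.SQ7.H79.Blk

/-!
Block trajectories with isolated passive labels.

The visits are the visits `t + 1` with `t + 1 < τ` (arrival by the label `lab t`), and the visit `0`. A visit is active or
passive according to its label. Passive visits are isolated, and every visit occurs `R` times at the same place modulo `Nv`,
together with its neighbours.
-/

set_option autoImplicit false

namespace Pool.Agent.Lib.MP_688fd0_co.SQ7.H79

open Finset Pool.Agent.Lib.MP_688fd0_co.SQ5.H12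

variable {Q : Type*} [Group Q] {Λ : Type*}

namespace Blk

variable {q : Λ → Q} {T N N0 Nv : Subgroup Q} (P : Blk q T N N0 Nv)

/-- The passive labels are isolated, and two of them are never at distance two. -/
structure Iso (act : Λ → Prop) : Prop where
  n₁_pos : 0 < P.n₁
  body : ∀ i < P.n, ¬ act (P.a i) → 0 < i ∧ i + 1 < P.n ∧ act (P.a (i - 1)) ∧ act (P.a (i + 1))
  far : ∀ i, i + 2 < P.n → ¬ act (P.a i) → act (P.a (i + 2))
  tail : ∀ i < P.n₁, ¬ act (P.a i) → i + 1 < P.n₁

variable {P} {act : Λ → Prop}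

/-- The labels at the places of a round. -/
theorem lab_form {j r i : ℕ} (h : r * P.n + i < P.len) : P.lab (j * P.len + (r * P.n + i)) = P.a i := by
  rw [P.lab_block j h, per_mul P.per]

/-- A passive label: place and neighbours. -/
theorem Iso.place (I : P.Iso act) {j r i : ℕ} (hi : i < P.n) (h : r * P.n + i < P.len) (hr : r ≤ P.R * P.m)
    (hp : ¬ act (P.a i)) : 0 < i ∧ i + 1 < P.n ∧ r * P.n + (i + 1) < P.len ∧
      P.lab (j * P.len + (r * P.n + (i - 1))) = P.a (i - 1) ∧ P.lab (j * P.len + (r * P.n + (i + 1))) = P.a (i + 1) ∧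
      act (P.a (i - 1)) ∧ act (P.a (i + 1)) := by
  obtain ⟨h1, h2, h3, h4⟩ := I.body i hi hp
  have h5 : r * P.n + (i + 1) < P.len := by
    rcases hr.lt_or_eq with h6 | h6
    · have h7 : (r + 1) * P.n ≤ P.R * P.m * P.n := Nat.mul_le_mul_right _ h6
      rw [add_mul, one_mul] at h7
      have := I.n₁_pos
      unfold len
      omega
    · rw [h6] at h ⊢
      unfold len at h ⊢
      have := I.tail i (by omega) hp
      omega
  exact ⟨h1, h2, h5, lab_form (by omega), lab_form h5, h3, h4⟩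

/-- A passive label has active neighbours. -/
theorem Iso.passive (I : P.Iso act) {t : ℕ} (ht : t < P.τ) (hp : ¬ act (P.lab t)) :
    0 < t ∧ t + 1 < P.τ ∧ act (P.lab (t - 1)) ∧ act (P.lab (t + 1)) := by
  obtain ⟨j, r, i, rfl, hi, hr, hlt, -⟩ := P.coords t
  rw [lab_form hlt] at hp
  obtain ⟨h1, h2, h3, h4, h5, h6, h7⟩ := I.place (j := j) hi hlt hr hp
  have e1 : j * P.len + (r * P.n + i) - 1 = j * P.len + (r * P.n + (i - 1)) := by omega
  have e2 : j * P.len + (r * P.n + i) + 1 = j * P.len + (r * P.n + (i + 1)) := by omega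
  refine ⟨by omega, ?_, ?_, ?_⟩
  · rw [e2]
    exact P.lt_τ (P.lt_q₂ (t := 0) ht) h3
  · rw [e1, h4]
    exact h6
  · rw [e2, h5]
    exact h7

/-- The first label is active. -/
theorem Iso.first (I : P.Iso act) : act (P.lab 0) := by
  by_contra h
  have h1 : P.lab 0 = P.a 0 := by
    have := lab_form (P := P) (j := 0) (r := 0) (i := 0) (by have := P.len_pos; omega)
    simpa using this
  rw [h1] at h
  have := (I.body 0 P.n_pos h).1
  omega

/-- The first label of the periodic walk is active. -/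
theorem Iso.first' (I : P.Iso act) : act (P.a 0) := by
  by_contra h
  have := (I.body 0 P.n_pos h).1
  omega

/-- Two passive labels are never at distance two. -/
theorem Iso.far2 (I : P.Iso act) {t : ℕ} (hp : ¬ act (P.lab t)) : act (P.lab (t + 2)) := by
  obtain ⟨j, r, i, rfl, hi, hr, hlt, -⟩ := P.coords t
  rw [lab_form hlt] at hp
  obtain ⟨h1, h2, h3, -⟩ := I.place (j := j) hi hlt hr hp
  rcases Nat.lt_or_ge (r * P.n + (i + 2)) P.len with h4 | h4
  · have e : j * P.len + (r * P.n + i) + 2 = j * P.len + (r * P.n + (i + 2)) := by omega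
    rw [e, lab_form h4]
    rcases Nat.lt_or_ge (i + 2) P.n with h5 | h5
    · exact I.far i h5 hp
    · have h6 : i + 2 = 0 + P.n := by omega
      rw [h6, P.per]
      exact I.first'
  · have e : j * P.len + (r * P.n + i) + 2 = (j + 1) * P.len + (0 * P.n + 0) := by
      have : (j + 1) * P.len = j * P.len + P.len := by ring
      omega
    rw [e, lab_form (by have := P.len_pos; omega)]
    exact I.first'

/-- The label before a time whose place is `i`. -/
theorem Iso.prev (I : P.Iso act) {j r i : ℕ} (hi : i < P.n) (h : r * P.n + i < P.len)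
    (h0 : 0 < j * P.len + (r * P.n + i)) : (0 < i ∧ P.lab (j * P.len + (r * P.n + i) - 1) = P.a (i - 1)) ∨
      (i = 0 ∧ act (P.lab (j * P.len + (r * P.n + i) - 1))) := by
  have hn := P.n_pos
  rcases Nat.eq_zero_or_pos i with rfl | hi0
  · right
    refine ⟨rfl, ?_⟩
    by_contra hp
    rcases Nat.eq_zero_or_pos r with rfl | hr
    · -- the end of a block
      have hj : 0 < j := by
        by_contra hj
        obtain rfl : j = 0 := by omega
        simp at h0
      have hl := P.len_pos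
      have hn1 := I.n₁_pos
      have h1 : (P.R * P.m) * P.n + (P.n₁ - 1) < P.len := by
        unfold len
        omega
      have e : j * P.len + (0 * P.n + 0) - 1 = (j - 1) * P.len + ((P.R * P.m) * P.n + (P.n₁ - 1)) := by
        obtain ⟨j', rfl⟩ : ∃ j', j = j' + 1 := ⟨j - 1, by omega⟩
        have e2 : P.len = P.R * P.m * P.n + P.n₁ := rfl
        rw [Nat.add_sub_cancel, add_mul]
        omega
      rw [e, lab_form h1] at hp
      have := I.tail (P.n₁ - 1) (by omega) hp
      omega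
    · obtain ⟨r', rfl⟩ : ∃ r', r = r' + 1 := ⟨r - 1, by omega⟩
      have h1 : r' * P.n + (P.n - 1) < P.len := by
        rw [add_mul] at h
        omega
      have e : j * P.len + ((r' + 1) * P.n + 0) - 1 = j * P.len + (r' * P.n + (P.n - 1)) := by
        rw [add_mul]
        omega
      rw [e, lab_form h1] at hp
      have := (I.body (P.n - 1) (by omega) hp).2.1
      omega
  · left
    refine ⟨hi0, ?_⟩
    have e : j * P.len + (r * P.n + i) - 1 = j * P.len + (r * P.n + (i - 1)) := by omega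
    rw [e]
    exact lab_form (by omega)

/-- Every visit occurs `R` times. -/
theorem Iso.rounds (I : P.Iso act) {t : ℕ} (ht : t + 1 < P.τ) : ∃ f : Fin P.R → ℕ, Function.Injective f ∧
    ∀ k, f k + 1 < P.τ ∧ P.lab (f k) = P.lab t ∧ (P.w t)⁻¹ * P.w (f k) ∈ Nv ∧
      (¬ act (P.lab t) → P.lab (f k + 1) = P.lab (t + 1) ∧ f k + 2 < P.τ) ∧
      (0 < f k → (t = 0 ∨ act (P.lab (t - 1))) → act (P.lab (f k - 1))) := by
  obtain ⟨j, r, i, rfl, hi, hr, hlt, -⟩ := P.coords t
  have hn := P.n_pos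
  have hm := P.m_pos
  have hj : j < P.q₂ := P.lt_q₂ (t := 0) (lt_trans (Nat.lt_succ_self _) ht)
  have hrR : ∀ k : Fin P.R, r % P.m + P.m * k + 1 ≤ P.R * P.m := by
    intro k
    have h1 : r % P.m < P.m := Nat.mod_lt _ hm
    have h3 : P.m * ((k : ℕ) + 1) ≤ P.m * P.R := Nat.mul_le_mul_left _ k.2
    rw [mul_add, mul_one, mul_comm P.m P.R] at h3
    omega
  have hoff : ∀ k : Fin P.R, (r % P.m + P.m * k) * P.n + i + 1 < P.len := by
    intro k
    have h3 : (r % P.m + P.m * k + 1) * P.n ≤ P.R * P.m * P.n := Nat.mul_le_mul_right _ (hrR k)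
    rw [add_mul, one_mul] at h3
    have := I.n₁_pos
    unfold len
    omega
  refine ⟨fun k => j * P.len + ((r % P.m + P.m * k) * P.n + i), ?_, fun k => ⟨?_, ?_, ?_, ?_, ?_⟩⟩
  · intro k k' h
    have h1 : (r % P.m + P.m * (k : ℕ)) * P.n = (r % P.m + P.m * (k' : ℕ)) * P.n := by
      have : j * P.len + ((r % P.m + P.m * (k : ℕ)) * P.n + i) = j * P.len + ((r % P.m + P.m * (k' : ℕ)) * P.n + i) := h
      omega
    have h2 := Nat.eq_of_mul_eq_mul_right hn h1
    have h3 : P.m * (k : ℕ) = P.m * (k' : ℕ) := by omega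
    exact Fin.ext (Nat.eq_of_mul_eq_mul_left hm h3)
  · show j * P.len + ((r % P.m + P.m * k) * P.n + i) + 1 < P.τ
    rw [add_assoc]
    exact P.lt_τ hj (hoff k)
  · show P.lab (j * P.len + ((r % P.m + P.m * k) * P.n + i)) = _
    rw [lab_form (by have := hoff k; omega), lab_form hlt]
  · show _⁻¹ * P.w (j * P.len + ((r % P.m + P.m * k) * P.n + i)) ∈ Nv
    have hk : (r % P.m + P.m * (k : ℕ)) * P.n + i ≤ P.len := by have := hoff k; omega
    rw [P.w_form _ _ _ hk, P.w_form _ _ _ hlt.le]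
    have e1 : (P.lm ^ (P.R * P.m * j + r) : Q) = P.lm ^ (P.R * P.m * j + r % P.m) * P.lm ^ (P.m * (r / P.m)) := by
      rw [← pow_add]
      congr 1
      have := Nat.mod_add_div r P.m
      omega
    have e2 : (P.lm ^ (P.R * P.m * j + (r % P.m + P.m * k)) : Q) =
        P.lm ^ (P.R * P.m * j + r % P.m) * P.lm ^ (P.m * (k : ℕ)) := by
      rw [← pow_add]
      congr 1
      omega
    have c1 : Commute (P.lm ^ (P.m * (r / P.m)))⁻¹ (P.p i) :=
      ((Commute.pow_right (show Commute (P.p i) P.lm from P.lm_cen _) _).symm).inv_left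
    have c2 : Commute (P.lm ^ (P.m * (k : ℕ))) (P.p i) :=
      (Commute.pow_right (show Commute (P.p i) P.lm from P.lm_cen _) _).symm
    have e3 : (P.y ^ j * P.lm ^ (P.R * P.m * j + r) * P.p i)⁻¹ *
        (P.y ^ j * P.lm ^ (P.R * P.m * j + (r % P.m + P.m * k)) * P.p i) =
        (P.lm ^ (P.m * (r / P.m)))⁻¹ * P.lm ^ (P.m * (k : ℕ)) := by
      rw [e1, e2]
      have : (P.y ^ j * (P.lm ^ (P.R * P.m * j + r % P.m) * P.lm ^ (P.m * (r / P.m))) * P.p i)⁻¹ *
          (P.y ^ j * (P.lm ^ (P.R * P.m * j + r % P.m) * P.lm ^ (P.m * (k : ℕ))) * P.p i) =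
          (P.p i)⁻¹ * ((P.lm ^ (P.m * (r / P.m)))⁻¹ * (P.lm ^ (P.m * (k : ℕ)) * P.p i)) := by group
      rw [this, c2.eq, ← mul_assoc ((P.lm ^ (P.m * (r / P.m)))⁻¹), c1.eq]
      group
    rw [e3]
    exact Nv.mul_mem (Nv.inv_mem (P.lmv _)) (P.lmv _)
  · intro hp
    rw [lab_form hlt] at hp
    obtain ⟨h1, h2, h3, h4, h5, h6, h7⟩ := I.place (j := j) hi hlt hr hp
    have hk : r % P.m + P.m * (k : ℕ) ≤ P.R * P.m := by have := hrR k; omega
    obtain ⟨-, -, g3, -, g5, -, -⟩ := I.place (j := j) (r := r % P.m + P.m * (k : ℕ)) hi (by have := hoff k; omega) hk hp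
    constructor
    · show P.lab (j * P.len + ((r % P.m + P.m * k) * P.n + i) + 1) = _
      have e1 : j * P.len + ((r % P.m + P.m * (k : ℕ)) * P.n + i) + 1 =
          j * P.len + ((r % P.m + P.m * (k : ℕ)) * P.n + (i + 1)) := by omega
      have e2 : j * P.len + (r * P.n + i) + 1 = j * P.len + (r * P.n + (i + 1)) := by omega
      rw [e1, e2, g5, h5]
    · show j * P.len + ((r % P.m + P.m * k) * P.n + i) + 2 < P.τ
      have h8 : (r % P.m + P.m * (k : ℕ) + 1) * P.n ≤ P.R * P.m * P.n := Nat.mul_le_mul_right _ (hrR k)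
      rw [add_mul, one_mul] at h8
      have := I.n₁_pos
      rw [add_assoc]
      refine P.lt_τ hj ?_
      unfold len
      omega
  · intro h0 hpr
    have h0' : 0 < j * P.len + ((r % P.m + P.m * (k : ℕ)) * P.n + i) := h0
    show act (P.lab (j * P.len + ((r % P.m + P.m * (k : ℕ)) * P.n + i) - 1))
    rcases I.prev hi (by have := hoff k; omega) h0' with ⟨hi0, h1⟩ | ⟨-, h1⟩
    · rw [h1]
      rcases hpr with h2 | h2
      · omega
      · have e : j * P.len + (r * P.n + i) - 1 = j * P.len + (r * P.n + (i - 1)) := by omega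
        rw [e, lab_form (by omega)] at h2
        exact h2
    · exact h1

/-- The virtual visit `m + 1`: the real visits are `0, …, m`. -/
theorem Iso.end_visit (I : P.Iso act) : ∃ m, 0 < m ∧ m + 1 < P.τ ∧ P.τ ≤ m + 3 ∧ act (P.lab m) := by
  have h1 : 3 ≤ P.τ := by
    have h2 : 2 * 1 ≤ P.R * (P.m * P.n) := Nat.mul_le_mul P.R_pos (Nat.mul_pos P.m_pos P.n_pos)
    have h3 := I.n₁_pos
    have h4 : 1 * P.len ≤ P.q₂ * P.len := Nat.mul_le_mul_right _ P.q₂_pos
    have h5 : P.len = P.R * (P.m * P.n) + P.n₁ := by unfold len; rw [mul_assoc]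
    unfold τ
    omega
  by_cases h : act (P.lab (P.τ - 2))
  · exact ⟨P.τ - 2, by omega, by omega, by omega, h⟩
  · obtain ⟨h2, -, h3, -⟩ := I.passive (t := P.τ - 2) (by omega) h
    refine ⟨P.τ - 2 - 1, ?_, by omega, by omega, h3⟩
    rcases Nat.eq_zero_or_pos (P.τ - 2 - 1) with h4 | h4
    · exfalso
      -- `τ = 3`, so the only passive label would be `lab 1`
      have h5 : P.τ = 3 := by omega
      have h6 : 2 * (P.m * P.n) ≤ P.R * (P.m * P.n) := Nat.mul_le_mul_right _ P.R_pos
      have h7 := I.n₁_pos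
      have h8 : 1 * P.len ≤ P.q₂ * P.len := Nat.mul_le_mul_right _ P.q₂_pos
      have h9 : P.len = P.R * (P.m * P.n) + P.n₁ := by unfold len; rw [mul_assoc]
      have h10 : P.q₂ * P.len = 3 := h5
      have h11 : 0 < P.m * P.n := Nat.mul_pos P.m_pos P.n_pos
      have h12 : P.m * P.n = 1 := by omega
      have h13 : P.n = 1 := Nat.eq_one_of_mul_eq_one_left h12
      have h14 : P.lab (P.τ - 2) = P.a 0 := by
        have h15 : P.τ - 2 = 0 * P.len + (1 * P.n + 0) := by omega
        rw [h15]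
        exact lab_form (by omega)
      rw [h14] at h
      have := (I.body 0 P.n_pos h).1
      omega
    · exact h4

/-- The virtual visit `m + 1` is active, the last real visit `m` is active. -/
theorem Iso.end_visit2 (I : P.Iso act) (hR : 5 ≤ P.R) :
    ∃ m, 1 < m ∧ m + 1 < P.τ ∧ P.τ ≤ m + 4 ∧ act (P.lab m) ∧ act (P.lab (m - 1)) := by
  have h1 : 6 ≤ P.τ := by
    have h2 : 5 * 1 ≤ P.R * (P.m * P.n) := Nat.mul_le_mul hR (Nat.mul_pos P.m_pos P.n_pos)
    have h3 := I.n₁_pos
    have h4 : 1 * P.len ≤ P.q₂ * P.len := Nat.mul_le_mul_right _ P.q₂_pos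
    have h5 : P.len = P.R * (P.m * P.n) + P.n₁ := by unfold len; rw [mul_assoc]
    unfold τ
    omega
  by_cases h : act (P.lab (P.τ - 2))
  · by_cases h' : act (P.lab (P.τ - 3))
    · exact ⟨P.τ - 2, by omega, by omega, by omega, h, by rwa [show P.τ - 2 - 1 = P.τ - 3 by omega]⟩
    · obtain ⟨-, -, h2, -⟩ := I.passive (t := P.τ - 3) (by omega) h'
      refine ⟨P.τ - 4, by omega, by omega, by omega, by rwa [show P.τ - 4 = P.τ - 3 - 1 by omega], ?_⟩
      by_contra h3
      refine h' ?_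
      rw [show P.τ - 3 = P.τ - 4 - 1 + 2 by omega]
      exact I.far2 h3
  · obtain ⟨-, -, h2, -⟩ := I.passive (t := P.τ - 2) (by omega) h
    refine ⟨P.τ - 3, by omega, by omega, by omega, by rwa [show P.τ - 3 = P.τ - 2 - 1 by omega], ?_⟩
    by_contra h3
    refine h ?_
    rw [show P.τ - 2 = P.τ - 3 - 1 + 2 by omega]
    exact I.far2 h3

/-- Same class, same label: same class of the next visit. -/
theorem step_class (hv : Nv.Normal) {t s : ℕ} (h : (P.w t)⁻¹ * P.w s ∈ Nv) (hl : P.lab s = P.lab t) :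
    (P.w (t + 1))⁻¹ * P.w (s + 1) ∈ Nv := by
  rw [P.w_succ, P.w_succ, hl]
  have e : (P.w t * q (P.lab t))⁻¹ * (P.w s * q (P.lab t)) =
      (q (P.lab t))⁻¹ * ((P.w t)⁻¹ * P.w s) * ((q (P.lab t))⁻¹)⁻¹ := by group
  rw [e]
  exact hv.conj_mem _ h _

variable (P) in
/-- Copies among the real visits `0, …, m`. -/
theorem Iso.rounds_end' (I : P.Iso act) {m e : ℕ} (hm : P.τ ≤ m + 1 + e) {t : ℕ} (ht : t + 1 < P.τ) :
    ∃ f : Fin (P.R - e) → ℕ, Function.Injective f ∧
      ∀ k, f k + 1 ≤ m ∧ f k + 1 < P.τ ∧ P.lab (f k) = P.lab t ∧ (P.w t)⁻¹ * P.w (f k) ∈ Nv ∧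
        (¬ act (P.lab t) → P.lab (f k + 1) = P.lab (t + 1) ∧ f k + 2 < P.τ) ∧
        (0 < f k → (t = 0 ∨ act (P.lab (t - 1))) → act (P.lab (f k - 1))) := by
  classical
  obtain ⟨f, hf, h⟩ := I.rounds ht
  set F : Finset (Fin P.R) := Finset.univ.filter fun k => f k < m with hF
  have h1 : P.R - e ≤ F.card := by
    have h2 : (Finset.univ.filter fun k => ¬ f k < m).card ≤ e := by
      have h3 : (Finset.univ.filter fun k => ¬ f k < m).card ≤ (Finset.Ico m (m + e)).card := by
        refine Finset.card_le_card_of_injOn f ?_ hf.injOn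
        intro k hk
        have h4 := (Finset.mem_filter.1 (Finset.mem_coe.1 hk)).2
        have h5 := (h k).1
        rw [Finset.mem_coe, Finset.mem_Ico]
        omega
      rw [Nat.card_Ico] at h3
      omega
    have h3 : (Finset.univ : Finset (Fin P.R)).card ≤ F.card + (Finset.univ.filter fun k => ¬ f k < m).card := by
      refine le_trans (Finset.card_le_card ?_) (Finset.card_union_le _ _)
      intro k _
      by_cases hk : f k < m
      · exact Finset.mem_union_left _ (Finset.mem_filter.2 ⟨Finset.mem_univ _, hk⟩)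
      · exact Finset.mem_union_right _ (Finset.mem_filter.2 ⟨Finset.mem_univ _, hk⟩)
    rw [Finset.card_univ, Fintype.card_fin] at h3
    omega
  refine ⟨fun k => f (F.orderEmbOfFin rfl (Fin.castLE h1 k)), ?_, fun k => ?_⟩
  · intro k k' hk
    have h2 := (F.orderEmbOfFin rfl).injective (hf hk)
    exact Fin.castLE_injective h1 h2
  · have h2 : F.orderEmbOfFin rfl (Fin.castLE h1 k) ∈ F := F.orderEmbOfFin_mem rfl _
    exact ⟨(Finset.mem_filter.1 h2).2, h _⟩

variable (P) in
/-- Copies among the real visits `0, …, m`. -/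
theorem Iso.rounds_end (I : P.Iso act) {m : ℕ} (hm : P.τ ≤ m + 3) {t : ℕ} (ht : t + 1 < P.τ) :
    ∃ f : Fin (P.R - 2) → ℕ, Function.Injective f ∧
      ∀ k, f k + 1 ≤ m ∧ f k + 1 < P.τ ∧ P.lab (f k) = P.lab t ∧ (P.w t)⁻¹ * P.w (f k) ∈ Nv ∧
        (¬ act (P.lab t) → P.lab (f k + 1) = P.lab (t + 1) ∧ f k + 2 < P.τ) ∧
        (0 < f k → (t = 0 ∨ act (P.lab (t - 1))) → act (P.lab (f k - 1))) :=
  Iso.rounds_end' P I (e := 2) (by omega) ht

/-- Every class modulo `N0` is met by the visits with any label which occurs in front of this class modulo `N`. -/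
theorem hit_lab {i : ℕ} (hi : i < P.n) {x : Q} (h : (P.p (i + 1))⁻¹ * x ∈ N) :
    ∃ t, t + 1 < P.τ ∧ P.lab t = P.a i ∧ (P.w (t + 1))⁻¹ * x ∈ N0 ∧
      ∀ act : Λ → Prop, P.Iso act → (i = 0 ∨ act (P.a (i - 1))) → t = 0 ∨ act (P.lab (t - 1)) := by
  obtain ⟨j, hj, r, hr, h1⟩ := Blk.hit P (show i + 1 ≤ P.n by omega) h
  have h2 : (r + 1) * P.n ≤ P.m * P.n := Nat.mul_le_mul_right _ hr
  rw [add_mul, one_mul] at h2
  have h3 := P.mn_le
  refine ⟨j * P.len + (r * P.n + i), ?_, lab_form (by omega), ?_, ?_⟩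
  · rw [add_assoc]
    exact P.lt_τ hj (by omega)
  · rw [add_assoc, add_assoc]
    exact h1
  · intro act I hpr
    rcases Nat.eq_zero_or_pos (j * P.len + (r * P.n + i)) with h0 | h0
    · exact Or.inl h0
    · right
      rcases I.prev hi (by omega) h0 with ⟨hi0, h4⟩ | ⟨-, h4⟩
      · rw [h4]
        exact hpr.resolve_left (by omega)
      · exact h4

end Blk

end Pool.Agent.Lib.MP_688fd0_co.SQ7.H79
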